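import Pool.Agent.H959.Ryab.Polar

open Complex MeasureTheory Set Filter Topology Metric Polynomial
open scoped Real ComplexConjugate

namespace Pool.Agent.H959.Ryab

/-- circle integrals of `conj k · z^n` scale as `r^{2n}`. -/
lemma cm_scaling {k k' : ℂ → ℂ} (hk : Hol 1 k k') (n : ℕ) {r ρ : ℝ} (hr0 : 0 < r) (hr : r < 1)
    (hρ0 : 0 < ρ) (hρ : ρ < 1) :
    cm (fun z => conj (k z) * z ^ n) r * (ρ:ℂ) ^ (2 * n) =
      cm (fun z => conj (k z) * z ^ n) ρ * (r:ℂ) ^ (2 * n) := by
  have hpow : C1W 1 (fun z : ℂ => z ^ n) (fun z => (n:ℂ) * z ^ (n - 1)) (fun _ => 0) :=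
    C1W.hol (fun z _ => hasDerivAt_pow n z) (by fun_prop)
  have hU := (C1W.hol hk.d1 hk.cont').conj.mul hpow
  have hd : ∀ s ∈ Ioo (0:ℝ) 1, HasDerivAt (cm (fun z => conj (k z) * z ^ n))
      ((2 / s) * (n * cm (fun z => conj (k z) * z ^ n) s)) s := by
    intro s hs
    have h1 := cm_deriv_left hU hs.1 hs.2
    refine h1.congr_deriv ?_
    congr 1
    rw [← cm_smul]
    congr 1
    funext z
    rcases Nat.eq_zero_or_pos n with h0 | h0
    · simp [h0]
    · have : z ^ n = z * z ^ (n - 1) := by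
        rw [← pow_succ', Nat.sub_add_cancel h0]
      rw [this]
      simp only [map_zero, zero_mul, zero_add]
      ring
  -- the quotient has zero derivative
  set m := cm (fun z => conj (k z) * z ^ n) with hm
  have hq : ∀ s ∈ Ioo (0:ℝ) 1, HasDerivAt (fun s : ℝ => m s * ((s:ℂ) ^ (2 * n))⁻¹) 0 s := by
    intro s hs
    have hs0 : (s:ℂ) ≠ 0 := by exact_mod_cast hs.1.ne'
    have h1 := hd s hs
    have h2 : HasDerivAt (fun s : ℝ => (s:ℂ) ^ (2 * n)) (((2 * n : ℕ) : ℂ) * (s:ℂ) ^ (2 * n - 1)) s := by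
      have := (Complex.ofRealCLM.hasDerivAt (x := s)).pow (2 * n)
      refine this.congr_deriv ?_
      simp
    have h3 : HasDerivAt (fun s : ℝ => m s * ((s:ℂ) ^ (2 * n))⁻¹)
        (2 / s * (n * m s) * ((s:ℂ) ^ (2 * n))⁻¹ +
          m s * (-(((2 * n : ℕ) : ℂ) * (s:ℂ) ^ (2 * n - 1)) / ((s:ℂ) ^ (2 * n)) ^ 2)) s :=
      h1.mul (h2.inv (pow_ne_zero _ hs0))
    refine h3.congr_deriv ?_
    rcases Nat.eq_zero_or_pos n with h0 | h0
    · simp [h0]
    · have h4 : (s:ℂ) ^ (2 * n) = s * (s:ℂ) ^ (2 * n - 1) := by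
        rw [← pow_succ', Nat.sub_add_cancel (by omega)]
      rw [h4]
      have h5 : (s:ℂ) ^ (2 * n - 1) ≠ 0 := pow_ne_zero _ hs0
      push_cast
      field_simp
      ring
  have hconst : m r * ((r:ℂ) ^ (2 * n))⁻¹ = m ρ * ((ρ:ℂ) ^ (2 * n))⁻¹ := by
    have hdiff : DifferentiableOn ℝ (fun s : ℝ => m s * ((s:ℂ) ^ (2 * n))⁻¹) (Ioo 0 1) :=
      fun s hs => (hq s hs).differentiableAt.differentiableWithinAt
    have hz : EqOn (derivWithin (fun s : ℝ => m s * ((s:ℂ) ^ (2 * n))⁻¹) (Ioo 0 1)) 0 (Ioo 0 1) := by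
      intro s hs
      rw [derivWithin_of_isOpen isOpen_Ioo hs, (hq s hs).deriv]
      rfl
    exact (convex_Ioo (0:ℝ) 1).is_const_of_fderivWithin_eq_zero (𝕜 := ℝ) hdiff (by
      intro s hs
      rw [fderivWithin_of_isOpen isOpen_Ioo hs]
      have := (hq s hs).hasFDerivAt.fderiv
      rw [this]
      simp) ⟨hr0, hr⟩ ⟨hρ0, hρ⟩
  have hr' : (r:ℂ) ^ (2 * n) ≠ 0 := pow_ne_zero _ (by exact_mod_cast hr0.ne')
  have hρ' : (ρ:ℂ) ^ (2 * n) ≠ 0 := pow_ne_zero _ (by exact_mod_cast hρ0.ne')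
  field_simp at hconst
  linear_combination hconst

/-- area integral of `conj k · z^n` over discs -/
lemma area_monomial {k k' : ℂ → ℂ} (hk : Hol 1 k k')
    (hint : IntegrableOn k (ball (0:ℂ) 1)) (n : ℕ) {ρ : ℝ}
    (hρ0 : 0 < ρ) (hρ : ρ < 1) :
    cm (fun z => conj (k z) * z ^ n) ρ =
      (ρ:ℂ) ^ (2 * n) * (2 * (n + 1)) * ∫ z in ball (0:ℂ) 1, conj (k z) * z ^ n := by
  have hcU : ContinuousOn (fun z => conj (k z) * z ^ n) (ball (0:ℂ) 1) :=
    (continuous_conj.comp_continuousOn hk.cont).mul (by fun_prop)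
  have hρ' : (ρ:ℂ) ^ (2 * n) ≠ 0 := pow_ne_zero _ (by exact_mod_cast hρ0.ne')
  have hn' : ((n:ℂ) + 1) ≠ 0 := by exact_mod_cast Nat.succ_ne_zero n
  -- integral on smaller discs
  have h1 : ∀ R : ℝ, 0 < R → R < 1 → ∫ z in ball (0:ℂ) R, conj (k z) * z ^ n =
      cm (fun z => conj (k z) * z ^ n) ρ * ((ρ:ℂ) ^ (2 * n))⁻¹ *
        ((R:ℂ) ^ (2 * n + 2) / (2 * (n + 1))) := by
    intro R hR0 hR
    rw [ball_polar hcU hR0 hR]
    have h2 : ∫ r in (0:ℝ)..R, (r:ℂ) * cm (fun z => conj (k z) * z ^ n) r =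
        ∫ r in (0:ℝ)..R, (cm (fun z => conj (k z) * z ^ n) ρ * ((ρ:ℂ) ^ (2 * n))⁻¹) *
          (r:ℂ) ^ (2 * n + 1) := by
      rw [intervalIntegral.integral_of_le hR0.le, intervalIntegral.integral_of_le hR0.le]
      apply setIntegral_congr_fun measurableSet_Ioc
      intro r hr
      have h3 := cm_scaling hk n hr.1 (lt_of_le_of_lt hr.2 hR) hρ0 hρ
      simp only
      rw [pow_succ]
      field_simp
      linear_combination (r:ℂ) * h3
    rw [h2, intervalIntegral.integral_const_mul]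
    congr 1
    have h4 : ∫ r in (0:ℝ)..R, (r:ℂ) ^ (2 * n + 1) = ((∫ r in (0:ℝ)..R, r ^ (2 * n + 1) : ℝ) : ℂ) := by
      rw [← intervalIntegral.integral_ofReal]
      push_cast
      rfl
    rw [h4, integral_pow]
    push_cast
    simp
    congr 1
    ring
  have hint2 : IntegrableOn (fun z => conj (k z) * z ^ n) (ball (0:ℂ) 1) := by
    have hk2 : IntegrableOn (fun z => conj (k z)) (ball (0:ℂ) 1) := by
      refine Integrable.congr' (f := k) hint ?_ ?_
      · exact (continuous_conj.comp_continuousOn hk.cont).aestronglyMeasurable measurableSet_ball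
      · exact Eventually.of_forall fun z => by simp
    refine Integrable.mono hk2 (hcU.aestronglyMeasurable measurableSet_ball) ?_
    refine (ae_restrict_mem measurableSet_ball).mono fun z hz => ?_
    rw [mem_ball_zero_iff] at hz
    rw [norm_mul, norm_pow]
    exact mul_le_of_le_one_right (norm_nonneg _) (pow_le_one₀ (norm_nonneg _) hz.le)
  have h5 := ball_limit hint2
  have h6 : Tendsto (fun j : ℕ => ∫ z in ball (0:ℂ) (1 - 1 / ((j:ℝ) + 2)), conj (k z) * z ^ n) atTop
      (𝓝 (cm (fun z => conj (k z) * z ^ n) ρ * ((ρ:ℂ) ^ (2 * n))⁻¹ *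
        ((1:ℂ) ^ (2 * n + 2) / (2 * (n + 1))))) := by
    have h7 : Tendsto (fun j : ℕ => (((1 - 1 / ((j:ℝ) + 2) : ℝ)) : ℂ)) atTop (𝓝 1) := by
      have h8 : Tendsto (fun j : ℕ => (1 - 1 / ((j:ℝ) + 2) : ℝ)) atTop (𝓝 (1 - 0)) := by
        apply Tendsto.const_sub
        have := (tendsto_one_div_add_atTop_nhds_zero_nat (𝕜 := ℝ)).comp (tendsto_add_atTop_nat 1)
        refine this.congr fun j => ?_
        simp only [Function.comp]
        push_cast
        ring_nf
      have h9 : Tendsto (fun j : ℕ => (((1 - 1 / ((j:ℝ) + 2) : ℝ)) : ℂ)) atTop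
          (𝓝 ((1 - 0 : ℝ) : ℂ)) := (continuous_ofReal.tendsto _).comp h8
      rw [sub_zero, ofReal_one] at h9
      exact h9
    have h10 := ((h7.pow (2 * n + 2)).div_const (2 * ((n:ℂ) + 1))).const_mul
      (cm (fun z => conj (k z) * z ^ n) ρ * ((ρ:ℂ) ^ (2 * n))⁻¹)
    refine h10.congr fun j => ?_
    have a1 : (0:ℝ) < 1 / ((j:ℝ) + 2) := by positivity
    have a2 : 1 / ((j:ℝ) + 2) < 1 := by
      rw [div_lt_one (by positivity)]; linarith [(Nat.cast_nonneg j : (0:ℝ) ≤ j)]
    rw [h1 _ (by linarith) (by linarith)]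
  have h11 := tendsto_nhds_unique h5 h6
  rw [h11, one_pow]
  field_simp

/-- pairing of `k` at radius `ρ` with a polynomial -/
theorem coeff_id {k k' : ℂ → ℂ} (hk : Hol 1 k k')
    (hint : IntegrableOn k (ball (0:ℂ) 1)) {ρ : ℝ}
    (hρ0 : 0 < ρ) (hρ : ρ < 1) (f : ℂ[X]) :
    ∫ θ in (-π)..π, conj (k (pt ρ θ)) * f.eval (pt 1 θ) =
      2 * ∫ z in ball (0:ℂ) 1, conj (k z) *
        (f.eval (ρ * z) + z * (ρ * f.derivative.eval (ρ * z))) := by
  have hk2 : IntegrableOn (fun z => conj (k z)) (ball (0:ℂ) 1) := by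
    refine Integrable.congr' (f := k) hint ?_ ?_
    · exact (continuous_conj.comp_continuousOn hk.cont).aestronglyMeasurable measurableSet_ball
    · exact Eventually.of_forall fun z => by simp
  have hρabs : |ρ| < 1 := by rwa [abs_of_pos hρ0]
  have hcont : ∀ g : ℂ → ℂ, Continuous g → IntegrableOn (fun z => conj (k z) * g z) (ball (0:ℂ) 1) := by
    intro g hg
    obtain ⟨K, hK⟩ := (isCompact_closedBall (0:ℂ) 1).exists_bound_of_continuousOn hg.continuousOn
    refine (hk2.mul_const (K:ℂ)).mono ?_ ?_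
    · exact ((continuous_conj.comp_continuousOn hk.cont).mul
        hg.continuousOn).aestronglyMeasurable measurableSet_ball
    · refine (ae_restrict_mem measurableSet_ball).mono fun z hz => ?_
      have h1 := hK z (ball_subset_closedBall hz)
      have h2 : 0 ≤ K := le_trans (norm_nonneg _) h1
      rw [norm_mul, norm_mul, Complex.norm_real, Real.norm_of_nonneg h2]
      gcongr
  have hc1 : Continuous (fun θ => conj (k (pt ρ θ))) :=
    continuous_conj.comp (cont_circle hk.cont hρabs)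
  have hpt : Continuous (fun θ : ℝ => pt 1 θ) :=
    continuous_pt.comp (continuous_const.prodMk continuous_id)
  induction f using Polynomial.induction_on' with
  | add p q hp hq =>
    have e1 : ∫ θ in (-π)..π, conj (k (pt ρ θ)) * (p + q).eval (pt 1 θ) =
        (∫ θ in (-π)..π, conj (k (pt ρ θ)) * p.eval (pt 1 θ)) +
        ∫ θ in (-π)..π, conj (k (pt ρ θ)) * q.eval (pt 1 θ) := by
      rw [← intervalIntegral.integral_add]
      · apply intervalIntegral.integral_congr
        intro θ _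
        simp only [eval_add]
        ring
      · exact (hc1.mul (p.continuous.comp hpt)).intervalIntegrable _ _
      · exact (hc1.mul (q.continuous.comp hpt)).intervalIntegrable _ _
    have e2 : ∫ z in ball (0:ℂ) 1, conj (k z) *
        ((p + q).eval (ρ * z) + z * (ρ * (p + q).derivative.eval (ρ * z))) =
        (∫ z in ball (0:ℂ) 1, conj (k z) *
        (p.eval (ρ * z) + z * (ρ * p.derivative.eval (ρ * z)))) +
        ∫ z in ball (0:ℂ) 1, conj (k z) *
        (q.eval (ρ * z) + z * (ρ * q.derivative.eval (ρ * z))) := by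
      rw [← integral_add]
      · congr 1
        funext z
        simp only [eval_add, derivative_add]
        ring
      · apply hcont
        have := p.continuous
        have := p.derivative.continuous
        fun_prop
      · apply hcont
        have := q.continuous
        have := q.derivative.continuous
        fun_prop
    rw [e1, e2, hp, hq]
    ring
  | monomial n c =>
    have h1 := area_monomial hk hint n hρ0 hρ
    have hρ' : (ρ:ℂ) ^ n ≠ 0 := pow_ne_zero _ (by exact_mod_cast hρ0.ne')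
    have e1 : ∫ θ in (-π)..π, conj (k (pt ρ θ)) * (monomial n c).eval (pt 1 θ) =
        c * ((ρ:ℂ) ^ n)⁻¹ * cm (fun z => conj (k z) * z ^ n) ρ := by
      unfold cm
      rw [← intervalIntegral.integral_const_mul]
      apply intervalIntegral.integral_congr
      intro θ _
      simp only [eval_monomial]
      have : pt ρ θ ^ n = (ρ:ℂ) ^ n * pt 1 θ ^ n := by
        rw [← mul_pow]; congr 1; unfold pt; push_cast; ring
      rw [this]
      field_simp
    have e2 : ∫ z in ball (0:ℂ) 1, conj (k z) *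
        ((monomial n c).eval (ρ * z) + z * (ρ * (monomial n c).derivative.eval (ρ * z))) =
        c * (ρ:ℂ) ^ n * (n + 1) * ∫ z in ball (0:ℂ) 1, conj (k z) * z ^ n := by
      rw [← integral_const_mul]
      congr 1
      funext z
      rw [derivative_monomial, eval_monomial, eval_monomial]
      rcases Nat.eq_zero_or_pos n with h0 | h0
      · simp [h0]; ring
      · have h4 : (z * (ρ * (c * n * (ρ * z) ^ (n - 1)))) = c * n * (ρ * z) ^ n := by
          have : (ρ * z) ^ n = (ρ * z) * ((ρ:ℂ) * z) ^ (n - 1) := by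
            rw [← pow_succ', Nat.sub_add_cancel h0]
          rw [this]; ring
        rw [h4, mul_pow]
        ring
    rw [e1, e2, h1]
    have : (ρ:ℂ) ^ (2 * n) = (ρ:ℂ) ^ n * (ρ:ℂ) ^ n := by rw [two_mul, pow_add]
    rw [this]
    field_simp

end Pool.Agent.H959.Ryab
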