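import Pool.Agent.H959.Ryab.Dual

open Complex MeasureTheory Set Filter Topology Metric Polynomial
open scoped Real ComplexConjugate

namespace Pool.Agent.H959.Ryab

lemma cmre_pow {ϱ : ℝ} {n : ℂ → ℝ} (hn : ContinuousOn (fun z => ((n z : ℝ) : ℂ)) (ball (0:ℂ) ϱ))
    {r : ℝ} (hr : |r| < ϱ) :
    (cm (fun z => ((n z : ℝ) : ℂ)) r).re = ∫ θ in (-π)..π, n (pt r θ) := by
  rw [cm_re hn hr]
  simp

/-- pairing of `conj k(ρ·)` against polynomials with real constant term -/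
lemma pair_poly {β b : ℝ} (hβ : -(1 / 2) < β) (hb : 1 < b) {k F : ℂ → ℂ}
    (hk : DifferentiableOn ℂ k (ball (0:ℂ) 1)) (hF : DifferentiableOn ℂ F (ball (0:ℂ) 1))
    (hkint : IntegrableOn k (ball (0:ℂ) 1)) (c : ℂ)
    (hvar : ∀ h : ℂ → ℂ, Differentiable ℂ h →
      ∫ z in ball (0:ℂ) 1, conj (k z) * h z = c * ∫ z in ball (0:ℂ) 1, H0 β F z * h z)
    (hH0 : ∀ h : ℂ → ℂ, Differentiable ℂ h → IntegrableOn (fun z => H0 β F z * h z) (ball (0:ℂ) 1))
    {A : ℝ} (hA : ∀ R : ℝ, 0 < R → R < 1 →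
      (cm (fun z => ((nn 1 F z ^ ((β + 1 / 2) * b) : ℝ) : ℂ)) R).re ≤ A) :
    ∃ D1 D2 : ℝ, 0 ≤ D1 ∧ 0 ≤ D2 ∧ ∀ (ρ : ℝ) (f : ℂ[X]), 0 < ρ → ρ < 1 → (f.eval 0).im = 0 →
      ‖∫ θ in (-π)..π, conj (k (pt ρ θ)) * f.eval (pt 1 θ)‖ ≤
        D1 + D2 * ∫ θ in (-π)..π, ((f.eval (pt 1 θ)).re ^ 2 + 1) ^ (b / (b - 1) / 2) := by
  obtain ⟨C, hC0, hC⟩ := pair_full hβ hb
  have hb1 : 0 < b - 1 := by linarith
  have hb' : 1 < b / (b - 1) := by rw [lt_div_iff₀ hb1]; linarith
  obtain ⟨CR, hCR0, hCR⟩ := riesz hb'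
  have hA0 : 0 ≤ A := by
    refine le_trans ?_ (hA (1 / 2) (by norm_num) (by norm_num))
    refine cm_re_nonneg (W2_pow (Hol.of_differentiableOn hF) zero_lt_one _).fst.cont
      (by norm_num [abs_of_pos]) (fun z _ => ?_)
    rw [ofReal_re]
    exact Real.rpow_nonneg (nn_pos zero_lt_one F z).le _
  refine ⟨2 * ‖c‖ * C * A, 2 * ‖c‖ * C * CR, by positivity, by positivity, ?_⟩
  intro ρ f hρ0 hρ hf0
  have hHk := Hol.of_differentiableOn hk
  have hHF := Hol.of_differentiableOn hF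
  rw [coeff_id hHk hkint hρ0 hρ f]
  set g : ℂ → ℂ := fun z => f.eval (ρ * z) with hg
  set g' : ℂ → ℂ := fun z => ρ * f.derivative.eval (ρ * z) with hg'
  have hgd : ∀ z, HasDerivAt g (g' z) z := by
    intro z
    have h1 : HasDerivAt (fun z : ℂ => (ρ:ℂ) * z) (ρ:ℂ) z := by
      simpa using (hasDerivAt_id z).const_mul (ρ:ℂ)
    have h2 := (f.hasDerivAt ((ρ:ℂ) * z)).comp z h1
    refine h2.congr_deriv ?_
    rw [hg']; ring
  have hgdiff : Differentiable ℂ g := fun z => (hgd z).differentiableAt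
  have hg'diff : Differentiable ℂ g' := by
    intro z
    have h1 : HasDerivAt (fun z : ℂ => (ρ:ℂ) * z) (ρ:ℂ) z := by
      simpa using (hasDerivAt_id z).const_mul (ρ:ℂ)
    exact (((f.derivative.hasDerivAt ((ρ:ℂ) * z)).comp z h1).const_mul (ρ:ℂ)).differentiableAt
  have hderiv : deriv g = g' := funext fun z => (hgd z).deriv
  have hHg : Hol 1 g g' := by
    have := Hol.of_differentiableOn (ϱ := 1) hgdiff.differentiableOn
    rwa [hderiv] at this
  have hh : Differentiable ℂ (fun z => g z + z * g' z) :=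
    hgdiff.add (differentiable_id.mul hg'diff)
  have e1 : ∫ z in ball (0:ℂ) 1, conj (k z) *
      (f.eval (ρ * z) + z * (ρ * f.derivative.eval (ρ * z))) =
      c * ∫ z in ball (0:ℂ) 1, H0 β F z * (g z + z * g' z) := hvar _ hh
  rw [e1, norm_mul, norm_mul]
  have hfd : DifferentiableOn ℂ (fun z => f.eval z) (ball (0:ℂ) 2) :=
    f.differentiable.differentiableOn
  have hHf := Hol.of_differentiableOn hfd
  set τ := b / (b - 1) / 2 with hτ
  have hτ0 : 0 < τ := by positivity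
  -- bound on g
  have hB : ∀ R : ℝ, 0 < R → R < 1 → (cm (fun z => ((nn 1 g z ^ τ : ℝ) : ℂ)) R).re ≤
      CR * ∫ θ in (-π)..π, ((f.eval (pt 1 θ)).re ^ 2 + 1) ^ τ := by
    intro R hR0 hR
    have e2 : cm (fun z => ((nn 1 g z ^ τ : ℝ) : ℂ)) R =
        cm (fun z => ((nn 1 (fun z => f.eval z) z ^ τ : ℝ) : ℂ)) (ρ * R) := by
      unfold cm
      congr 1
      funext θ
      have : (ρ:ℂ) * pt R θ = pt (ρ * R) θ := by unfold pt; push_cast; ring
      simp only [nn, hg, this]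
    rw [e2]
    have h1 : (cm (fun z => ((nn 1 (fun z => f.eval z) z ^ τ : ℝ) : ℂ)) (ρ * R)).re ≤
        (cm (fun z => ((nn 1 (fun z => f.eval z) z ^ τ : ℝ) : ℂ)) 1).re := by
      apply cm_mono (W2_pow hHf zero_lt_one τ) _ (by positivity) (by nlinarith) (by norm_num)
      intro z _
      exact E12_re_nonneg zero_lt_one hτ0.le _ _
    refine h1.trans ?_
    have h2 := hCR 2 (fun z => f.eval z) _ 1 hHf hf0 zero_le_one (by norm_num)
    refine h2.trans (le_of_eq ?_)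
    congr 1
    have h3 := cmre_pow (ϱ := 2) (n := fun z => ww (fun z => f.eval z) z ^ τ)
      (((W2_ww hHf).rpow (ww_pos _) τ).fst.cont) (r := 1) (by norm_num)
    rw [h3]
    rfl
  have h5 := hC A (CR * ∫ θ in (-π)..π, ((f.eval (pt 1 θ)).re ^ 2 + 1) ^ τ) F (deriv F) g g'
    hHF hHg hA hB (hH0 _ hh)
  have h6 : ‖(2:ℂ)‖ = 2 := by norm_num
  rw [h6]
  calc 2 * (‖c‖ * ‖∫ z in ball (0:ℂ) 1, H0 β F z * (g z + z * g' z)‖)
      ≤ 2 * (‖c‖ * (C * (A + CR * ∫ θ in (-π)..π, ((f.eval (pt 1 θ)).re ^ 2 + 1) ^ τ))) := by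
        gcongr
    _ = _ := by ring

/-- pairing against real parts of polynomials -/
lemma pair_real {b : ℝ} (hb : 1 < b) {k : ℂ → ℂ} (hk : DifferentiableOn ℂ k (ball (0:ℂ) 1))
    {D1 D2 : ℝ} (hD1 : 0 ≤ D1) (hD2 : 0 ≤ D2)
    (hD : ∀ (ρ : ℝ) (f : ℂ[X]), 0 < ρ → ρ < 1 → (f.eval 0).im = 0 →
      ‖∫ θ in (-π)..π, conj (k (pt ρ θ)) * f.eval (pt 1 θ)‖ ≤
        D1 + D2 * ∫ θ in (-π)..π, ((f.eval (pt 1 θ)).re ^ 2 + 1) ^ (b / (b - 1) / 2))
    (ρ : ℝ) (f : ℂ[X]) (hρ0 : 0 < ρ) (hρ : ρ < 1) (hf0 : (f.eval 0).im = 0) :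
    ‖∫ θ in (-π)..π, conj (k (pt ρ θ)) * (((f.eval (pt 1 θ)).re : ℝ) : ℂ)‖ ≤
      D1 + (D2 + ‖k 0‖) * ∫ θ in (-π)..π,
        ((f.eval (pt 1 θ)).re ^ 2 + 1) ^ (b / (b - 1) / 2) := by
  have hb1 : 0 < b - 1 := by linarith
  have hb' : 1 < b / (b - 1) := by rw [lt_div_iff₀ hb1]; linarith
  have hρabs : |ρ| < 1 := by rwa [abs_of_pos hρ0]
  have hpt : Continuous (fun θ : ℝ => pt 1 θ) :=
    continuous_pt.comp (continuous_const.prodMk continuous_id)
  have hfc : Continuous (fun θ : ℝ => f.eval (pt 1 θ)) := f.continuous.comp hpt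
  have hkc : Continuous (fun θ : ℝ => k (pt ρ θ)) := cont_circle hk.continuousOn hρabs
  have hkcc : Continuous (fun θ : ℝ => conj (k (pt ρ θ))) := continuous_conj.comp hkc
  set Y := ∫ θ in (-π)..π, ((f.eval (pt 1 θ)).re ^ 2 + 1) ^ (b / (b - 1) / 2) with hY
  -- mean values
  have hm1 : ∫ θ in (-π)..π, k (pt ρ θ) * f.eval (pt 1 θ) = (2 * π : ℝ) * (k 0 * f.eval 0) := by
    have hd : DifferentiableOn ℂ (fun z => k (ρ * z) * f.eval z) (ball (0:ℂ) (1 / ρ)) := by
      refine DifferentiableOn.mul ?_ f.differentiable.differentiableOn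
      refine hk.comp (by fun_prop) ?_
      intro z hz
      rw [mem_ball_zero_iff] at hz ⊢
      rw [norm_mul, Complex.norm_real, Real.norm_of_nonneg hρ0.le]
      rw [lt_div_iff₀ hρ0] at hz
      linarith
    have h1 := mean_value hd (R := 1) one_pos (by rw [lt_div_iff₀ hρ0]; linarith)
    rw [mul_zero] at h1
    rw [← h1]
    unfold cm
    congr 1
    funext θ
    have : (ρ:ℂ) * pt 1 θ = pt ρ θ := by unfold pt; push_cast; ring
    change _ = k ((ρ:ℂ) * pt 1 θ) * f.eval (pt 1 θ)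
    rw [this]
  have hm2 : ∫ θ in (-π)..π, (f.eval (pt 1 θ)).re = (2 * π) * (f.eval 0).re := by
    have hd : DifferentiableOn ℂ (fun z => f.eval z) (ball (0:ℂ) 2) :=
      f.differentiable.differentiableOn
    have h1 := mean_value hd (R := 1) one_pos (by norm_num)
    have h2 := cm_re (ϱ := 2) (U := fun z => f.eval z) hd.continuousOn (r := 1) (by norm_num)
    rw [h1, re_ofReal_mul] at h2
    exact h2.symm
  have hYabs : |(2 * π) * (f.eval 0).re| ≤ Y := by
    rw [← hm2, ← Real.norm_eq_abs]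
    apply intervalIntegral.norm_integral_le_of_norm_le (by linarith [Real.pi_pos])
    · refine Eventually.of_forall fun θ _ => ?_
      set u := (f.eval (pt 1 θ)).re
      rw [Real.norm_eq_abs]
      have h1 : |u| ≤ (u ^ 2 + 1) ^ (1 / 2 : ℝ) := by
        rw [← Real.sqrt_eq_rpow]
        apply Real.le_sqrt_of_sq_le
        rw [sq_abs]; linarith
      refine h1.trans ?_
      apply Real.rpow_le_rpow_of_exponent_le
      · nlinarith [sq_nonneg u]
      · linarith
    · apply Continuous.intervalIntegrable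
      apply Continuous.rpow_const
      · exact ((Complex.continuous_re.comp hfc).pow 2).add continuous_const
      · intro θ; left; positivity
  have e1 : ∫ θ in (-π)..π, conj (k (pt ρ θ)) * (((f.eval (pt 1 θ)).re : ℝ) : ℂ) =
      1 / 2 * ((∫ θ in (-π)..π, conj (k (pt ρ θ)) * f.eval (pt 1 θ)) +
        conj (∫ θ in (-π)..π, k (pt ρ θ) * f.eval (pt 1 θ))) := by
    have e2 : conj (∫ θ in (-π)..π, k (pt ρ θ) * f.eval (pt 1 θ)) =
        ∫ θ in (-π)..π, conj (k (pt ρ θ) * f.eval (pt 1 θ)) := by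
      have := (Complex.conjCLE : ℂ →L[ℝ] ℂ).intervalIntegral_comp_comm
        ((hkc.mul hfc).intervalIntegrable (μ := volume) (-π) π)
      simpa using this.symm
    rw [e2, ← intervalIntegral.integral_add, ← intervalIntegral.integral_const_mul]
    · apply intervalIntegral.integral_congr
      intro θ _
      simp only [map_mul]
      rw [Complex.re_eq_add_conj]
      ring
    · exact (hkcc.mul hfc).intervalIntegrable _ _
    · exact (continuous_conj.comp (hkc.mul hfc)).intervalIntegrable _ _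
  rw [e1, norm_mul]
  have h1 := hD ρ f hρ0 hρ hf0
  have h2 : ‖conj (∫ θ in (-π)..π, k (pt ρ θ) * f.eval (pt 1 θ))‖ ≤ ‖k 0‖ * Y := by
    rw [RCLike.norm_conj, hm1]
    have h3 : ‖f.eval 0‖ = |(f.eval 0).re| := by
      have : f.eval 0 = (((f.eval 0).re : ℝ) : ℂ) := by
        apply Complex.ext
        · simp
        · rw [hf0]; simp
      rw [this, Complex.norm_real, Real.norm_eq_abs]
      simp
    rw [norm_mul, norm_mul, Complex.norm_real, Real.norm_eq_abs, h3]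
    calc |2 * π| * (‖k 0‖ * |(f.eval 0).re|) = ‖k 0‖ * |(2 * π) * (f.eval 0).re| := by
          rw [abs_mul (2 * π) (f.eval 0).re]; ring
      _ ≤ ‖k 0‖ * Y := by gcongr
  have hY0 : 0 ≤ Y := le_trans (abs_nonneg _) hYabs
  have h3 : ‖(1 / 2 : ℂ)‖ = 1 / 2 := by norm_num
  rw [h3]
  have h4 := norm_add_le (∫ θ in (-π)..π, conj (k (pt ρ θ)) * f.eval (pt 1 θ))
    (conj (∫ θ in (-π)..π, k (pt ρ θ) * f.eval (pt 1 θ)))
  have h5 : 0 ≤ D2 * Y := by positivity
  have h6 : 0 ≤ ‖k 0‖ * Y := by positivity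
  have h7 : D1 + (D2 + ‖k 0‖) * Y = D1 + D2 * Y + ‖k 0‖ * Y := by ring
  rw [h7]
  linarith

/-- pairing against continuous real functions -/
lemma pair_cont {τ : ℝ} (hτ : 0 < τ) {k : ℂ → ℂ} (hk : DifferentiableOn ℂ k (ball (0:ℂ) 1))
    {D1 D2 : ℝ} (hD2 : 0 ≤ D2) {ρ : ℝ} (hρ0 : 0 < ρ) (hρ : ρ < 1)
    (hD : ∀ f : ℂ[X], (f.eval 0).im = 0 →
      ‖∫ θ in (-π)..π, conj (k (pt ρ θ)) * (((f.eval (pt 1 θ)).re : ℝ) : ℂ)‖ ≤
        D1 + D2 * ∫ θ in (-π)..π, ((f.eval (pt 1 θ)).re ^ 2 + 1) ^ τ)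
    (ψ : ℝ → ℝ) (hψ : Continuous ψ) (hper : Function.Periodic ψ (2 * π)) :
    ‖∫ θ in (-π)..π, conj (k (pt ρ θ)) * ((ψ θ : ℝ) : ℂ)‖ ≤
      (D1 + 1) + 3 ^ τ * D2 * ∫ θ in (-π)..π, (ψ θ ^ 2 + 1) ^ τ := by
  have hρabs : |ρ| < 1 := by rwa [abs_of_pos hρ0]
  have hpt : Continuous (fun θ : ℝ => pt 1 θ) :=
    continuous_pt.comp (continuous_const.prodMk continuous_id)
  have hkc : Continuous (fun θ : ℝ => k (pt ρ θ)) := cont_circle hk.continuousOn hρabs
  have hkcc : Continuous (fun θ : ℝ => conj (k (pt ρ θ))) := continuous_conj.comp hkc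
  obtain ⟨K, hK⟩ := bound_ball hk.continuousOn hρ
  have hK0 : 0 ≤ K := le_trans (norm_nonneg _) (hK 0 (by simpa using hρ0.le))
  have hpi := Real.pi_pos
  set η := 1 / (1 + 2 * π * K) with hη
  have hη0 : 0 < η := by positivity
  have hη1 : η ≤ 1 := by
    rw [hη, div_le_one (by positivity)]
    have : 0 ≤ 2 * π * K := by positivity
    linarith
  obtain ⟨f, hf0, hf⟩ := density ψ hψ hper hη0
  have hfc : Continuous (fun θ : ℝ => (f.eval (pt 1 θ)).re) :=
    Complex.continuous_re.comp (f.continuous.comp hpt)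
  have e1 : ∫ θ in (-π)..π, conj (k (pt ρ θ)) * ((ψ θ : ℝ) : ℂ) =
      (∫ θ in (-π)..π, conj (k (pt ρ θ)) * ((ψ θ - (f.eval (pt 1 θ)).re : ℝ) : ℂ)) +
      ∫ θ in (-π)..π, conj (k (pt ρ θ)) * (((f.eval (pt 1 θ)).re : ℝ) : ℂ) := by
    rw [← intervalIntegral.integral_add]
    · apply intervalIntegral.integral_congr
      intro θ _
      simp only
      push_cast
      ring
    · exact (hkcc.mul (continuous_ofReal.comp (hψ.sub hfc))).intervalIntegrable _ _
    · exact (hkcc.mul (continuous_ofReal.comp hfc)).intervalIntegrable _ _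
  have h1 : ‖∫ θ in (-π)..π, conj (k (pt ρ θ)) * ((ψ θ - (f.eval (pt 1 θ)).re : ℝ) : ℂ)‖ ≤ 1 := by
    have h2 := intervalIntegral.norm_integral_le_of_norm_le_const (a := -π) (b := π)
      (f := fun θ => conj (k (pt ρ θ)) * ((ψ θ - (f.eval (pt 1 θ)).re : ℝ) : ℂ)) (C := K * η) ?_
    · refine h2.trans ?_
      rw [show π - -π = 2 * π by ring, abs_of_pos (by positivity), hη]
      rw [show K * (1 / (1 + 2 * π * K)) * (2 * π) = (2 * π * K) / (1 + 2 * π * K) by ring]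
      rw [div_le_one (by positivity)]
      linarith
    · intro θ _
      rw [norm_mul, RCLike.norm_conj, Complex.norm_real, Real.norm_eq_abs]
      have h3 : ‖k (pt ρ θ)‖ ≤ K := hK _ (by rw [norm_pt, abs_of_pos hρ0])
      exact mul_le_mul h3 (hf θ) (abs_nonneg _) hK0
  have h2 : ∫ θ in (-π)..π, ((f.eval (pt 1 θ)).re ^ 2 + 1) ^ τ ≤
      3 ^ τ * ∫ θ in (-π)..π, (ψ θ ^ 2 + 1) ^ τ := by
    rw [← intervalIntegral.integral_const_mul]
    apply intervalIntegral.integral_mono_on (by linarith)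
    · apply Continuous.intervalIntegrable
      exact ((hfc.pow 2).add continuous_const).rpow_const (fun θ => Or.inr hτ.le)
    · apply Continuous.intervalIntegrable
      exact continuous_const.mul (((hψ.pow 2).add continuous_const).rpow_const
        (fun θ => Or.inr hτ.le))
    · intro θ _
      rw [← Real.mul_rpow (by norm_num) (by positivity)]
      apply Real.rpow_le_rpow (by positivity) _ hτ.le
      have h3 := hf θ
      set u := (f.eval (pt 1 θ)).re
      have h4 : |ψ θ - u| ≤ 1 := h3.trans hη1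
      rw [abs_le] at h4
      have h5 : (ψ θ - u) ^ 2 ≤ 1 := by nlinarith [h4.1, h4.2]
      nlinarith [sq_nonneg (ψ θ + (ψ θ - u))]
  rw [e1]
  have h3 := hD f hf0
  have h4 : D2 * ∫ θ in (-π)..π, ((f.eval (pt 1 θ)).re ^ 2 + 1) ^ τ ≤
      D2 * (3 ^ τ * ∫ θ in (-π)..π, (ψ θ ^ 2 + 1) ^ τ) := by gcongr
  refine (norm_add_le _ _).trans ?_
  have h5 : 3 ^ τ * D2 * ∫ θ in (-π)..π, (ψ θ ^ 2 + 1) ^ τ =
    D2 * (3 ^ τ * ∫ θ in (-π)..π, (ψ θ ^ 2 + 1) ^ τ) := by ring
  rw [h5]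
  linarith

/-- testing against `λ |u|^{b-2} u` -/
lemma test_bound {b : ℝ} (hb : 1 < b) {D1 D2 : ℝ} (hD2 : 0 ≤ D2) :
    ∃ M : ℝ, ∀ u : ℝ → ℝ, Continuous u → Function.Periodic u (2 * π) →
      (∀ ψ : ℝ → ℝ, Continuous ψ → Function.Periodic ψ (2 * π) →
        |∫ θ in (-π)..π, u θ * ψ θ| ≤
          D1 + D2 * ∫ θ in (-π)..π, (ψ θ ^ 2 + 1) ^ (b / (b - 1) / 2)) →
      ∫ θ in (-π)..π, |u θ| ^ b ≤ M := by
  have hb1 : 0 < b - 1 := by linarith
  have hb0 : 0 < b := by linarith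
  have hpi := Real.pi_pos
  set q := b / (b - 1) with hq
  have hq1 : 1 < q := by rw [hq, lt_div_iff₀ hb1]; linarith
  have hqb : (b - 1) * q = b := by rw [hq]; field_simp
  set D := 2 ^ (q / 2) * D2 with hD
  have hD0 : 0 ≤ D := by positivity
  set l := (1 / (2 * D + 1)) ^ (1 / (q - 1)) with hl
  have hl0 : 0 < l := by positivity
  have hlD : D * l ^ q ≤ l / 2 := by
    have h1 : l ^ (q - 1) = 1 / (2 * D + 1) := by
      rw [hl, ← Real.rpow_mul (by positivity), one_div_mul_cancel (by linarith), Real.rpow_one]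
    have h2 : l ^ q = l ^ (q - 1) * l := by
      rw [← Real.rpow_add_one hl0.ne']; congr 1; ring
    rw [h2, h1]
    have h3 : D * (1 / (2 * D + 1) * l) = (D / (2 * D + 1)) * l := by ring
    rw [h3]
    have h4 : D / (2 * D + 1) ≤ 1 / 2 := by
      rw [div_le_div_iff₀ (by positivity) (by norm_num)]; linarith
    nlinarith
  refine ⟨2 / l * (D1 + D * (2 * π)), ?_⟩
  intro u hu hper hψ
  -- the test function
  have hdc : Continuous (fun x : ℝ => |x| ^ (b - 2) * x) := by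
    have h1 : Continuous (deriv (fun x : ℝ => ‖x‖ ^ b)) :=
      (contDiff_norm_rpow (E := ℝ) hb).continuous_deriv le_rfl
    have h2 : deriv (fun x : ℝ => ‖x‖ ^ b) = fun x => b * (|x| ^ (b - 2) * x) := by
      funext x
      rw [(hasDerivAt_norm_rpow x hb).deriv, Real.norm_eq_abs]
      ring
    rw [h2] at h1
    have h3 : (fun x : ℝ => |x| ^ (b - 2) * x) = fun x => b⁻¹ * (b * (|x| ^ (b - 2) * x)) := by
      funext x
      field_simp
    rw [h3]
    exact continuous_const.mul h1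
  have h1 := hψ (fun θ => l * (|u θ| ^ (b - 2) * u θ)) (continuous_const.mul (hdc.comp hu))
    (fun θ => by simp only [hper θ])
  have habs : ∀ x : ℝ, |x| ^ (b - 2) * |x| = |x| ^ (b - 1) := by
    intro x
    rw [← Real.rpow_add_one' (abs_nonneg _) (by linarith)]
    congr 1; ring
  have e1 : ∫ θ in (-π)..π, u θ * (l * (|u θ| ^ (b - 2) * u θ)) =
      l * ∫ θ in (-π)..π, |u θ| ^ b := by
    rw [← intervalIntegral.integral_const_mul]
    apply intervalIntegral.integral_congr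
    intro θ _
    simp only
    have h2 : |u θ| ^ (b - 2) * (u θ * u θ) = |u θ| ^ b := by
      rw [← abs_mul_abs_self (u θ), ← mul_assoc, habs,
        ← Real.rpow_add_one' (abs_nonneg _) (by linarith)]
      congr 1; ring
    rw [← h2]; ring
  have hI0 : 0 ≤ ∫ θ in (-π)..π, |u θ| ^ b := by
    apply intervalIntegral.integral_nonneg (by linarith)
    intro θ _; positivity
  have hci : Continuous (fun θ => |u θ| ^ b) :=
    (hu.abs).rpow_const (fun θ => Or.inr hb0.le)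
  have h2 : ∫ θ in (-π)..π, ((l * (|u θ| ^ (b - 2) * u θ)) ^ 2 + 1) ^ (q / 2) ≤
      2 ^ (q / 2) * (l ^ q * (∫ θ in (-π)..π, |u θ| ^ b) + 2 * π) := by
    have h3 : ∫ θ in (-π)..π, ((l * (|u θ| ^ (b - 2) * u θ)) ^ 2 + 1) ^ (q / 2) ≤
        ∫ θ in (-π)..π, 2 ^ (q / 2) * (l ^ q * |u θ| ^ b + 1) := by
      apply intervalIntegral.integral_mono_on (by linarith)
      · apply Continuous.intervalIntegrable
        exact (((continuous_const.mul (hdc.comp hu)).pow 2).add continuous_const).rpow_const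
          (fun θ => Or.inr (by positivity))
      · apply Continuous.intervalIntegrable
        fun_prop
      · intro θ _
        have h4 := rpow_add_one_le (x := |l * (|u θ| ^ (b - 2) * u θ)|) (s := q) (abs_nonneg _)
          (by linarith)
        rw [sq_abs] at h4
        refine h4.trans (le_of_eq ?_)
        congr 2
        rw [abs_mul, abs_mul, abs_of_pos hl0, abs_of_nonneg (show 0 ≤ |u θ| ^ (b - 2) by positivity),
          habs, Real.mul_rpow hl0.le (by positivity), ← Real.rpow_mul (abs_nonneg _), hqb]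
    refine h3.trans (le_of_eq ?_)
    rw [intervalIntegral.integral_const_mul, intervalIntegral.integral_add,
      intervalIntegral.integral_const_mul, intervalIntegral.integral_const]
    · simp; ring_nf; tauto
    · exact (continuous_const.mul hci).intervalIntegrable _ _
    · simp
  rw [e1] at h1
  set I := ∫ θ in (-π)..π, |u θ| ^ b with hI
  have h5 : l * I ≤ D1 + D2 * (2 ^ (q / 2) * (l ^ q * I + 2 * π)) := by
    refine (le_abs_self _).trans (h1.trans ?_)
    gcongr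
  have h6 : D2 * (2 ^ (q / 2) * (l ^ q * I + 2 * π)) = D * l ^ q * I + D * (2 * π) := by
    rw [hD]; ring
  rw [h6] at h5
  have h7 : D * l ^ q * I ≤ l / 2 * I := by gcongr
  have h8 : l / 2 * I ≤ D1 + D * (2 * π) := by linarith
  calc I = 2 / l * (l / 2 * I) := by field_simp
    _ ≤ 2 / l * (D1 + D * (2 * π)) := by gcongr

end Pool.Agent.H959.Ryab
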