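import Pool.Agent.H959.Ryab.Variation

open Complex MeasureTheory Set Filter Topology Metric Polynomial
open scoped Real ComplexConjugate

namespace Pool.Agent.H959.Ryab

/-- mean value property -/
lemma mean_value {ϱ : ℝ} {U : ℂ → ℂ} (hU : DifferentiableOn ℂ U (ball (0:ℂ) ϱ)) {R : ℝ}
    (hR0 : 0 < R) (hR : R < ϱ) : cm U R = (2 * π : ℝ) * U 0 := by
  have h := (Hol.of_differentiableOn hU).w2.fst
  have key := intervalIntegral.integral_eq_sub_of_hasDerivAt_of_le (a := 0) (b := R)
    (f := cm U) (f' := fun _ => 0) hR0.le (cm_continuousOn h.cont hR) ?_ (by simp)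
  · rw [intervalIntegral.integral_zero, cm_zero] at key
    exact sub_eq_zero.mp key.symm
  · intro r hr
    have := cm_deriv_right h hr.1 (hr.2.trans hR)
    refine this.congr_deriv ?_
    unfold cm
    simp

lemma rpow_add_one_le {x s : ℝ} (hx : 0 ≤ x) (hs : 0 ≤ s) :
    (x ^ 2 + 1) ^ (s / 2) ≤ 2 ^ (s / 2) * (x ^ s + 1) := by
  have h := add_rpow_le (p := s / 2) (a := x ^ 2) (b := 1) (by positivity) (by positivity)
    zero_le_one
  have e : (x ^ 2) ^ (s / 2) = x ^ s := by
    rw [← Real.rpow_natCast, ← Real.rpow_mul hx]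
    congr 1
    push_cast
    ring
  rwa [e, Real.one_rpow] at h

/-- Fourier density: real parts of polynomials are dense on the circle. -/
lemma density (ψ : ℝ → ℝ) (hψ : Continuous ψ) (hper : Function.Periodic ψ (2 * π)) {η : ℝ}
    (hη : 0 < η) : ∃ f : ℂ[X], (f.eval 0).im = 0 ∧
      ∀ θ, |ψ θ - (f.eval (pt 1 θ)).re| ≤ η := by
  have : Fact (0 < 2 * π) := ⟨by positivity⟩
  have hper' : Function.Periodic (fun θ => (ψ θ : ℂ)) (2 * π) := fun θ => by
    simp only [hper θ]
  let Ψ : C(AddCircle (2 * π), ℂ) := ⟨hper'.lift, by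
    apply continuous_coinduced_dom.mpr
    exact continuous_ofReal.comp hψ⟩
  have hΨ : ∀ θ : ℝ, Ψ (θ : AddCircle (2 * π)) = (ψ θ : ℂ) := fun θ => hper'.lift_coe θ
  -- approximation by trigonometric polynomials
  have hdense : Ψ ∈ closure ((Submodule.span ℂ (range (@fourier (2 * π)))) :
      Set C(AddCircle (2 * π), ℂ)) := by
    have h1 := span_fourier_closure_eq_top (T := 2 * π)
    have h2 : Ψ ∈ (Submodule.span ℂ (range (@fourier (2 * π)))).topologicalClosure := by
      rw [h1]; trivial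
    exact h2
  obtain ⟨T, hT, hTd⟩ := Metric.mem_closure_iff.mp hdense η hη
  -- structure of trigonometric polynomials
  have hstr : ∀ S : C(AddCircle (2 * π), ℂ), S ∈ Submodule.span ℂ (range (@fourier (2 * π))) →
      ∃ f1 f2 : ℂ[X], ∀ θ : ℝ, S (θ : AddCircle (2 * π)) =
        f1.eval (pt 1 θ) + conj (f2.eval (pt 1 θ)) := by
    intro S hS
    induction hS using Submodule.span_induction with
    | mem S hS =>
      obtain ⟨n, rfl⟩ := hS
      have hfour : ∀ θ : ℝ, fourier n (θ : AddCircle (2 * π)) = cexp (θ * I) ^ n := by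
        intro θ
        rw [fourier_coe_apply, ← Complex.exp_int_mul]
        congr 1
        have : (π : ℂ) ≠ 0 := by exact_mod_cast Real.pi_ne_zero
        push_cast
        field_simp
      rcases Int.eq_nat_or_neg n with ⟨m, rfl | rfl⟩
      · refine ⟨X ^ m, 0, fun θ => ?_⟩
        rw [hfour]
        simp [pt]
      · refine ⟨0, X ^ m, fun θ => ?_⟩
        rw [hfour]
        simp only [eval_zero, zero_add, eval_pow, eval_X, zpow_neg, zpow_natCast, pt, ofReal_one,
          one_mul, map_pow]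
        rw [← inv_pow]
        congr 1
        rw [← Complex.exp_conj, ← Complex.exp_neg]
        simp
    | zero => exact ⟨0, 0, fun θ => by simp⟩
    | add S1 S2 _ _ h1 h2 =>
      obtain ⟨f1, f2, h⟩ := h1
      obtain ⟨g1, g2, h'⟩ := h2
      refine ⟨f1 + g1, f2 + g2, fun θ => ?_⟩
      rw [ContinuousMap.add_apply, h, h']
      simp only [eval_add, map_add]
      ring
    | smul c S1 _ h1 =>
      obtain ⟨f1, f2, h⟩ := h1
      refine ⟨C c * f1, C (conj c) * f2, fun θ => ?_⟩
      rw [ContinuousMap.smul_apply, h]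
      simp only [eval_mul, eval_C, map_mul, conj_conj, smul_eq_mul]
      ring
  obtain ⟨f1, f2, hf⟩ := hstr T hT
  set f : ℂ[X] := f1 + f2 - C (I * (((f1 + f2).eval 0).im : ℂ)) with hfdef
  refine ⟨f, ?_, fun θ => ?_⟩
  · rw [hfdef]
    simp only [eval_sub, eval_C, sub_im]
    simp
  · have h1 : (f.eval (pt 1 θ)).re = (T (θ : AddCircle (2 * π))).re := by
      rw [hf θ, hfdef]
      simp only [eval_sub, eval_add, eval_C, sub_re, add_re, conj_re]
      simp
    have h2 : ‖Ψ (θ : AddCircle (2 * π)) - T (θ : AddCircle (2 * π))‖ ≤ η := by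
      rw [← dist_eq_norm]
      exact (ContinuousMap.dist_apply_le_dist _).trans hTd.le
    rw [h1, ← ofReal_re (ψ θ), ← hΨ θ, ← sub_re]
    exact (Complex.abs_re_le_norm _).trans h2

end Pool.Agent.H959.Ryab
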