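import Pool.Agent.H959.Ryab.Core

open Complex MeasureTheory Set Filter Topology Metric Polynomial
open scoped Real ComplexConjugate

namespace Pool.Agent.H959.Ryab

theorem core {p b : ℝ} (hp : 1 < p) (hb : 1 < b) {k F : ℂ → ℂ}
    (hk : DifferentiableOn ℂ k (ball (0:ℂ) 1)) (hF : DifferentiableOn ℂ F (ball (0:ℂ) 1))
    (hkint : IntegrableOn k (ball (0:ℂ) 1)) (c : ℂ)
    (hvar : ∀ h : ℂ → ℂ, Differentiable ℂ h →
      ∫ z in ball (0:ℂ) 1, conj (k z) * h z = c * ∫ z in ball (0:ℂ) 1, H0 ((p - 2) / 2) F z * h z)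
    (hH0 : ∀ h : ℂ → ℂ, Differentiable ℂ h →
      IntegrableOn (fun z => H0 ((p - 2) / 2) F z * h z) (ball (0:ℂ) 1))
    {M : ℝ} (hM : ∀ r : ℝ, 0 < r → r < 1 →
      ∫ θ in (-π)..π, ‖F (pt r θ)‖ ^ ((p - 1) * b) ≤ M) :
    ∃ M' : ℝ, ∀ r : ℝ, 0 < r → r < 1 → ∫ θ in (-π)..π, ‖k (pt r θ)‖ ^ b ≤ M' := by
  have hpi := Real.pi_pos
  set β := (p - 2) / 2 with hβdef
  have hβ : -(1 / 2) < β := by rw [hβdef]; linarith
  set s := (p - 1) * b with hs
  have hs0 : 0 < s := by
    have : 0 < p - 1 := by linarith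
    positivity
  have hexp : (β + 1 / 2) * b = s / 2 := by rw [hβdef, hs]; ring
  have hHF := Hol.of_differentiableOn hF
  have hA : ∀ R : ℝ, 0 < R → R < 1 →
      (cm (fun z => ((nn 1 F z ^ ((β + 1 / 2) * b) : ℝ) : ℂ)) R).re ≤
        2 ^ (s / 2) * (M + 2 * π) := by
    intro R hR0 hR
    have hRabs : |R| < 1 := by rwa [abs_of_pos hR0]
    rw [hexp, cmre_pow (n := fun z => nn 1 F z ^ (s / 2)) (W2_pow hHF zero_lt_one _).fst.cont hRabs]
    have hFc : Continuous (fun θ => F (pt R θ)) := cont_circle hF.continuousOn hRabs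
    have h1 : ∫ θ in (-π)..π, nn 1 F (pt R θ) ^ (s / 2) ≤
        ∫ θ in (-π)..π, 2 ^ (s / 2) * (‖F (pt R θ)‖ ^ s + 1) := by
      apply intervalIntegral.integral_mono_on (by linarith)
      · apply Continuous.intervalIntegrable
        unfold nn
        exact ((hFc.norm.pow 2).add continuous_const).rpow_const (fun θ => Or.inr (by positivity))
      · apply Continuous.intervalIntegrable
        exact continuous_const.mul ((hFc.norm.rpow_const (fun θ => Or.inr hs0.le)).add
          continuous_const)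
      · intro θ _
        exact rpow_add_one_le (norm_nonneg _) hs0.le
    refine h1.trans ?_
    rw [intervalIntegral.integral_const_mul, intervalIntegral.integral_add,
      intervalIntegral.integral_const]
    · have := hM R hR0 hR
      have e : (π - -π) • (1:ℝ) = 2 * π := by simp; ring
      rw [e]
      gcongr
    · exact (hFc.norm.rpow_const (fun θ => Or.inr hs0.le)).intervalIntegrable _ _
    · simp
  obtain ⟨D1, D2, hD1, hD2, hD⟩ := pair_poly hβ hb hk hF hkint c hvar hH0 hA
  have hD' := pair_real hb hk hD1 hD2 hD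
  have hb1 : 0 < b - 1 := by linarith
  set τ := b / (b - 1) / 2 with hτ
  have hτ0 : 0 < τ := by
    have : 0 < b := by linarith
    positivity
  obtain ⟨M1, hM1⟩ := test_bound (D1 := D1 + 1) (D2 := 3 ^ τ * (D2 + ‖k 0‖)) hb (by positivity)
  rw [← hτ] at hM1
  refine ⟨2 ^ b * (2 * M1), ?_⟩
  intro ρ hρ0 hρ
  have hρabs : |ρ| < 1 := by rwa [abs_of_pos hρ0]
  have hkc : Continuous (fun θ : ℝ => k (pt ρ θ)) := cont_circle hk.continuousOn hρabs
  have hkcc : Continuous (fun θ : ℝ => conj (k (pt ρ θ))) := continuous_conj.comp hkc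
  have hper : Function.Periodic (fun θ : ℝ => pt ρ θ) (2 * π) := by
    intro θ
    simp only [pt]
    rw [show ((θ + 2 * π : ℝ) : ℂ) * I = θ * I + 2 * π * I by push_cast; ring,
      Complex.exp_add, Complex.exp_two_pi_mul_I, mul_one]
  have hψ := fun (ψ : ℝ → ℝ) (h1 : Continuous ψ) (h2 : Function.Periodic ψ (2 * π)) =>
    pair_cont hτ0 hk (D1 := D1) (D2 := D2 + ‖k 0‖) (by positivity) hρ0 hρ
      (fun f hf0 => hD' ρ f hρ0 hρ hf0) ψ h1 h2
  have hb0 : 0 < b := by linarith
  have hre : ∫ θ in (-π)..π, |(k (pt ρ θ)).re| ^ b ≤ M1 := by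
    apply hM1 (fun θ => (k (pt ρ θ)).re) (Complex.continuous_re.comp hkc)
    · intro θ
      have := hper θ
      simp only at this ⊢
      rw [this]
    · intro ψ h1 h2
      refine le_trans ?_ (hψ ψ h1 h2)
      have hI : IntervalIntegrable (fun θ => conj (k (pt ρ θ)) * ((ψ θ : ℝ) : ℂ)) volume (-π) π :=
        (hkcc.mul (continuous_ofReal.comp h1)).intervalIntegrable _ _
      have h3 := Complex.reCLM.intervalIntegral_comp_comm hI
      have h4 : ∫ θ in (-π)..π, (k (pt ρ θ)).re * ψ θ =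
          (∫ θ in (-π)..π, conj (k (pt ρ θ)) * ((ψ θ : ℝ) : ℂ)).re := by
        rw [← reCLM_apply, ← h3]
        apply intervalIntegral.integral_congr
        intro θ _
        simp
      rw [h4]
      exact Complex.abs_re_le_norm _
  have him : ∫ θ in (-π)..π, |(k (pt ρ θ)).im| ^ b ≤ M1 := by
    apply hM1 (fun θ => (k (pt ρ θ)).im) (Complex.continuous_im.comp hkc)
    · intro θ
      have := hper θ
      simp only at this ⊢
      rw [this]
    · intro ψ h1 h2
      refine le_trans ?_ (hψ ψ h1 h2)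
      have hI : IntervalIntegrable (fun θ => conj (k (pt ρ θ)) * ((ψ θ : ℝ) : ℂ)) volume (-π) π :=
        (hkcc.mul (continuous_ofReal.comp h1)).intervalIntegrable _ _
      have h3 := Complex.imCLM.intervalIntegral_comp_comm hI
      have h4 : ∫ θ in (-π)..π, (k (pt ρ θ)).im * ψ θ =
          -(∫ θ in (-π)..π, conj (k (pt ρ θ)) * ((ψ θ : ℝ) : ℂ)).im := by
        rw [← imCLM_apply, ← h3, ← intervalIntegral.integral_neg]
        apply intervalIntegral.integral_congr
        intro θ _
        simp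
      rw [h4, abs_neg]
      exact Complex.abs_im_le_norm _
  have hcr : Continuous (fun θ => |(k (pt ρ θ)).re| ^ b) :=
    ((Complex.continuous_re.comp hkc).abs).rpow_const (fun θ => Or.inr hb0.le)
  have hci : Continuous (fun θ => |(k (pt ρ θ)).im| ^ b) :=
    ((Complex.continuous_im.comp hkc).abs).rpow_const (fun θ => Or.inr hb0.le)
  have h1 : ∫ θ in (-π)..π, ‖k (pt ρ θ)‖ ^ b ≤
      ∫ θ in (-π)..π, 2 ^ b * (|(k (pt ρ θ)).re| ^ b + |(k (pt ρ θ)).im| ^ b) := by
    apply intervalIntegral.integral_mono_on (by linarith)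
    · exact (hkc.norm.rpow_const (fun θ => Or.inr hb0.le)).intervalIntegrable _ _
    · exact (continuous_const.mul (hcr.add hci)).intervalIntegrable _ _
    · intro θ _
      refine le_trans ?_ (add_rpow_le hb0.le (abs_nonneg _) (abs_nonneg _))
      exact Real.rpow_le_rpow (norm_nonneg _) (Complex.norm_le_abs_re_add_abs_im _) hb0.le
  refine h1.trans ?_
  rw [intervalIntegral.integral_const_mul, intervalIntegral.integral_add
    (hcr.intervalIntegrable _ _) (hci.intervalIntegrable _ _)]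
  gcongr
  linarith

end Pool.Agent.H959.Ryab
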