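import Pool.Agent.H959.Ryab.Wirt

open Complex MeasureTheory Set Filter Topology Metric
open scoped Real ComplexConjugate

namespace Pool.Agent.H959.Ryab

lemma cm_intervalIntegrable {ϱ : ℝ} {U : ℂ → ℂ} (hU : ContinuousOn U (ball (0:ℂ) ϱ)) {r : ℝ}
    (hr : |r| < ϱ) : IntervalIntegrable (fun θ => U (pt r θ)) volume (-π) π :=
  (cont_circle hU hr).intervalIntegrable _ _

lemma cm_add {ϱ : ℝ} {U V : ℂ → ℂ} (hU : ContinuousOn U (ball (0:ℂ) ϱ))
    (hV : ContinuousOn V (ball (0:ℂ) ϱ)) {r : ℝ} (hr : |r| < ϱ) :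
    cm (fun z => U z + V z) r = cm U r + cm V r := by
  unfold cm
  rw [← intervalIntegral.integral_add (cm_intervalIntegrable hU hr) (cm_intervalIntegrable hV hr)]

lemma cm_smul (U : ℂ → ℂ) (c : ℂ) (r : ℝ) : cm (fun z => c * U z) r = c * cm U r := by
  unfold cm
  rw [← intervalIntegral.integral_const_mul]

lemma cm_continuousOn {ϱ : ℝ} {U : ℂ → ℂ} (hU : ContinuousOn U (ball (0:ℂ) ϱ)) {R : ℝ}
    (hR : R < ϱ) : ContinuousOn (cm U) (Icc 0 R) := by
  intro r hr
  refine (cm_continuousAt hU ?_).continuousWithinAt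
  rw [abs_of_nonneg hr.1]
  exact lt_of_le_of_lt hr.2 hR

/-- real part of the circle integral -/
lemma cm_re {ϱ : ℝ} {U : ℂ → ℂ} (hU : ContinuousOn U (ball (0:ℂ) ϱ)) {r : ℝ}
    (hr : |r| < ϱ) : (cm U r).re = ∫ θ in (-π)..π, (U (pt r θ)).re := by
  unfold cm
  have := Complex.reCLM.intervalIntegral_comp_comm (cm_intervalIntegrable hU hr)
  simpa using this.symm

lemma cm_re_mono {ϱ : ℝ} {U V : ℂ → ℂ} (hU : ContinuousOn U (ball (0:ℂ) ϱ))
    (hV : ContinuousOn V (ball (0:ℂ) ϱ)) {r : ℝ} (hr : |r| < ϱ)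
    (h : ∀ z ∈ ball (0:ℂ) ϱ, (U z).re ≤ (V z).re) : (cm U r).re ≤ (cm V r).re := by
  rw [cm_re hU hr, cm_re hV hr]
  apply intervalIntegral.integral_mono_on (by linarith [Real.pi_pos])
  · exact (Complex.continuous_re.comp (cont_circle hU hr)).intervalIntegrable _ _
  · exact (Complex.continuous_re.comp (cont_circle hV hr)).intervalIntegrable _ _
  · intro θ _
    apply h
    simp [norm_pt, hr]

lemma cm_re_nonneg {ϱ : ℝ} {U : ℂ → ℂ} (hU : ContinuousOn U (ball (0:ℂ) ϱ)) {r : ℝ}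
    (hr : |r| < ϱ) (h : ∀ z ∈ ball (0:ℂ) ϱ, 0 ≤ (U z).re) : 0 ≤ (cm U r).re := by
  rw [cm_re hU hr]
  apply intervalIntegral.integral_nonneg (by linarith [Real.pi_pos])
  intro θ _
  apply h
  simp [norm_pt, hr]

/-- norm bound of a circle integral by the real part of another -/
lemma cm_norm_le {ϱ : ℝ} {U V : ℂ → ℂ} (hV : ContinuousOn V (ball (0:ℂ) ϱ)) {r : ℝ}
    (hr : |r| < ϱ)
    (h : ∀ z ∈ ball (0:ℂ) ϱ, ‖U z‖ ≤ (V z).re) : ‖cm U r‖ ≤ (cm V r).re := by
  rw [cm_re hV hr]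
  unfold cm
  apply intervalIntegral.norm_integral_le_of_norm_le (by linarith [Real.pi_pos])
  · refine Eventually.of_forall fun θ _ => h _ ?_
    simp [norm_pt, hr]
  · exact (Complex.continuous_re.comp (cont_circle hV hr)).intervalIntegrable _ _

/-- Green's formula with weight `R² - r²`. -/
lemma green {ϱ : ℝ} {U U1 U2 U12 : ℂ → ℂ} (h : W2 ϱ U U1 U2 U12) {R : ℝ} (hR0 : 0 < R)
    (hR : R < ϱ) :
    ∫ r in (0:ℝ)..R, (((R:ℂ) ^ 2 - (r:ℂ) ^ 2) * (2 * r * cm U12 r) + 2 * r * cm U r) =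
      (R:ℂ) ^ 2 * cm U R := by
  obtain ⟨h1, ⟨U11, h2⟩⟩ := h
  have hcK : ContinuousOn (fun z => z * U1 z) (ball (0:ℂ) ϱ) := continuousOn_id.mul h1.c1
  have hof : ∀ s : Set ℝ, ContinuousOn (fun r : ℝ => (r : ℂ)) s := fun s =>
    continuous_ofReal.continuousOn
  have key := intervalIntegral.integral_eq_sub_of_hasDerivAt_of_le (a := 0) (b := R)
    (f := fun r : ℝ => ((R:ℂ) ^ 2 - (r:ℂ) ^ 2) * cm (fun z => z * U1 z) r + (r:ℂ) ^ 2 * cm U r)
    (f' := fun r : ℝ => (((R:ℂ) ^ 2 - (r:ℂ) ^ 2) * (2 * r * cm U12 r) + 2 * r * cm U r)) hR0.le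
    ?_ ?_ ?_
  · rw [key]
    simp [cm_zero_mul]
  · exact ((continuousOn_const.sub ((hof _).pow 2)).mul (cm_continuousOn hcK hR)).add
      (((hof _).pow 2).mul (cm_continuousOn h1.cont hR))
  · intro r hr
    have hrϱ : r < ϱ := hr.2.trans hR
    have hr0' : (r : ℂ) ≠ 0 := by exact_mod_cast hr.1.ne'
    have d1 := cm_second h2 hr.1 hrϱ
    have d2 := cm_deriv_left h1 hr.1 hrϱ
    have d0 : HasDerivAt (fun r : ℝ => (r:ℂ) ^ 2) (2 * r) r := by
      have := (Complex.ofRealCLM.hasDerivAt (x := r)).pow 2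
      refine (this.congr_deriv ?_)
      simp
    have := ((d0.const_sub ((R:ℂ) ^ 2)).mul d1).add (d0.mul d2)
    refine this.congr_deriv ?_
    field_simp
    ring
  · apply ContinuousOn.intervalIntegrable
    rw [uIcc_of_le hR0.le]
    exact ((continuousOn_const.sub ((hof _).pow 2)).mul
      ((continuousOn_const.mul (hof _)).mul (cm_continuousOn h2.c2 hR))).add
      ((continuousOn_const.mul (hof _)).mul (cm_continuousOn h1.cont hR))

/-- pairing identity. -/
lemma pairing_id {ϱ : ℝ} {H H1 H2 H12 g g' : ℂ → ℂ} (h : W2 ϱ H H1 H2 H12)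
    (hg : ∀ z ∈ ball (0:ℂ) ϱ, HasDerivAt g (g' z) z) (hg' : ContinuousOn g' (ball (0:ℂ) ϱ))
    {R : ℝ} (hR0 : 0 < R) (hR : R < ϱ) :
    ∫ r in (0:ℝ)..R, ((r:ℂ) * cm (fun z => H z * (g z + z * g' z)) r +
      ((R:ℂ) ^ 2 - (r:ℂ) ^ 2) * (r * cm (fun z => H12 z * g z) r)) =
      1 / 2 * (R:ℂ) ^ 2 * cm (fun z => H z * g z) R := by
  obtain ⟨h1, ⟨H11, h2⟩⟩ := h
  have hg1 := C1W.hol hg hg'
  have hHg := h1.mul hg1
  have hH1g := h2.mul hg1
  have hcK : ContinuousOn (fun z => z * (H1 z * g z)) (ball (0:ℂ) ϱ) :=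
    continuousOn_id.mul hH1g.cont
  have hcM : ContinuousOn (fun z => z * (H z * g' z)) (ball (0:ℂ) ϱ) :=
    continuousOn_id.mul (h1.cont.mul hg')
  have hcN : ContinuousOn (fun z => H z * (g z + z * g' z)) (ball (0:ℂ) ϱ) :=
    h1.cont.mul (hg1.cont.add (continuousOn_id.mul hg'))
  have hc12 : ContinuousOn (fun z => H12 z * g z) (ball (0:ℂ) ϱ) := h2.c2.mul hg1.cont
  have hof : ∀ s : Set ℝ, ContinuousOn (fun r : ℝ => (r : ℂ)) s := fun s =>
    continuous_ofReal.continuousOn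
  have key := intervalIntegral.integral_eq_sub_of_hasDerivAt_of_le (a := 0) (b := R)
    (f := fun r : ℝ => 1 / 2 * (r:ℂ) ^ 2 * cm (fun z => H z * g z) r +
      1 / 2 * ((R:ℂ) ^ 2 - (r:ℂ) ^ 2) * cm (fun z => z * (H1 z * g z)) r)
    (f' := fun r : ℝ => (r:ℂ) * cm (fun z => H z * (g z + z * g' z)) r +
      ((R:ℂ) ^ 2 - (r:ℂ) ^ 2) * (r * cm (fun z => H12 z * g z) r)) hR0.le
    ?_ ?_ ?_
  · rw [key]
    simp [cm_zero_mul]
  · exact ((continuousOn_const.mul ((hof _).pow 2)).mul (cm_continuousOn hHg.cont hR)).add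
      ((continuousOn_const.mul (continuousOn_const.sub ((hof _).pow 2))).mul
        (cm_continuousOn hcK hR))
  · intro r hr
    have hrϱ : r < ϱ := hr.2.trans hR
    have hrabs : |r| < ϱ := by rwa [abs_of_pos hr.1]
    have hr0' : (r : ℂ) ≠ 0 := by exact_mod_cast hr.1.ne'
    have d1 := cm_second hH1g hr.1 hrϱ
    have d2 := cm_deriv_left hHg hr.1 hrϱ
    have d0 : HasDerivAt (fun r : ℝ => (r:ℂ) ^ 2) (2 * r) r := by
      have := (Complex.ofRealCLM.hasDerivAt (x := r)).pow 2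
      refine (this.congr_deriv ?_)
      simp
    have d3 := ((d0.const_mul (1 / 2 : ℂ)).mul d2).add
      (((d0.const_sub ((R:ℂ) ^ 2)).const_mul (1 / 2 : ℂ)).mul d1)
    refine d3.congr_deriv ?_
    have e1 : cm (fun z => z * (H1 z * g z + H z * g' z)) r =
        cm (fun z => z * (H1 z * g z)) r + cm (fun z => z * (H z * g' z)) r := by
      rw [← cm_add hcK hcM hrabs]
      congr 1
      funext z
      ring
    have e2 : cm (fun z => H z * (g z + z * g' z)) r =
        cm (fun z => H z * g z) r + cm (fun z => z * (H z * g' z)) r := by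
      rw [← cm_add hHg.cont hcM hrabs]
      congr 1
      funext z
      ring
    have e3 : cm (fun z => H12 z * g z + H1 z * 0) r = cm (fun z => H12 z * g z) r := by
      congr 1
      funext z
      ring
    rw [e1, e2, e3]
    field_simp
    ring
  · apply ContinuousOn.intervalIntegrable
    rw [uIcc_of_le hR0.le]
    exact ((hof _).mul (cm_continuousOn hcN hR)).add
      ((continuousOn_const.sub ((hof _).pow 2)).mul ((hof _).mul (cm_continuousOn hc12 hR)))

/-- Green inequality in real form -/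
lemma green_re {ϱ : ℝ} {U U1 U2 U12 : ℂ → ℂ} (h : W2 ϱ U U1 U2 U12)
    (hpos : ∀ z ∈ ball (0:ℂ) ϱ, 0 ≤ (U z).re) {R : ℝ} (hR0 : 0 < R)
    (hR : R < ϱ) :
    ∫ r in (0:ℝ)..R, ((R ^ 2 - r ^ 2) * (r * (cm U12 r).re)) ≤ 1 / 2 * (R ^ 2 * (cm U R).re) := by
  have h0 := green h hR0 hR
  obtain ⟨h1, ⟨U11, h2⟩⟩ := h
  have hof : ∀ s : Set ℝ, ContinuousOn (fun r : ℝ => (r : ℂ)) s := fun s =>
    continuous_ofReal.continuousOn
  have hcont : ContinuousOn (fun r : ℝ => (((R:ℂ) ^ 2 - (r:ℂ) ^ 2) * (2 * r * cm U12 r)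
      + 2 * r * cm U r)) (Icc 0 R) :=
    ((continuousOn_const.sub ((hof _).pow 2)).mul
      ((continuousOn_const.mul (hof _)).mul (cm_continuousOn h2.c2 hR))).add
      ((continuousOn_const.mul (hof _)).mul (cm_continuousOn h1.cont hR))
  have hint : IntervalIntegrable (fun r : ℝ => (((R:ℂ) ^ 2 - (r:ℂ) ^ 2) * (2 * r * cm U12 r)
      + 2 * r * cm U r)) volume 0 R := by
    apply ContinuousOn.intervalIntegrable
    rwa [uIcc_of_le hR0.le]
  have h3 := Complex.reCLM.intervalIntegral_comp_comm hint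
  rw [h0] at h3
  have hre1 : ContinuousOn (fun r => (cm U12 r).re) (Icc 0 R) :=
    Complex.continuous_re.comp_continuousOn (cm_continuousOn h2.c2 hR)
  have hre2 : ContinuousOn (fun r => (cm U r).re) (Icc 0 R) :=
    Complex.continuous_re.comp_continuousOn (cm_continuousOn h1.cont hR)
  have e1 : (fun r : ℝ => Complex.reCLM ((((R:ℂ) ^ 2 - (r:ℂ) ^ 2) * (2 * r * cm U12 r)
      + 2 * r * cm U r))) = fun r => 2 * ((R ^ 2 - r ^ 2) * (r * (cm U12 r).re)) +
        2 * (r * (cm U r).re) := by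
    funext r
    have : (((R:ℂ) ^ 2 - (r:ℂ) ^ 2) * (2 * r * cm U12 r)
      + 2 * r * cm U r) = ((2 * (R ^ 2 - r ^ 2) * r : ℝ) : ℂ) * cm U12 r + ((2 * r : ℝ):ℂ) * cm U r := by
      push_cast; ring
    rw [this]
    simp only [reCLM_apply, add_re, re_ofReal_mul]
    ring
  rw [e1] at h3
  have e2 : Complex.reCLM ((R:ℂ) ^ 2 * cm U R) = R ^ 2 * (cm U R).re := by
    have : ((R:ℂ) ^ 2 * cm U R) = ((R ^ 2 : ℝ) : ℂ) * cm U R := by push_cast; ring
    rw [this, reCLM_apply, re_ofReal_mul]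
  rw [e2] at h3
  have i1 : IntervalIntegrable (fun r => 2 * ((R ^ 2 - r ^ 2) * (r * (cm U12 r).re))) volume 0 R := by
    apply ContinuousOn.intervalIntegrable
    rw [uIcc_of_le hR0.le]
    fun_prop
  have i2 : IntervalIntegrable (fun r => 2 * (r * (cm U r).re)) volume 0 R := by
    apply ContinuousOn.intervalIntegrable
    rw [uIcc_of_le hR0.le]
    fun_prop
  rw [intervalIntegral.integral_add i1 i2, intervalIntegral.integral_const_mul] at h3
  have h4 : 0 ≤ ∫ r in (0:ℝ)..R, 2 * (r * (cm U r).re) := by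
    apply intervalIntegral.integral_nonneg hR0.le
    intro r hr
    have : 0 ≤ (cm U r).re := cm_re_nonneg h1.cont (by
      rw [abs_of_nonneg hr.1]; exact lt_of_le_of_lt hr.2 hR) hpos
    have := hr.1
    positivity
  linarith

/-- circle integrals of subharmonic functions are monotone -/
lemma cm_mono {ϱ : ℝ} {U U1 U2 U12 : ℂ → ℂ} (h : W2 ϱ U U1 U2 U12)
    (hpos : ∀ z ∈ ball (0:ℂ) ϱ, 0 ≤ (U12 z).re) {r R : ℝ} (hr : 0 ≤ r) (hrR : r ≤ R)
    (hR : R < ϱ) : (cm U r).re ≤ (cm U R).re := by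
  obtain ⟨h1, ⟨U11, h2⟩⟩ := h
  have hcK : ContinuousOn (fun z => z * U1 z) (ball (0:ℂ) ϱ) := continuousOn_id.mul h1.c1
  have hK : ∀ s ∈ Icc 0 R, 0 ≤ (cm (fun z => z * U1 z) s).re := by
    have hmono : MonotoneOn (fun s => (cm (fun z => z * U1 z) s).re) (Icc 0 R) := by
      apply monotoneOn_of_hasDerivWithinAt_nonneg (f' := fun s => 2 * s * (cm U12 s).re)
        (convex_Icc 0 R)
      · exact Complex.continuous_re.comp_continuousOn (cm_continuousOn hcK hR)
      · intro s hs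
        rw [interior_Icc] at hs
        have d1 := cm_second h2 hs.1 (hs.2.trans hR)
        have d2 := Complex.reCLM.hasFDerivAt.comp_hasDerivAt s d1
        have e : Complex.reCLM (2 * s * cm U12 s) = 2 * s * (cm U12 s).re := by
          have : (2 * s * cm U12 s : ℂ) = ((2 * s : ℝ) : ℂ) * cm U12 s := by push_cast; ring
          rw [this, reCLM_apply, re_ofReal_mul]
        rw [e] at d2
        exact d2.hasDerivWithinAt
      · intro s hs
        rw [interior_Icc] at hs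
        have : 0 ≤ (cm U12 s).re := cm_re_nonneg h2.c2 (by
          rw [abs_of_pos hs.1]; exact hs.2.trans hR) hpos
        have := hs.1
        positivity
    intro s hs
    have h0 := hmono (left_mem_Icc.mpr (hs.1.trans hs.2)) hs hs.1
    simp only [cm_zero_mul, Complex.zero_re] at h0
    exact h0
  have hmono : MonotoneOn (fun s => (cm U s).re) (Icc 0 R) := by
    apply monotoneOn_of_hasDerivWithinAt_nonneg
      (f' := fun s => (2 / s) * (cm (fun z => z * U1 z) s).re) (convex_Icc 0 R)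
    · exact Complex.continuous_re.comp_continuousOn (cm_continuousOn h1.cont hR)
    · intro s hs
      rw [interior_Icc] at hs
      have d1 := cm_deriv_left h1 hs.1 (hs.2.trans hR)
      have d2 := Complex.reCLM.hasFDerivAt.comp_hasDerivAt s d1
      have e : Complex.reCLM (2 / s * cm (fun z => z * U1 z) s)
          = 2 / s * (cm (fun z => z * U1 z) s).re := by
        have : (2 / s * cm (fun z => z * U1 z) s : ℂ)
          = ((2 / s : ℝ) : ℂ) * cm (fun z => z * U1 z) s := by push_cast; ring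
        rw [this, reCLM_apply, re_ofReal_mul]
      rw [e] at d2
      exact d2.hasDerivWithinAt
    · intro s hs
      rw [interior_Icc] at hs
      have h3 := hK s ⟨hs.1.le, hs.2.le⟩
      have := hs.1
      positivity
  exact hmono ⟨hr, hrR⟩ ⟨hr.trans hrR, le_rfl⟩ hrR

end Pool.Agent.H959.Ryab
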