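import Pool.Agent.H959.Ryab.Green

open Complex MeasureTheory Set Filter Topology Metric
open scoped Real ComplexConjugate

namespace Pool.Agent.H959.Ryab

/-- `‖F‖² + e` -/
noncomputable def nn (e : ℝ) (F : ℂ → ℂ) (z : ℂ) : ℝ := ‖F z‖ ^ 2 + e

lemma nn_pos {e : ℝ} (he : 0 < e) (F : ℂ → ℂ) (z : ℂ) : 0 < nn e F z := by
  unfold nn; positivity

lemma mul_conj_norm (w : ℂ) : w * conj w = ((‖w‖ ^ 2 : ℝ) : ℂ) := by
  rw [Complex.mul_conj, Complex.normSq_eq_norm_sq]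

lemma conj_mul_norm (w : ℂ) : conj w * w = ((‖w‖ ^ 2 : ℝ) : ℂ) := by
  rw [mul_comm, mul_conj_norm]

/-- holomorphic data on the ball -/
structure Hol (ϱ : ℝ) (F F' : ℂ → ℂ) : Prop where
  d1 : ∀ z ∈ ball (0:ℂ) ϱ, HasDerivAt F (F' z) z
  d2 : ∃ F'' : ℂ → ℂ, (∀ z ∈ ball (0:ℂ) ϱ, HasDerivAt F' (F'' z) z) ∧
    ContinuousOn F'' (ball (0:ℂ) ϱ)

lemma Hol.of_differentiableOn {ϱ : ℝ} {F : ℂ → ℂ} (h : DifferentiableOn ℂ F (ball (0:ℂ) ϱ)) :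
    Hol ϱ F (deriv F) := by
  have h1 : DifferentiableOn ℂ (deriv F) (ball (0:ℂ) ϱ) := h.deriv isOpen_ball
  have h2 : DifferentiableOn ℂ (deriv (deriv F)) (ball (0:ℂ) ϱ) := h1.deriv isOpen_ball
  refine ⟨fun z hz => (h.differentiableAt (isOpen_ball.mem_nhds hz)).hasDerivAt,
    ⟨deriv (deriv F), fun z hz => (h1.differentiableAt (isOpen_ball.mem_nhds hz)).hasDerivAt,
      h2.continuousOn⟩⟩

lemma Hol.w2 {ϱ : ℝ} {F F' : ℂ → ℂ} (h : Hol ϱ F F') : W2 ϱ F F' (fun _ => 0) (fun _ => 0) := by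
  obtain ⟨h1, F'', h2, h3⟩ := h
  exact W2.hol h1 h2 h3

lemma Hol.cont {ϱ : ℝ} {F F' : ℂ → ℂ} (h : Hol ϱ F F') : ContinuousOn F (ball (0:ℂ) ϱ) :=
  h.w2.fst.cont

lemma Hol.cont' {ϱ : ℝ} {F F' : ℂ → ℂ} (h : Hol ϱ F F') : ContinuousOn F' (ball (0:ℂ) ϱ) :=
  h.w2.fst.c1

lemma W2_nn {ϱ : ℝ} {F F' : ℂ → ℂ} (h : Hol ϱ F F') (e : ℝ) :
    W2 ϱ (fun z => ((nn e F z : ℝ) : ℂ)) (fun z => F' z * conj (F z))
      (fun z => F z * conj (F' z)) (fun z => F' z * conj (F' z)) := by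
  have h1 := (h.w2.mul (W2.antihol h.d1 h.cont')).add (W2.const ϱ (e : ℂ))
  refine h1.congr ?_ ?_ ?_ ?_
  · intro z
    rw [mul_conj_norm]
    unfold nn
    push_cast
    rfl
  all_goals
    intro z
    simp

/-- `∂̄∂ n^α` for `n = |F|² + e` -/
noncomputable def E12 (α n : ℝ) (F F' : ℂ) : ℂ :=
  α * (α - 1) * ((n ^ (α - 1 - 1) : ℝ) : ℂ) * ((F' * conj F) * (F * conj F'))
    + α * ((n ^ (α - 1) : ℝ) : ℂ) * (F' * conj F')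

noncomputable def E1 (α n : ℝ) (F F' : ℂ) : ℂ := α * ((n ^ (α - 1) : ℝ) : ℂ) * (F' * conj F)
noncomputable def E2 (α n : ℝ) (F F' : ℂ) : ℂ := α * ((n ^ (α - 1) : ℝ) : ℂ) * (F * conj F')

lemma W2_pow {ϱ : ℝ} {F F' : ℂ → ℂ} (h : Hol ϱ F F') {e : ℝ} (he : 0 < e) (α : ℝ) :
    W2 ϱ (fun z => ((nn e F z ^ α : ℝ) : ℂ)) (fun z => E1 α (nn e F z) (F z) (F' z))
      (fun z => E2 α (nn e F z) (F z) (F' z)) (fun z => E12 α (nn e F z) (F z) (F' z)) :=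
  (W2_nn h e).rpow (nn_pos he F) α

lemma rpow_sub_one' {n : ℝ} (hn : 0 < n) (α : ℝ) : n ^ (α - 1) = n ^ α * n⁻¹ := by
  rw [Real.rpow_sub_one hn.ne', div_eq_mul_inv]

lemma E12_eq {n : ℝ} (hn : 0 < n) (α : ℝ) (F F' : ℂ) :
    E12 α n F F' = ((n ^ α * (α * (α - 1) * (‖F‖ ^ 2 * ‖F'‖ ^ 2 / n ^ 2) + α * (‖F'‖ ^ 2 / n)) : ℝ) : ℂ) := by
  unfold E12
  have e1 : (F' * conj F) * (F * conj F') = ((‖F‖ ^ 2 * ‖F'‖ ^ 2 : ℝ) : ℂ) := by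
    rw [show (F' * conj F) * (F * conj F') = (F * conj F) * (F' * conj F') by ring,
      mul_conj_norm, mul_conj_norm]
    push_cast; ring
  rw [e1, mul_conj_norm, rpow_sub_one' hn, rpow_sub_one' hn]
  have hn' : (n : ℂ) ≠ 0 := by exact_mod_cast hn.ne'
  push_cast
  field_simp

/-- product -/
noncomputable def P12 (α n : ℝ) (F F' : ℂ) (β m : ℝ) (g g' : ℂ) : ℂ :=
  E12 α n F F' * ((m ^ β : ℝ) : ℂ) + E1 α n F F' * E2 β m g g' +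
    (E2 α n F F' * E1 β m g g' + ((n ^ α : ℝ) : ℂ) * E12 β m g g')

lemma P12_re {n m : ℝ} (hn : 0 < n) (hm : 0 < m) (α β : ℝ) (F F' g g' : ℂ) :
    (P12 α n F F' β m g g').re =
      n ^ α * m ^ β * (‖(α:ℂ) * (F' * conj F / n) + β * (g' * conj g / m)‖ ^ 2
        + α * (‖F'‖ ^ 2 / n - ‖F‖ ^ 2 * ‖F'‖ ^ 2 / n ^ 2)
        + β * (‖g'‖ ^ 2 / m - ‖g‖ ^ 2 * ‖g'‖ ^ 2 / m ^ 2)) := by
  set x : ℂ := F' * conj F / n with hx
  set y : ℂ := g' * conj g / m with hy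
  have hn' : (n : ℂ) ≠ 0 := by exact_mod_cast hn.ne'
  have hm' : (m : ℂ) ≠ 0 := by exact_mod_cast hm.ne'
  have h1 : E1 α n F F' = ((n ^ α : ℝ) : ℂ) * (α * x) := by
    unfold E1
    rw [rpow_sub_one' hn, hx]; push_cast; field_simp
  have h2 : E2 α n F F' = ((n ^ α : ℝ) : ℂ) * (α * conj x) := by
    unfold E2
    rw [rpow_sub_one' hn, hx]
    simp only [map_div₀, map_mul, conj_conj, conj_ofReal]
    push_cast; field_simp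
  have h3 : E1 β m g g' = ((m ^ β : ℝ) : ℂ) * (β * y) := by
    unfold E1
    rw [rpow_sub_one' hm, hy]; push_cast; field_simp
  have h4 : E2 β m g g' = ((m ^ β : ℝ) : ℂ) * (β * conj y) := by
    unfold E2
    rw [rpow_sub_one' hm, hy]
    simp only [map_div₀, map_mul, conj_conj, conj_ofReal]
    push_cast; field_simp
  have nx : ‖x‖ ^ 2 = ‖F‖ ^ 2 * ‖F'‖ ^ 2 / n ^ 2 := by
    rw [hx, norm_div, norm_mul, RCLike.norm_conj, Complex.norm_real, Real.norm_of_nonneg hn.le]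
    ring
  have ny : ‖y‖ ^ 2 = ‖g‖ ^ 2 * ‖g'‖ ^ 2 / m ^ 2 := by
    rw [hy, norm_div, norm_mul, RCLike.norm_conj, Complex.norm_real, Real.norm_of_nonneg hm.le]
    ring
  have hE : ((‖(α:ℂ) * x + β * y‖ ^ 2 : ℝ) : ℂ) = α ^ 2 * ((‖x‖ ^ 2 : ℝ) : ℂ) +
      α * β * (x * conj y + conj x * y) + β ^ 2 * ((‖y‖ ^ 2 : ℝ) : ℂ) := by
    rw [← mul_conj_norm, ← mul_conj_norm, ← mul_conj_norm]
    simp only [map_add, map_mul, conj_ofReal]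
    ring
  have key : P12 α n F F' β m g g' = ((n ^ α * m ^ β * (‖(α:ℂ) * x + β * y‖ ^ 2
        + α * (‖F'‖ ^ 2 / n - ‖x‖ ^ 2)
        + β * (‖g'‖ ^ 2 / m - ‖y‖ ^ 2)) : ℝ) : ℂ) := by
    unfold P12
    rw [h1, h2, h3, h4, E12_eq hn, E12_eq hm, ← nx, ← ny]
    have : ((n ^ α * m ^ β * (‖(α:ℂ) * x + β * y‖ ^ 2
        + α * (‖F'‖ ^ 2 / n - ‖x‖ ^ 2)
        + β * (‖g'‖ ^ 2 / m - ‖y‖ ^ 2)) : ℝ) : ℂ) =
        ((n ^ α : ℝ) : ℂ) * ((m ^ β : ℝ) : ℂ) * (((‖(α:ℂ) * x + β * y‖ ^ 2 : ℝ) : ℂ)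
        + ((α * (‖F'‖ ^ 2 / n - ‖x‖ ^ 2)
        + β * (‖g'‖ ^ 2 / m - ‖y‖ ^ 2) : ℝ) : ℂ)) := by
      push_cast; ring
    rw [this, hE]
    push_cast
    ring
  rw [key, ofReal_re, nx, ny]

/-- lower bound -/
lemma E12_re_lower {e : ℝ} (he : 0 < e) {α : ℝ} (hα : 0 < α) (F F' : ℂ) :
    (‖F‖ ^ 2 + e) ^ α * (min (α ^ 2) α * (‖F'‖ ^ 2 / (‖F‖ ^ 2 + e))) ≤
      (E12 α (‖F‖ ^ 2 + e) F F').re := by
  have hn : 0 < ‖F‖ ^ 2 + e := by positivity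
  rw [E12_eq hn, ofReal_re]
  set n := ‖F‖ ^ 2 + e with hndef
  apply mul_le_mul_of_nonneg_left _ (by positivity)
  have hq : ‖F‖ ^ 2 * ‖F'‖ ^ 2 / n ^ 2 ≤ ‖F'‖ ^ 2 / n := by
    rw [div_le_div_iff₀ (by positivity) hn]
    have : ‖F‖ ^ 2 ≤ n := by rw [hndef]; linarith
    nlinarith [mul_le_mul_of_nonneg_right this (show 0 ≤ ‖F'‖ ^ 2 * n by positivity)]
  have hX : 0 ≤ ‖F'‖ ^ 2 / n := by positivity
  have hx : 0 ≤ ‖F‖ ^ 2 * ‖F'‖ ^ 2 / n ^ 2 := by positivity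
  set X := ‖F'‖ ^ 2 / n
  set x := ‖F‖ ^ 2 * ‖F'‖ ^ 2 / n ^ 2
  rcases le_total α 1 with h1 | h1
  · rw [min_eq_left (by nlinarith)]
    nlinarith [mul_nonneg hα.le (sub_nonneg.mpr h1), mul_le_mul_of_nonneg_left hq
      (mul_nonneg hα.le (sub_nonneg.mpr h1))]
  · rw [min_eq_right (by nlinarith)]
    nlinarith [mul_nonneg (mul_nonneg hα.le (sub_nonneg.mpr h1)) hx]

lemma E12_re_lower' {e : ℝ} (he : 0 < e) {α : ℝ} (hα : 0 < α) (F F' : ℂ) :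
    (‖F‖ ^ 2 + e) ^ α * (α ^ 2 * (‖F‖ ^ 2 * ‖F'‖ ^ 2 / (‖F‖ ^ 2 + e) ^ 2)) ≤
      (E12 α (‖F‖ ^ 2 + e) F F').re := by
  have hn : 0 < ‖F‖ ^ 2 + e := by positivity
  rw [E12_eq hn, ofReal_re]
  set n := ‖F‖ ^ 2 + e with hndef
  apply mul_le_mul_of_nonneg_left _ (by positivity)
  have hq : ‖F‖ ^ 2 * ‖F'‖ ^ 2 / n ^ 2 ≤ ‖F'‖ ^ 2 / n := by
    rw [div_le_div_iff₀ (by positivity) hn]
    have : ‖F‖ ^ 2 ≤ n := by rw [hndef]; linarith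
    nlinarith [mul_le_mul_of_nonneg_right this (show 0 ≤ ‖F'‖ ^ 2 * n by positivity)]
  nlinarith

/-- upper bound -/
lemma E12_re_upper {e : ℝ} (he : 0 < e) {α : ℝ} (hα : 0 < α) (F F' : ℂ) :
    (E12 α (‖F‖ ^ 2 + e) F F').re ≤
    (‖F‖ ^ 2 + e) ^ α * (max (α ^ 2) α * (‖F'‖ ^ 2 / (‖F‖ ^ 2 + e))) := by
  have hn : 0 < ‖F‖ ^ 2 + e := by positivity
  rw [E12_eq hn, ofReal_re]
  set n := ‖F‖ ^ 2 + e with hndef
  apply mul_le_mul_of_nonneg_left _ (by positivity)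
  have hq : ‖F‖ ^ 2 * ‖F'‖ ^ 2 / n ^ 2 ≤ ‖F'‖ ^ 2 / n := by
    rw [div_le_div_iff₀ (by positivity) hn]
    have : ‖F‖ ^ 2 ≤ n := by rw [hndef]; linarith
    nlinarith [mul_le_mul_of_nonneg_right this (show 0 ≤ ‖F'‖ ^ 2 * n by positivity)]
  have hX : 0 ≤ ‖F'‖ ^ 2 / n := by positivity
  have hx : 0 ≤ ‖F‖ ^ 2 * ‖F'‖ ^ 2 / n ^ 2 := by positivity
  set X := ‖F'‖ ^ 2 / n
  set x := ‖F‖ ^ 2 * ‖F'‖ ^ 2 / n ^ 2
  rcases le_total α 1 with h1 | h1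
  · rw [max_eq_right (by nlinarith)]
    nlinarith [mul_nonneg (mul_nonneg hα.le (sub_nonneg.mpr h1)) hx]
  · rw [max_eq_left (by nlinarith)]
    nlinarith [mul_nonneg hα.le (sub_nonneg.mpr h1), mul_le_mul_of_nonneg_left hq
      (mul_nonneg hα.le (sub_nonneg.mpr h1))]

lemma key_real {c1 c2 c3 A B P T : ℝ} (hc1 : 0 ≤ c1) (hc2 : 0 ≤ c2) (hc3 : 0 ≤ c3)
    (hA : 0 ≤ A) (hB : 0 ≤ B) (hP : 0 ≤ P) (h : T ≤ c1 * A ∨ T ≤ c2 * P + c3 * B) :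
    T ≤ (c1 + c2 + c3) * (A + B + P) := by
  have e : (c1 + c2 + c3) * (A + B + P) = c1 * A + c1 * B + c1 * P + c2 * A + c2 * B
      + c2 * P + c3 * A + c3 * B + c3 * P := by ring
  have h1 := mul_nonneg hc1 hA
  have h2 := mul_nonneg hc1 hB
  have h3 := mul_nonneg hc1 hP
  have h4 := mul_nonneg hc2 hA
  have h5 := mul_nonneg hc2 hB
  have h6 := mul_nonneg hc2 hP
  have h7 := mul_nonneg hc3 hA
  have h8 := mul_nonneg hc3 hB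
  have h9 := mul_nonneg hc3 hP
  rw [e]
  rcases h with h | h <;> linarith

lemma key_sq {α a b c : ℝ} (hα : 0 ≤ α * a) (h : α * a ≤ b + 1 / 2 * c) :
    α ^ 2 * a ^ 2 ≤ 2 * b ^ 2 + 1 / 2 * c ^ 2 := by
  calc α ^ 2 * a ^ 2 = (α * a) ^ 2 := by ring
    _ ≤ (b + 1 / 2 * c) ^ 2 := by gcongr
    _ ≤ 2 * b ^ 2 + 1 / 2 * c ^ 2 := by nlinarith [sq_nonneg (b - 1 / 2 * c)]

/-- key pointwise inequality -/
lemma key_ineq {α b : ℝ} (hα : 0 < α) (hb : 1 < b) : ∃ C : ℝ, 0 < C ∧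
    ∀ (e d : ℝ) (F F' g g' : ℂ), 0 < e → 0 < d →
    (‖F‖ ^ 2 + e) ^ α * (‖g‖ ^ 2 + d) ^ (1 / 2 : ℝ) * (‖F'‖ ^ 2 / (‖F‖ ^ 2 + e)) ≤
      C * ((E12 (α * b) (‖F‖ ^ 2 + e) F F').re +
        (E12 (b / (b - 1) / 2) (‖g‖ ^ 2 + d) g g').re +
        (P12 α (‖F‖ ^ 2 + e) F F' (1 / 2) (‖g‖ ^ 2 + d) g g').re) := by
  set σ := α * b with hσ
  set τ := b / (b - 1) / 2 with hτ
  have hb1 : 0 < b - 1 := by linarith
  have hσ0 : 0 < σ := by positivity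
  have hτ0 : 0 < τ := by positivity
  have hmin : 0 < min (σ ^ 2) σ := lt_min (by positivity) hσ0
  refine ⟨1 / min (σ ^ 2) σ + (2 / α ^ 2 + 1 / α) + 1 / (2 * α ^ 2 * τ ^ 2), by positivity, ?_⟩
  intro e d F F' g g' he hd
  set n := ‖F‖ ^ 2 + e with hn
  set m := ‖g‖ ^ 2 + d with hm
  have hn0 : 0 < n := by positivity
  have hm0 : 0 < m := by positivity
  set X := ‖F'‖ ^ 2 / n with hX
  set x : ℂ := F' * conj F / n with hx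
  set y : ℂ := g' * conj g / m with hy
  have hX0 : 0 ≤ X := by positivity
  have nx : ‖x‖ ^ 2 = ‖F‖ ^ 2 * ‖F'‖ ^ 2 / n ^ 2 := by
    rw [hx, norm_div, norm_mul, RCLike.norm_conj, Complex.norm_real, Real.norm_of_nonneg hn0.le]
    ring_nf
  have ny : ‖y‖ ^ 2 = ‖g‖ ^ 2 * ‖g'‖ ^ 2 / m ^ 2 := by
    rw [hy, norm_div, norm_mul, RCLike.norm_conj, Complex.norm_real, Real.norm_of_nonneg hm0.le]
    ring_nf
  have hq : ‖F‖ ^ 2 * ‖F'‖ ^ 2 / n ^ 2 ≤ ‖F'‖ ^ 2 / n := by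
    rw [div_le_div_iff₀ (by positivity) hn0]
    have : ‖F‖ ^ 2 ≤ n := by rw [hn]; linarith
    nlinarith [mul_le_mul_of_nonneg_right this (show 0 ≤ ‖F'‖ ^ 2 * n by positivity)]
  have hq' : ‖g‖ ^ 2 * ‖g'‖ ^ 2 / m ^ 2 ≤ ‖g'‖ ^ 2 / m := by
    rw [div_le_div_iff₀ (by positivity) hm0]
    have : ‖g‖ ^ 2 ≤ m := by rw [hm]; linarith
    nlinarith [mul_le_mul_of_nonneg_right this (show 0 ≤ ‖g'‖ ^ 2 * m by positivity)]
  have hL1 := E12_re_lower he hσ0 F F'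
  have hL2 := E12_re_lower' hd hτ0 g g'
  have hP := P12_re hn0 hm0 α (1 / 2) F F' g g'
  rw [← hn] at hL1
  rw [← hm] at hL2
  rw [← hX] at hL1
  rw [← ny] at hL2
  rw [← hx, ← hy, ← nx, ← ny, ← hX] at hP
  rw [← nx] at hq
  rw [← ny] at hq'
  set A := (E12 σ n F F').re with hA
  set B := (E12 τ m g g').re with hB
  set u := n ^ α with hu
  set v := m ^ (1 / 2 : ℝ) with hv
  have hu0 : 0 < u := Real.rpow_pos_of_pos hn0 _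
  have hv0 : 0 < v := Real.rpow_pos_of_pos hm0 _
  have huσ : n ^ σ = u ^ b := by rw [hσ, Real.rpow_mul hn0.le]
  have hvτ : m ^ τ = v ^ (b / (b - 1)) := by
    rw [hτ, hv, ← Real.rpow_mul hm0.le]; congr 1; ring
  have hA0 : 0 ≤ A := le_trans (by positivity) hL1
  have hB0 : 0 ≤ B := le_trans (by positivity) hL2
  set w : ℂ := (α:ℂ) * x + ((1 / 2 : ℝ):ℂ) * y with hw
  have hP0 : 0 ≤ (P12 α n F F' (1 / 2) m g g').re := by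
    rw [hP]
    have h1 : 0 ≤ X - ‖x‖ ^ 2 := by linarith
    have h2 : 0 ≤ ‖g'‖ ^ 2 / m - ‖y‖ ^ 2 := by linarith
    positivity
  set Pr := (P12 α n F F' (1 / 2) m g g').re with hPr
  have hc1 : 0 ≤ 1 / min (σ ^ 2) σ := by positivity
  have hc2 : 0 ≤ 2 / α ^ 2 + 1 / α := by positivity
  have hc3 : 0 ≤ 1 / (2 * α ^ 2 * τ ^ 2) := by positivity
  rcases le_or_gt v (u ^ (b - 1)) with hcase | hcase
  · -- case 1
    have h1 : u * v ≤ n ^ σ := by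
      rw [huσ]
      calc u * v ≤ u * u ^ (b - 1) := by gcongr
        _ = u ^ b := by
          rw [mul_comm, ← Real.rpow_add_one hu0.ne']; congr 1; ring
    have h2 : u * v * X ≤ 1 / min (σ ^ 2) σ * A := by
      calc u * v * X ≤ n ^ σ * X := by gcongr
        _ = 1 / min (σ ^ 2) σ * (n ^ σ * (min (σ ^ 2) σ * X)) := by
          field_simp
        _ ≤ 1 / min (σ ^ 2) σ * A := by gcongr
    exact key_real hc1 hc2 hc3 hA0 hB0 hP0 (Or.inl h2)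
  · -- case 2
    have h1 : u * v ≤ m ^ τ := by
      rw [hvτ]
      have h3 : u ≤ v ^ (1 / (b - 1)) := by
        have : (u ^ (b - 1)) ^ (1 / (b - 1)) ≤ v ^ (1 / (b - 1)) :=
          Real.rpow_le_rpow (by positivity) hcase.le (by positivity)
        rwa [← Real.rpow_mul hu0.le, mul_one_div_cancel hb1.ne', Real.rpow_one] at this
      calc u * v ≤ v ^ (1 / (b - 1)) * v := by gcongr
        _ = v ^ (b / (b - 1)) := by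
          rw [← Real.rpow_add_one hv0.ne']; congr 1; field_simp; ring
    have h4 : u * v * ‖y‖ ^ 2 ≤ 1 / τ ^ 2 * B := by
      calc u * v * ‖y‖ ^ 2 ≤ m ^ τ * ‖y‖ ^ 2 := by gcongr
        _ = 1 / τ ^ 2 * (m ^ τ * (τ ^ 2 * ‖y‖ ^ 2)) := by field_simp
        _ ≤ 1 / τ ^ 2 * B := by gcongr
    have h5 : α ^ 2 * ‖x‖ ^ 2 ≤ 2 * ‖w‖ ^ 2 + 1 / 2 * ‖y‖ ^ 2 := by
      have e1 : (α:ℂ) * x = w - ((1 / 2 : ℝ):ℂ) * y := by rw [hw]; ring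
      have e2 : ‖(α:ℂ) * x‖ = α * ‖x‖ := by
        rw [norm_mul, Complex.norm_real, Real.norm_of_nonneg hα.le]
      have e3 : ‖((1 / 2 : ℝ):ℂ) * y‖ = 1 / 2 * ‖y‖ := by
        rw [norm_mul, Complex.norm_real, Real.norm_of_nonneg (by norm_num)]
      have e4 : α * ‖x‖ ≤ ‖w‖ + 1 / 2 * ‖y‖ := by
        rw [← e2, e1, ← e3]; exact norm_sub_le _ _
      exact key_sq (by positivity) e4
    have q1 : 0 ≤ α * (X - ‖x‖ ^ 2) := mul_nonneg hα.le (sub_nonneg.mpr hq)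
    have q2 : 0 ≤ 1 / 2 * (‖g'‖ ^ 2 / m - ‖y‖ ^ 2) :=
      mul_nonneg (by norm_num) (sub_nonneg.mpr hq')
    have h6 : u * v * ‖w‖ ^ 2 ≤ Pr := by
      rw [hP]
      apply mul_le_mul_of_nonneg_left _ (by positivity)
      linarith only [q1, q2]
    have h7 : u * v * (X - ‖x‖ ^ 2) ≤ 1 / α * Pr := by
      have : u * v * (α * (X - ‖x‖ ^ 2)) ≤ Pr := by
        rw [hP]
        apply mul_le_mul_of_nonneg_left _ (by positivity)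
        have q3 : 0 ≤ ‖w‖ ^ 2 := by positivity
        linarith only [q1, q2, q3]
      calc u * v * (X - ‖x‖ ^ 2) = 1 / α * (u * v * (α * (X - ‖x‖ ^ 2))) := by field_simp
        _ ≤ 1 / α * Pr := by gcongr
    have h8 : u * v * ‖x‖ ^ 2 ≤ 2 / α ^ 2 * Pr + 1 / (2 * α ^ 2 * τ ^ 2) * B := by
      have huv : 0 ≤ u * v := by positivity
      calc u * v * ‖x‖ ^ 2 = 1 / α ^ 2 * (u * v * (α ^ 2 * ‖x‖ ^ 2)) := by field_simp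
        _ ≤ 1 / α ^ 2 * (u * v * (2 * ‖w‖ ^ 2 + 1 / 2 * ‖y‖ ^ 2)) := by gcongr
        _ = 1 / α ^ 2 * (2 * (u * v * ‖w‖ ^ 2) + 1 / 2 * (u * v * ‖y‖ ^ 2)) := by ring
        _ ≤ 1 / α ^ 2 * (2 * Pr + 1 / 2 * (1 / τ ^ 2 * B)) := by gcongr
        _ = 2 / α ^ 2 * Pr + 1 / (2 * α ^ 2 * τ ^ 2) * B := by field_simp
    have h9 : u * v * X = u * v * ‖x‖ ^ 2 + u * v * (X - ‖x‖ ^ 2) := by ring
    rw [h9]
    have h10 : u * v * ‖x‖ ^ 2 + u * v * (X - ‖x‖ ^ 2) ≤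
        (2 / α ^ 2 + 1 / α) * Pr + 1 / (2 * α ^ 2 * τ ^ 2) * B := by
      have : (2 / α ^ 2 + 1 / α) * Pr = 2 / α ^ 2 * Pr + 1 / α * Pr := by ring
      linarith only [this, h8, h7]
    exact key_real hc1 hc2 hc3 hA0 hB0 hP0 (Or.inr h10)

end Pool.Agent.H959.Ryab
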