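import Pool.Agent.H959.Ryab.Major

open Complex MeasureTheory Set Filter Topology Metric
open scoped Real ComplexConjugate

namespace Pool.Agent.H959.Ryab

/-- regularised `|F|^{p-2} conj F` with `β = (p-2)/2` -/
noncomputable def HH (β e : ℝ) (F : ℂ → ℂ) (z : ℂ) : ℂ := conj (F z) * ((nn e F z ^ β : ℝ) : ℂ)

noncomputable def HH12 (β e : ℝ) (F F' : ℂ → ℂ) (z : ℂ) : ℂ :=
  conj (F' z) * E1 β (nn e F z) (F z) (F' z) + conj (F z) * E12 β (nn e F z) (F z) (F' z)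

lemma W2_HH {ϱ : ℝ} {F F' : ℂ → ℂ} (h : Hol ϱ F F') {e : ℝ} (he : 0 < e) (β : ℝ) :
    ∃ H1 H2, W2 ϱ (HH β e F) H1 H2 (HH12 β e F F') := by
  have h1 := (W2.antihol h.d1 h.cont').mul (W2_pow h he β)
  refine ⟨_, _, h1.congr (fun z => rfl) (fun z => rfl) (fun z => rfl) ?_⟩
  intro z
  simp [HH12]

lemma norm_le_sqrt_nn {e : ℝ} (he : 0 < e) (F : ℂ → ℂ) (z : ℂ) :
    ‖F z‖ ≤ nn e F z ^ (1 / 2 : ℝ) := by
  rw [← Real.sqrt_eq_rpow]
  apply Real.le_sqrt_of_sq_le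
  unfold nn
  linarith

lemma HH_norm {β e : ℝ} (he : 0 < e) (F : ℂ → ℂ) (z : ℂ) :
    ‖HH β e F z‖ ≤ nn e F z ^ (β + 1 / 2) := by
  unfold HH
  have hn := nn_pos he F z
  rw [norm_mul, RCLike.norm_conj, Complex.norm_real, Real.norm_of_nonneg (by positivity),
    Real.rpow_add hn, mul_comm]
  gcongr
  exact norm_le_sqrt_nn he F z

lemma HH12_norm {β e : ℝ} (he : 0 < e) (F F' : ℂ → ℂ) (z : ℂ) :
    ‖HH12 β e F F' z‖ ≤ |β| * (2 + |β - 1|) *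
      (nn e F z ^ (β + 1 / 2) * (‖F' z‖ ^ 2 / nn e F z)) := by
  have hn := nn_pos he F z
  have hF := norm_le_sqrt_nn he F z
  have hFn : ‖F z‖ ^ 2 ≤ nn e F z := by unfold nn; linarith
  unfold HH12
  set n := nn e F z with hndef
  have h1 : ‖conj (F' z) * E1 β n (F z) (F' z)‖ ≤ |β| * (n ^ (β + 1 / 2) * (‖F' z‖ ^ 2 / n)) := by
    unfold E1
    rw [norm_mul, norm_mul, norm_mul, norm_mul, RCLike.norm_conj, RCLike.norm_conj,
      Complex.norm_real, Complex.norm_real,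
      Real.norm_of_nonneg (show 0 ≤ n ^ (β - 1) by positivity), Real.norm_eq_abs,
      rpow_sub_one' hn, Real.rpow_add hn]
    calc ‖F' z‖ * (|β| * (n ^ β * n⁻¹) * (‖F' z‖ * ‖F z‖))
        = |β| * (n ^ β * ‖F z‖ * (‖F' z‖ ^ 2 / n)) := by field_simp
      _ ≤ |β| * (n ^ β * n ^ (1 / 2 : ℝ) * (‖F' z‖ ^ 2 / n)) := by gcongr
  have h2 : ‖conj (F z) * E12 β n (F z) (F' z)‖ ≤
      |β| * (1 + |β - 1|) * (n ^ (β + 1 / 2) * (‖F' z‖ ^ 2 / n)) := by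
    rw [norm_mul, RCLike.norm_conj, E12_eq hn, Complex.norm_real, Real.norm_eq_abs, abs_mul,
      abs_of_pos (show 0 < n ^ β by positivity)]
    have hq : ‖F z‖ ^ 2 * ‖F' z‖ ^ 2 / n ^ 2 ≤ ‖F' z‖ ^ 2 / n := by
      rw [div_le_div_iff₀ (by positivity) hn]
      nlinarith [mul_le_mul_of_nonneg_right hFn (show 0 ≤ ‖F' z‖ ^ 2 * n by positivity)]
    have h3 : |β * (β - 1) * (‖F z‖ ^ 2 * ‖F' z‖ ^ 2 / n ^ 2) + β * (‖F' z‖ ^ 2 / n)| ≤
        |β| * (1 + |β - 1|) * (‖F' z‖ ^ 2 / n) := by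
      calc |β * (β - 1) * (‖F z‖ ^ 2 * ‖F' z‖ ^ 2 / n ^ 2) + β * (‖F' z‖ ^ 2 / n)|
          ≤ |β * (β - 1) * (‖F z‖ ^ 2 * ‖F' z‖ ^ 2 / n ^ 2)| + |β * (‖F' z‖ ^ 2 / n)| :=
            abs_add_le _ _
        _ = |β| * |β - 1| * (‖F z‖ ^ 2 * ‖F' z‖ ^ 2 / n ^ 2) + |β| * (‖F' z‖ ^ 2 / n) := by
            rw [abs_mul, abs_mul, abs_mul β, abs_of_nonneg (show 0 ≤ ‖F z‖ ^ 2 * ‖F' z‖ ^ 2 / n ^ 2
              by positivity), abs_of_nonneg (show 0 ≤ ‖F' z‖ ^ 2 / n by positivity)]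
        _ ≤ |β| * |β - 1| * (‖F' z‖ ^ 2 / n) + |β| * (‖F' z‖ ^ 2 / n) := by gcongr
        _ = |β| * (1 + |β - 1|) * (‖F' z‖ ^ 2 / n) := by ring
    rw [Real.rpow_add hn]
    calc ‖F z‖ * (n ^ β * |β * (β - 1) * (‖F z‖ ^ 2 * ‖F' z‖ ^ 2 / n ^ 2) + β * (‖F' z‖ ^ 2 / n)|)
        ≤ n ^ (1 / 2 : ℝ) * (n ^ β * (|β| * (1 + |β - 1|) * (‖F' z‖ ^ 2 / n))) := by gcongr
      _ = |β| * (1 + |β - 1|) * (n ^ β * n ^ (1 / 2 : ℝ) * (‖F' z‖ ^ 2 / n)) := by ring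
  refine (norm_add_le _ _).trans ((add_le_add h1 h2).trans (le_of_eq ?_))
  ring

lemma young_like {u v b : ℝ} (hu : 0 < u) (hv : 0 < v) (hb : 1 < b) :
    u * v ≤ u ^ b + v ^ (b / (b - 1)) := by
  have hb1 : 0 < b - 1 := by linarith
  rcases le_or_gt v (u ^ (b - 1)) with hcase | hcase
  · have : u * v ≤ u ^ b := by
      calc u * v ≤ u * u ^ (b - 1) := by gcongr
        _ = u ^ b := by
          rw [mul_comm, ← Real.rpow_add_one hu.ne']; congr 1; ring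
    have h2 : 0 ≤ v ^ (b / (b - 1)) := by positivity
    linarith
  · have h3 : u ≤ v ^ (1 / (b - 1)) := by
      have : (u ^ (b - 1)) ^ (1 / (b - 1)) ≤ v ^ (1 / (b - 1)) :=
        Real.rpow_le_rpow (by positivity) hcase.le (by positivity)
      rwa [← Real.rpow_mul hu.le, mul_one_div_cancel hb1.ne', Real.rpow_one] at this
    have h1 : u * v ≤ v ^ (b / (b - 1)) := by
      calc u * v ≤ v ^ (1 / (b - 1)) * v := by gcongr
        _ = v ^ (b / (b - 1)) := by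
          rw [← Real.rpow_add_one hv.ne']; congr 1; field_simp; ring
    have h2 : 0 ≤ u ^ b := by positivity
    linarith

/-- main bound for the pairing at radius `R < ϱ` -/
theorem pair_bound {β b : ℝ} (hβ : -(1 / 2) < β) (hb : 1 < b) : ∃ C : ℝ, 0 ≤ C ∧
    ∀ (ϱ e R : ℝ) (F F' g g' : ℂ → ℂ), 0 < e → 0 < R → R < ϱ → Hol ϱ F F' → Hol ϱ g g' →
    ‖∫ r in (0:ℝ)..R, (r:ℂ) * cm (fun z => HH β e F z * (g z + z * g' z)) r‖ ≤
      C * (R ^ 2 * ((cm (fun z => ((nn e F z ^ ((β + 1 / 2) * b) : ℝ) : ℂ)) R).re +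
        (cm (fun z => ((nn 1 g z ^ (b / (b - 1) / 2) : ℝ) : ℂ)) R).re)) := by
  have hα : 0 < β + 1 / 2 := by linarith
  obtain ⟨C, hC0, hC⟩ := key_ineq hα hb
  set α := β + 1 / 2 with hαdef
  set K := |β| * (2 + |β - 1|) * C with hK
  have hK0 : 0 ≤ K := by positivity
  refine ⟨1 + K, by positivity, ?_⟩
  intro ϱ e R F F' g g' he hR0 hR hF hg
  obtain ⟨H1, H2, hH⟩ := W2_HH hF he β
  have hRabs : |R| < ϱ := by rwa [abs_of_pos hR0]
  have hid := pairing_id hH hg.d1 hg.cont' hR0 hR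
  -- the majorant
  set σ := α * b with hσ
  set τ := b / (b - 1) / 2 with hτ
  have w1 := W2_pow hF he σ
  have w2 := W2_pow hg (zero_lt_one) τ
  have w3 := (W2_pow hF he α).mul (W2_pow hg (zero_lt_one) (1 / 2))
  have w := (w1.add w2).add w3
  have hgreen := green_re w ?_ hR0 hR
  swap
  · intro z _
    simp only [add_re, ofReal_re, mul_re, ofReal_im]
    have h1 := nn_pos he F z
    have h2 := nn_pos zero_lt_one g z
    have : 0 ≤ nn e F z ^ σ + nn 1 g z ^ τ + nn e F z ^ α * nn 1 g z ^ (1 / 2 : ℝ) := by positivity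
    simpa using this
  set Φ : ℂ → ℂ := (fun z => ((nn e F z ^ σ : ℝ) : ℂ) + ((nn 1 g z ^ τ : ℝ) : ℂ) +
    ((nn e F z ^ α : ℝ) : ℂ) * ((nn 1 g z ^ (1 / 2 : ℝ) : ℝ) : ℂ)) with hΦ
  set Φ12 : ℂ → ℂ := (fun z => E12 σ (nn e F z) (F z) (F' z) + E12 τ (nn 1 g z) (g z) (g' z) +
    P12 α (nn e F z) (F z) (F' z) (1 / 2) (nn 1 g z) (g z) (g' z)) with hΦ12
  have hgreen' : ∫ r in (0:ℝ)..R, ((R ^ 2 - r ^ 2) * (r * (cm Φ12 r).re)) ≤
      1 / 2 * (R ^ 2 * (cm Φ R).re) := hgreen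
  obtain ⟨wf, ⟨U11, ws⟩⟩ := w
  have hcΦ : ContinuousOn Φ (ball (0:ℂ) ϱ) := wf.cont
  have hcΦ12 : ContinuousOn Φ12 (ball (0:ℂ) ϱ) := ws.c2
  obtain ⟨hHf, ⟨H11, hHs⟩⟩ := hH
  -- bounds
  have hb12 : ∀ z ∈ ball (0:ℂ) ϱ, ‖HH12 β e F F' z * g z‖ ≤ ((K:ℂ) * Φ12 z).re := by
    intro z _
    have h1 := HH12_norm (β := β) he F F' z
    have h2 := norm_le_sqrt_nn (zero_lt_one) g z
    have h3 := hC e 1 (F z) (F' z) (g z) (g' z) he zero_lt_one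
    have hn := nn_pos he F z
    have hm := nn_pos zero_lt_one g z
    rw [norm_mul, re_ofReal_mul]
    have h4 : (Φ12 z).re = (E12 σ (‖F z‖ ^ 2 + e) (F z) (F' z)).re +
        (E12 τ (‖g z‖ ^ 2 + 1) (g z) (g' z)).re +
        (P12 α (‖F z‖ ^ 2 + e) (F z) (F' z) (1 / 2) (‖g z‖ ^ 2 + 1) (g z) (g' z)).re := by
      rw [hΦ12]
      simp only [add_re, nn]
    rw [h4]
    calc ‖HH12 β e F F' z‖ * ‖g z‖ ≤ (|β| * (2 + |β - 1|) *
          (nn e F z ^ α * (‖F' z‖ ^ 2 / nn e F z))) * nn 1 g z ^ (1 / 2 : ℝ) := by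
            gcongr
      _ = |β| * (2 + |β - 1|) * (nn e F z ^ α * nn 1 g z ^ (1 / 2 : ℝ) *
          (‖F' z‖ ^ 2 / nn e F z)) := by ring
      _ ≤ |β| * (2 + |β - 1|) * (C * ((E12 σ (‖F z‖ ^ 2 + e) (F z) (F' z)).re +
        (E12 τ (‖g z‖ ^ 2 + 1) (g z) (g' z)).re +
        (P12 α (‖F z‖ ^ 2 + e) (F z) (F' z) (1 / 2) (‖g z‖ ^ 2 + 1) (g z) (g' z)).re)) := by
            exact mul_le_mul_of_nonneg_left h3 (by positivity)
      _ = _ := by rw [hK]; ring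
  have hb0 : ∀ z ∈ ball (0:ℂ) ϱ, ‖HH β e F z * g z‖ ≤ (Φ z).re := by
    intro z _
    have h1 := HH_norm (β := β) he F z
    have h2 := norm_le_sqrt_nn (zero_lt_one) g z
    have hn := nn_pos he F z
    have hm := nn_pos zero_lt_one g z
    have h4 : (Φ z).re = nn e F z ^ σ + nn 1 g z ^ τ + nn e F z ^ α * nn 1 g z ^ (1 / 2 : ℝ) := by
      rw [hΦ]
      simp only [add_re, ofReal_re, re_ofReal_mul]
    rw [h4, norm_mul]
    have h5 : ‖HH β e F z‖ * ‖g z‖ ≤ nn e F z ^ α * nn 1 g z ^ (1 / 2 : ℝ) := by gcongr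
    have h6 : 0 ≤ nn e F z ^ σ := by positivity
    have h7 : 0 ≤ nn 1 g z ^ τ := by positivity
    linarith
  have hb2 : ∀ z ∈ ball (0:ℂ) ϱ, (Φ z).re ≤
      (2 * (((nn e F z ^ σ : ℝ) : ℂ) + ((nn 1 g z ^ τ : ℝ) : ℂ))).re := by
    intro z _
    have hn := nn_pos he F z
    have hm := nn_pos zero_lt_one g z
    have h4 : (Φ z).re = nn e F z ^ σ + nn 1 g z ^ τ + nn e F z ^ α * nn 1 g z ^ (1 / 2 : ℝ) := by
      rw [hΦ]
      simp only [add_re, ofReal_re, re_ofReal_mul]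
    have h5 : (2 * (((nn e F z ^ σ : ℝ) : ℂ) + ((nn 1 g z ^ τ : ℝ) : ℂ))).re =
        2 * (nn e F z ^ σ + nn 1 g z ^ τ) := by
      have : (2 * (((nn e F z ^ σ : ℝ) : ℂ) + ((nn 1 g z ^ τ : ℝ) : ℂ))) =
        ((2 * (nn e F z ^ σ + nn 1 g z ^ τ) : ℝ) : ℂ) := by push_cast; ring
      rw [this, ofReal_re]
    rw [h4, h5]
    have h6 := young_like (u := nn e F z ^ α) (v := nn 1 g z ^ (1 / 2 : ℝ)) (by positivity)
      (by positivity) hb
    rw [← Real.rpow_mul hn.le, ← Real.rpow_mul hm.le, ← hσ,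
      show (1 / 2 : ℝ) * (b / (b - 1)) = τ by rw [hτ]; ring] at h6
    linarith
  -- continuity for integrability
  have hcg : ContinuousOn g (ball (0:ℂ) ϱ) := hg.cont
  have hcA : ContinuousOn (fun z => HH β e F z * (g z + z * g' z)) (ball (0:ℂ) ϱ) :=
    hHf.cont.mul (hcg.add (continuousOn_id.mul hg.cont'))
  have hcB : ContinuousOn (fun z => HH12 β e F F' z * g z) (ball (0:ℂ) ϱ) := hHs.c2.mul hcg
  have hof : ∀ s : Set ℝ, ContinuousOn (fun r : ℝ => (r : ℂ)) s := fun s =>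
    continuous_ofReal.continuousOn
  have iA : IntervalIntegrable (fun r : ℝ => (r:ℂ) * cm (fun z => HH β e F z * (g z + z * g' z)) r)
      volume 0 R := by
    apply ContinuousOn.intervalIntegrable
    rw [uIcc_of_le hR0.le]
    exact (hof _).mul (cm_continuousOn hcA hR)
  have iB : IntervalIntegrable (fun r : ℝ => ((R:ℂ) ^ 2 - (r:ℂ) ^ 2) *
      (r * cm (fun z => HH12 β e F F' z * g z) r)) volume 0 R := by
    apply ContinuousOn.intervalIntegrable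
    rw [uIcc_of_le hR0.le]
    exact (continuousOn_const.sub ((hof _).pow 2)).mul ((hof _).mul (cm_continuousOn hcB hR))
  rw [intervalIntegral.integral_add iA iB] at hid
  have hid' := eq_sub_of_add_eq hid
  rw [hid']
  have hreΦ12 : ContinuousOn (fun r => (cm Φ12 r).re) (Icc 0 R) :=
    Complex.continuous_re.comp_continuousOn (cm_continuousOn hcΦ12 hR)
  have n1 : ‖∫ r in (0:ℝ)..R, ((R:ℂ) ^ 2 - (r:ℂ) ^ 2) *
      (r * cm (fun z => HH12 β e F F' z * g z) r)‖ ≤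
      K * (1 / 2 * (R ^ 2 * (cm Φ R).re)) := by
    refine le_trans ?_ (mul_le_mul_of_nonneg_left hgreen' hK0)
    rw [← intervalIntegral.integral_const_mul]
    apply intervalIntegral.norm_integral_le_of_norm_le hR0.le
    · refine Eventually.of_forall fun r hr => ?_
      have hr1 : |r| < ϱ := by rw [abs_of_pos hr.1]; exact lt_of_le_of_lt hr.2 hR
      have h1 := cm_norm_le (U := fun z => HH12 β e F F' z * g z) (V := fun z => (K:ℂ) * Φ12 z)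
        (continuousOn_const.mul hcΦ12) hr1 hb12
      rw [cm_smul, re_ofReal_mul] at h1
      have h2 : ‖(R:ℂ) ^ 2 - (r:ℂ) ^ 2‖ = R ^ 2 - r ^ 2 := by
        have : (R:ℂ) ^ 2 - (r:ℂ) ^ 2 = ((R ^ 2 - r ^ 2 : ℝ) : ℂ) := by push_cast; ring
        rw [this, Complex.norm_real, Real.norm_of_nonneg]
        nlinarith [hr.1, hr.2]
      rw [norm_mul, norm_mul, h2, Complex.norm_real, Real.norm_of_nonneg hr.1.le]
      have h3 : 0 ≤ R ^ 2 - r ^ 2 := by nlinarith [hr.1, hr.2]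
      have hr0 := hr.1.le
      calc (R ^ 2 - r ^ 2) * (r * ‖cm (fun z => HH12 β e F F' z * g z) r‖)
          ≤ (R ^ 2 - r ^ 2) * (r * (K * (cm Φ12 r).re)) := by gcongr
        _ = K * ((R ^ 2 - r ^ 2) * (r * (cm Φ12 r).re)) := by ring
    · apply ContinuousOn.intervalIntegrable
      rw [uIcc_of_le hR0.le]
      fun_prop
  have n2 : ‖1 / 2 * (R:ℂ) ^ 2 * cm (fun z => HH β e F z * g z) R‖ ≤
      1 / 2 * (R ^ 2 * (cm Φ R).re) := by
    have h1 := cm_norm_le (U := fun z => HH β e F z * g z) (V := Φ) hcΦ hRabs hb0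
    have h2 : ‖(1 / 2 * (R:ℂ) ^ 2 : ℂ)‖ = 1 / 2 * R ^ 2 := by
      have : (1 / 2 * (R:ℂ) ^ 2 : ℂ) = ((1 / 2 * R ^ 2 : ℝ) : ℂ) := by push_cast; ring
      rw [this, Complex.norm_real, Real.norm_of_nonneg (by positivity)]
    rw [norm_mul, h2]
    calc 1 / 2 * R ^ 2 * ‖cm (fun z => HH β e F z * g z) R‖ ≤ 1 / 2 * R ^ 2 * (cm Φ R).re := by
          gcongr
      _ = _ := by ring
  have hsum : ContinuousOn (fun z => 2 * (((nn e F z ^ σ : ℝ) : ℂ) + ((nn 1 g z ^ τ : ℝ) : ℂ)))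
      (ball (0:ℂ) ϱ) := continuousOn_const.mul (w1.fst.cont.add w2.fst.cont)
  have n3 : (cm Φ R).re ≤ 2 * ((cm (fun z => ((nn e F z ^ σ : ℝ) : ℂ)) R).re +
      (cm (fun z => ((nn 1 g z ^ τ : ℝ) : ℂ)) R).re) := by
    have h1 := cm_re_mono hcΦ hsum hRabs hb2
    rw [cm_smul, cm_add w1.fst.cont w2.fst.cont hRabs] at h1
    have h2 : (2 * (cm (fun z => ((nn e F z ^ σ : ℝ) : ℂ)) R +
      cm (fun z => ((nn 1 g z ^ τ : ℝ) : ℂ)) R)).re = 2 * ((cm (fun z => ((nn e F z ^ σ : ℝ) : ℂ)) R).re +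
      (cm (fun z => ((nn 1 g z ^ τ : ℝ) : ℂ)) R).re) := by
      rw [show (2:ℂ) = ((2:ℝ):ℂ) by norm_num, re_ofReal_mul, add_re]
    rw [h2] at h1
    exact h1
  calc _ ≤ 1 / 2 * (R ^ 2 * (cm Φ R).re) + K * (1 / 2 * (R ^ 2 * (cm Φ R).re)) :=
        (norm_sub_le _ _).trans (add_le_add n2 n1)
    _ = (1 + K) * (1 / 2 * R ^ 2) * (cm Φ R).re := by ring
    _ ≤ (1 + K) * (1 / 2 * R ^ 2) * (2 * ((cm (fun z => ((nn e F z ^ σ : ℝ) : ℂ)) R).re +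
      (cm (fun z => ((nn 1 g z ^ τ : ℝ) : ℂ)) R).re)) := by gcongr
    _ = _ := by ring

end Pool.Agent.H959.Ryab
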