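import Pool.Agent.H959.Ryab.Riesz

open Complex MeasureTheory Set Filter Topology Metric
open scoped Real ComplexConjugate

namespace Pool.Agent.H959.Ryab

lemma polar_symm_eq (p : ℝ × ℝ) : Complex.polarCoord.symm p = pt p.1 p.2 := by
  rw [Complex.polarCoord_symm_apply]
  unfold pt
  rw [Complex.exp_mul_I]
  simp

/-- area integral over a disc in polar coordinates -/
lemma ball_polar {ϱ : ℝ} {U : ℂ → ℂ} (hU : ContinuousOn U (ball (0:ℂ) ϱ)) {R : ℝ} (hR0 : 0 < R)
    (hR : R < ϱ) : ∫ z in ball (0:ℂ) R, U z = ∫ r in (0:ℝ)..R, (r:ℂ) * cm U r := by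
  have hcont : ContinuousOn (fun p : ℝ × ℝ => (p.1 : ℂ) * U (pt p.1 p.2))
      (Icc 0 R ×ˢ Icc (-π) π) := by
    apply ContinuousOn.mul
    · fun_prop
    · refine hU.comp continuous_pt.continuousOn ?_
      intro p hp
      simp only [mem_ball_zero_iff, norm_pt]
      rw [abs_of_nonneg hp.1.1]
      exact lt_of_le_of_lt hp.1.2 hR
  have hint : IntegrableOn (fun p : ℝ × ℝ => (p.1 : ℂ) * U (pt p.1 p.2))
      (Ioc 0 R ×ˢ Ioc (-π) π) (volume.prod volume) := by
    refine (hcont.integrableOn_compact (μ := (volume : Measure (ℝ × ℝ)))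
      (isCompact_Icc.prod isCompact_Icc)).mono_set ?_
    exact prod_mono Ioc_subset_Icc_self Ioc_subset_Icc_self
  rw [← integral_indicator measurableSet_ball, ← Complex.integral_comp_polarCoord_symm]
  have h1 : ∫ p in polarCoord.target, p.1 • (ball (0:ℂ) R).indicator U (Complex.polarCoord.symm p)
      = ∫ p in Ioo 0 R ×ˢ Ioo (-π) π, (p.1 : ℂ) * U (pt p.1 p.2) := by
    rw [← integral_indicator (by
        rw [polarCoord_target]; exact measurableSet_Ioi.prod measurableSet_Ioo),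
      ← integral_indicator (measurableSet_Ioo.prod measurableSet_Ioo)]
    congr 1
    funext p
    by_cases hp : p ∈ polarCoord.target
    · rw [indicator_of_mem hp, polar_symm_eq]
      rw [polarCoord_target] at hp
      by_cases hp2 : p.1 < R
      · have h3 : pt p.1 p.2 ∈ ball (0:ℂ) R := by
          simp only [mem_ball_zero_iff, norm_pt]
          rw [abs_of_pos hp.1]; exact hp2
        rw [indicator_of_mem h3, indicator_of_mem (show p ∈ Ioo 0 R ×ˢ Ioo (-π) π from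
          ⟨⟨hp.1, hp2⟩, hp.2⟩)]
        simp
      · have h3 : pt p.1 p.2 ∉ ball (0:ℂ) R := by
          simp only [mem_ball_zero_iff, norm_pt]
          rw [abs_of_pos hp.1]; exact hp2
        rw [indicator_of_notMem h3, indicator_of_notMem (fun h => hp2 h.1.2)]
        simp
    · rw [indicator_of_notMem hp, indicator_of_notMem]
      intro h
      apply hp
      rw [polarCoord_target]
      exact ⟨h.1.1, h.2⟩
  rw [h1]
  have h2 : ∫ p in Ioo 0 R ×ˢ Ioo (-π) π, (p.1 : ℂ) * U (pt p.1 p.2) =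
      ∫ p in Ioc 0 R ×ˢ Ioc (-π) π, (p.1 : ℂ) * U (pt p.1 p.2) := by
    apply setIntegral_congr_set
    rw [Measure.volume_eq_prod]
    exact Measure.set_prod_ae_eq Ioo_ae_eq_Ioc Ioo_ae_eq_Ioc
  rw [h2, Measure.volume_eq_prod, setIntegral_prod _ hint,
    intervalIntegral.integral_of_le hR0.le]
  apply setIntegral_congr_fun measurableSet_Ioc
  intro r _
  simp only
  unfold cm
  rw [intervalIntegral.integral_of_le (by linarith [Real.pi_pos]), ← integral_const_mul]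

/-- exhausting the unit disc -/
lemma ball_limit {Φ : ℂ → ℂ} (h : IntegrableOn Φ (ball (0:ℂ) 1)) :
    Tendsto (fun n : ℕ => ∫ z in ball (0:ℂ) (1 - 1 / ((n:ℝ) + 2)), Φ z) atTop
      (𝓝 (∫ z in ball (0:ℂ) 1, Φ z)) := by
  have hU : (⋃ n : ℕ, ball (0:ℂ) (1 - 1 / ((n:ℝ) + 2))) = ball (0:ℂ) 1 := by
    apply Subset.antisymm
    · refine iUnion_subset fun n => ball_subset_ball ?_
      have : 0 ≤ 1 / ((n:ℝ) + 2) := by positivity
      linarith
    · intro z hz
      rw [mem_ball_zero_iff] at hz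
      obtain ⟨n, hn⟩ := exists_nat_gt (1 / (1 - ‖z‖))
      rw [mem_iUnion]
      refine ⟨n, ?_⟩
      rw [mem_ball_zero_iff]
      have h1 : 0 < 1 - ‖z‖ := by linarith
      have h2 : 1 / ((n:ℝ) + 2) < 1 - ‖z‖ := by
        rw [div_lt_iff₀ (by positivity)]
        rw [div_lt_iff₀ h1] at hn
        nlinarith
      linarith
  have h0 := tendsto_setIntegral_of_monotone (μ := volume) (f := Φ)
    (s := fun n : ℕ => ball (0:ℂ) (1 - 1 / ((n:ℝ) + 2))) (fun n => measurableSet_ball) ?_ ?_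
  · rw [hU] at h0
    exact h0
  · intro m n hmn
    apply ball_subset_ball
    have : (m:ℝ) ≤ n := by exact_mod_cast hmn
    gcongr
  · rw [hU]; exact h

lemma ball_norm_le {Φ : ℂ → ℂ} (h : IntegrableOn Φ (ball (0:ℂ) 1)) {B : ℝ}
    (hB : ∀ R : ℝ, 0 < R → R < 1 → ‖∫ z in ball (0:ℂ) R, Φ z‖ ≤ B) :
    ‖∫ z in ball (0:ℂ) 1, Φ z‖ ≤ B := by
  refine le_of_tendsto (ball_limit h).norm (Eventually.of_forall fun n => ?_)
  have h1 : (0:ℝ) < 1 / ((n:ℝ) + 2) := by positivity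
  have h2 : 1 / ((n:ℝ) + 2) < 1 := by
    rw [div_lt_one (by positivity)]; linarith [(Nat.cast_nonneg n : (0:ℝ) ≤ n)]
  exact hB _ (by linarith) (by linarith)

/-- `|F|^{2β} conj F` -/
noncomputable def H0 (β : ℝ) (F : ℂ → ℂ) (z : ℂ) : ℂ := conj (F z) * ((‖F z‖ ^ (2 * β) : ℝ) : ℂ)

lemma HH_tendsto (β : ℝ) (F : ℂ → ℂ) (z : ℂ) :
    Tendsto (fun n : ℕ => HH β (1 / ((n:ℝ) + 1)) F z) atTop (𝓝 (H0 β F z)) := by
  unfold HH H0
  by_cases hF : F z = 0
  · simp [hF]
  · apply Tendsto.const_mul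
    have h1 : Tendsto (fun n : ℕ => nn (1 / ((n:ℝ) + 1)) F z) atTop (𝓝 (‖F z‖ ^ 2)) := by
      unfold nn
      have := (tendsto_const_nhds (x := ‖F z‖ ^ 2)).add
        (tendsto_one_div_add_atTop_nhds_zero_nat (𝕜 := ℝ))
      simpa using this
    have h2 : 0 < ‖F z‖ ^ 2 := by positivity
    have h3 : (‖F z‖ ^ (2 * β) : ℝ) = (‖F z‖ ^ 2) ^ β := by
      rw [Real.rpow_mul (norm_nonneg _)]
      norm_num
    rw [h3]
    exact (continuous_ofReal.tendsto _).comp (h1.rpow_const (Or.inl h2.ne'))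

/-- full pairing estimate on the unit disc -/
theorem pair_full {β b : ℝ} (hβ : -(1 / 2) < β) (hb : 1 < b) : ∃ C : ℝ, 0 ≤ C ∧
    ∀ (A B : ℝ) (F F' g g' : ℂ → ℂ), Hol 1 F F' → Hol 1 g g' →
    (∀ R : ℝ, 0 < R → R < 1 → (cm (fun z => ((nn 1 F z ^ ((β + 1 / 2) * b) : ℝ) : ℂ)) R).re ≤ A) →
    (∀ R : ℝ, 0 < R → R < 1 → (cm (fun z => ((nn 1 g z ^ (b / (b - 1) / 2) : ℝ) : ℂ)) R).re ≤ B) →
    IntegrableOn (fun z => H0 β F z * (g z + z * g' z)) (ball (0:ℂ) 1) →
    ‖∫ z in ball (0:ℂ) 1, H0 β F z * (g z + z * g' z)‖ ≤ C * (A + B) := by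
  obtain ⟨C, hC0, hC⟩ := pair_bound hβ hb
  refine ⟨C, hC0, ?_⟩
  intro A B F F' g g' hF hg hA hB hint
  apply ball_norm_le hint
  intro R hR0 hR
  have hRabs : |R| < 1 := by rwa [abs_of_pos hR0]
  have hσ : 0 < (β + 1 / 2) * b := by
    have : 0 < β + 1 / 2 := by linarith
    have : 0 < b := by linarith
    positivity
  have hcg : ContinuousOn (fun z => g z + z * g' z) (ball (0:ℂ) 1) :=
    hg.cont.add (continuousOn_id.mul hg.cont')
  -- limit in e
  have hcH : ∀ e : ℝ, 0 < e → ContinuousOn (fun z => HH β e F z * (g z + z * g' z))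
      (ball (0:ℂ) 1) := by
    intro e he
    obtain ⟨H1, H2, hH⟩ := W2_HH hF he β
    exact hH.fst.cont.mul hcg
  have hlim : Tendsto (fun n : ℕ => ∫ z in ball (0:ℂ) R,
      HH β (1 / ((n:ℝ) + 1)) F z * (g z + z * g' z)) atTop
      (𝓝 (∫ z in ball (0:ℂ) R, H0 β F z * (g z + z * g' z))) := by
    obtain ⟨K1, hK1⟩ := bound_ball (contOn_rpow (W2_nn hF 1).fst.cont
      (nn_pos zero_lt_one F) (β + 1 / 2)) hR
    obtain ⟨K2, hK2⟩ := bound_ball hcg hR
    apply tendsto_integral_of_dominated_convergence (fun _ => K1 * K2)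
    · intro n
      have hn : (0:ℝ) < 1 / ((n:ℝ) + 1) := by positivity
      exact ((hcH _ hn).mono (ball_subset_ball hR.le)).aestronglyMeasurable measurableSet_ball
    · exact integrableOn_const measure_ball_lt_top.ne
    · intro n
      refine (ae_restrict_mem measurableSet_ball).mono fun z hz => ?_
      rw [mem_ball_zero_iff] at hz
      have hn : (0:ℝ) < 1 / ((n:ℝ) + 1) := by positivity
      have hn1 : 1 / ((n:ℝ) + 1) ≤ 1 := by
        rw [div_le_one (by positivity)]; linarith [(Nat.cast_nonneg n : (0:ℝ) ≤ n)]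
      rw [norm_mul]
      have h1 := HH_norm (β := β) hn F z
      have h2 : nn (1 / ((n:ℝ) + 1)) F z ^ (β + 1 / 2) ≤ nn 1 F z ^ (β + 1 / 2) := by
        apply Real.rpow_le_rpow (nn_pos hn F z).le _ (by linarith)
        unfold nn; linarith
      have h3 := hK1 z hz.le
      rw [Complex.norm_real, Real.norm_of_nonneg
        (Real.rpow_nonneg (nn_pos zero_lt_one F z).le _)] at h3
      have h4 := hK2 z hz.le
      exact mul_le_mul ((h1.trans h2).trans h3) h4 (norm_nonneg _)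
        (le_trans (norm_nonneg _) ((h1.trans h2).trans h3))
    · refine Eventually.of_forall fun z => ?_
      exact (HH_tendsto β F z).mul_const _
  refine le_of_tendsto hlim.norm (Eventually.of_forall fun n => ?_)
  have hn : (0:ℝ) < 1 / ((n:ℝ) + 1) := by positivity
  have hn1 : 1 / ((n:ℝ) + 1) ≤ 1 := by
    rw [div_le_one (by positivity)]; linarith [(Nat.cast_nonneg n : (0:ℝ) ≤ n)]
  rw [ball_polar (hcH _ hn) hR0 hR]
  have h1 := hC 1 (1 / ((n:ℝ) + 1)) R F F' g g' hn hR0 hR hF hg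
  refine h1.trans ?_
  apply mul_le_mul_of_nonneg_left _ hC0
  have h2 : (cm (fun z => ((nn (1 / ((n:ℝ) + 1)) F z ^ ((β + 1 / 2) * b) : ℝ) : ℂ)) R).re ≤ A := by
    refine le_trans ?_ (hA R hR0 hR)
    apply cm_re_mono (W2_pow hF hn _).fst.cont (W2_pow hF zero_lt_one _).fst.cont hRabs
    intro z _
    rw [ofReal_re, ofReal_re]
    apply Real.rpow_le_rpow (nn_pos hn F z).le _ hσ.le
    unfold nn; linarith
  have h3 := hB R hR0 hR
  have h4 : 0 ≤ (cm (fun z => ((nn (1 / ((n:ℝ) + 1)) F z ^ ((β + 1 / 2) * b) : ℝ) : ℂ)) R).re :=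
    cm_re_nonneg (W2_pow hF hn _).fst.cont hRabs (fun z _ => by
      rw [ofReal_re]; exact Real.rpow_nonneg (nn_pos hn F z).le _)
  have h5 : 0 ≤ (cm (fun z => ((nn 1 g z ^ (b / (b - 1) / 2) : ℝ) : ℂ)) R).re :=
    cm_re_nonneg (W2_pow hg zero_lt_one _).fst.cont hRabs (fun z _ => by
      rw [ofReal_re]; exact Real.rpow_nonneg (nn_pos zero_lt_one g z).le _)
  have h6 : R ^ 2 ≤ 1 := by nlinarith
  calc R ^ 2 * _ ≤ 1 * _ := mul_le_mul_of_nonneg_right h6 (add_nonneg h4 h5)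
    _ ≤ A + B := by rw [one_mul]; exact add_le_add h2 h3

end Pool.Agent.H959.Ryab
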