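import Pool.Agent.H959.Ryab.Pair

open Complex MeasureTheory Set Filter Topology Metric
open scoped Real ComplexConjugate

namespace Pool.Agent.H959.Ryab

lemma cm_zero (U : ℂ → ℂ) : cm U 0 = (2 * π : ℝ) * U 0 := by
  unfold cm pt
  simp only [ofReal_zero, zero_mul, intervalIntegral.integral_const, real_smul]
  push_cast
  ring

lemma cancel_aux {κ σ w x y : ℝ} (hκ : κ ≠ 0) :
    σ * (x * w⁻¹ * y) = 1 / κ * (σ * (x * ((κ * (1 / w)) * y))) := by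
  field_simp

/-- comparison principle -/
lemma compare {ϱ : ℝ} {U U1 U2 U12 V V1 V2 V12 : ℂ → ℂ} (hU : W2 ϱ U U1 U2 U12)
    (hV : W2 ϱ V V1 V2 V12) (K : ℝ)
    (h12 : ∀ z ∈ ball (0:ℂ) ϱ, (U12 z).re ≤ K * (V12 z).re) (h0 : (U 0).re ≤ K * (V 0).re)
    {R : ℝ} (hR0 : 0 ≤ R) (hR : R < ϱ) : (cm U R).re ≤ K * (cm V R).re := by
  have w := (hV.smul (K:ℂ)).add (hU.smul (-1))
  have h1 := cm_mono w ?_ le_rfl hR0 hR
  swap
  · intro z hz
    have := h12 z hz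
    simp only [add_re, re_ofReal_mul, neg_mul, one_mul, neg_re]
    linarith
  have hRabs : |R| < ϱ := by rwa [abs_of_nonneg hR0]
  have hcV : ContinuousOn (fun z => (K:ℂ) * V z) (ball (0:ℂ) ϱ) :=
    continuousOn_const.mul hV.fst.cont
  have hcU : ContinuousOn (fun z => (-1:ℂ) * U z) (ball (0:ℂ) ϱ) :=
    continuousOn_const.mul hU.fst.cont
  rw [cm_zero, cm_add hcV hcU hRabs, cm_smul, cm_smul, re_ofReal_mul] at h1
  have h2 : (K * cm V R + -1 * cm U R).re = K * (cm V R).re - (cm U R).re := by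
    rw [add_re, re_ofReal_mul]; simp; ring
  have h3 : (K * V 0 + -1 * U 0).re = K * (V 0).re - (U 0).re := by
    rw [add_re, re_ofReal_mul]; simp; ring
  rw [h2, h3] at h1
  have h4 : 0 ≤ 2 * π * (K * (V 0).re - (U 0).re) := by
    have := Real.pi_pos
    have : 0 ≤ K * (V 0).re - (U 0).re := by linarith
    positivity
  linarith

/-- `(Re f)² + 1` -/
noncomputable def ww (f : ℂ → ℂ) (z : ℂ) : ℝ := (f z).re ^ 2 + 1

lemma ww_pos (f : ℂ → ℂ) (z : ℂ) : 0 < ww f z := by unfold ww; positivity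

lemma ww_le (f : ℂ → ℂ) (z : ℂ) : ww f z ≤ nn 1 f z := by
  unfold ww nn
  have : |(f z).re| ≤ ‖f z‖ := Complex.abs_re_le_norm _
  have h2 : (f z).re ^ 2 ≤ ‖f z‖ ^ 2 := by
    rw [← sq_abs]; gcongr
  linarith

lemma W2_ww {ϱ : ℝ} {f f' : ℂ → ℂ} (h : Hol ϱ f f') :
    W2 ϱ (fun z => ((ww f z : ℝ) : ℂ)) (fun z => ((f z).re : ℂ) * f' z)
      (fun z => ((f z).re : ℂ) * conj (f' z)) (fun z => 1 / 2 * (f' z * conj (f' z))) := by
  have hu : W2 ϱ (fun z => ((f z).re : ℂ)) (fun z => 1 / 2 * f' z) (fun z => 1 / 2 * conj (f' z))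
      (fun _ => 0) := by
    have := (h.w2.add (W2.antihol h.d1 h.cont')).smul (1 / 2)
    refine this.congr ?_ ?_ ?_ ?_
    · intro z
      rw [Complex.re_eq_add_conj]; ring
    all_goals
      intro z
      simp
  have h1 := (hu.mul hu).add (W2.const ϱ 1)
  refine h1.congr ?_ ?_ ?_ ?_
  · intro z
    unfold ww
    push_cast
    ring
  · intro z
    ring
  · intro z
    ring
  · intro z
    ring

lemma ww12_re (f f' : ℂ) (w σ : ℝ) (hw : 0 < w) :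
    (((σ:ℂ) * ((σ:ℂ) - 1) * ((w ^ (σ - 1 - 1) : ℝ) : ℂ) * ((((f.re : ℂ)) * f') * ((f.re : ℂ) * conj f'))
      + σ * ((w ^ (σ - 1) : ℝ) : ℂ) * (1 / 2 * (f' * conj f')))).re =
    σ * (w ^ σ * (((σ - 1) * (f.re ^ 2 / w ^ 2) + 1 / (2 * w)) * ‖f'‖ ^ 2)) := by
  have : (((σ:ℂ) * ((σ:ℂ) - 1) * ((w ^ (σ - 1 - 1) : ℝ) : ℂ) * ((((f.re : ℂ)) * f') * ((f.re : ℂ) * conj f'))
      + σ * ((w ^ (σ - 1) : ℝ) : ℂ) * (1 / 2 * (f' * conj f')))) =
      ((σ * (w ^ σ * (((σ - 1) * (f.re ^ 2 / w ^ 2) + 1 / (2 * w)) * ‖f'‖ ^ 2)) : ℝ) : ℂ) := by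
    rw [show (((f.re : ℂ)) * f') * ((f.re : ℂ) * conj f') = (f.re : ℂ) ^ 2 * (f' * conj f') by ring,
      mul_conj_norm, rpow_sub_one' hw, rpow_sub_one' hw]
    have hw' : (w : ℂ) ≠ 0 := by exact_mod_cast hw.ne'
    push_cast
    field_simp
  rw [this, ofReal_re]

lemma E12_re_nonneg {e : ℝ} (he : 0 < e) {α : ℝ} (hα : 0 ≤ α) (F F' : ℂ) :
    0 ≤ (E12 α (‖F‖ ^ 2 + e) F F').re := by
  rcases hα.eq_or_lt with h | h
  · rw [← h]
    simp [E12]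
  · refine le_trans ?_ (E12_re_lower he h F F')
    have : 0 < min (α ^ 2) α := lt_min (by positivity) h
    positivity

/-- M. Riesz inequality, exponent `a = 2σ ≤ 2` -/
lemma riesz_low {σ : ℝ} (h1 : 1 / 2 < σ) (h2 : σ ≤ 1) {f f' : ℂ → ℂ} {ϱ : ℝ} (hf : Hol ϱ f f')
    (h0 : (f 0).im = 0) {R : ℝ} (hR0 : 0 ≤ R) (hR : R < ϱ) :
    (cm (fun z => ((nn 1 f z ^ σ : ℝ) : ℂ)) R).re ≤
      1 / (σ - 1 / 2) * (cm (fun z => ((ww f z ^ σ : ℝ) : ℂ)) R).re := by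
  have hK : 0 < σ - 1 / 2 := by linarith
  have hσ : 0 < σ := by linarith
  refine compare (W2_pow hf zero_lt_one σ) ((W2_ww hf).rpow (ww_pos f) σ) _ ?_ ?_ hR0 hR
  · intro z _
    have e1 := E12_re_upper zero_lt_one hσ (f z) (f' z)
    have e2 := ww12_re (f z) (f' z) (ww f z) σ (ww_pos f z)
    have hw := ww_pos f z
    have hn := nn_pos zero_lt_one f z
    have hwn := ww_le f z
    have hu : (f z).re ^ 2 ≤ ww f z := by unfold ww; linarith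
    rw [max_eq_right (by nlinarith)] at e1
    refine e1.trans ?_
    rw [e2]
    change nn 1 f z ^ σ * (σ * (‖f' z‖ ^ 2 / nn 1 f z)) ≤ _
    set n := nn 1 f z
    set w := ww f z
    have h3 : (σ - 1 / 2) * (1 / w) ≤ (σ - 1) * ((f z).re ^ 2 / w ^ 2) + 1 / (2 * w) := by
      have : (f z).re ^ 2 / w ^ 2 ≤ 1 / w := by
        rw [div_le_div_iff₀ (by positivity) hw]
        nlinarith
      have h4 : (1 - σ) * ((f z).re ^ 2 / w ^ 2) ≤ (1 - σ) * (1 / w) :=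
        mul_le_mul_of_nonneg_left this (by linarith)
      have h5 : 1 / (2 * w) = 1 / 2 * (1 / w) := by field_simp
      rw [h5]
      linarith
    have h6 : n ^ σ * n⁻¹ ≤ w ^ σ * w⁻¹ := by
      rw [← rpow_sub_one' hn, ← rpow_sub_one' hw]
      exact Real.rpow_le_rpow_of_nonpos hw hwn (by linarith)
    calc n ^ σ * (σ * (‖f' z‖ ^ 2 / n)) = σ * (n ^ σ * n⁻¹ * ‖f' z‖ ^ 2) := by
          field_simp
      _ ≤ σ * (w ^ σ * w⁻¹ * ‖f' z‖ ^ 2) := by gcongr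
      _ = 1 / (σ - 1 / 2) * (σ * (w ^ σ * (((σ - 1 / 2) * (1 / w)) * ‖f' z‖ ^ 2))) :=
          cancel_aux hK.ne'
      _ ≤ 1 / (σ - 1 / 2) * (σ * (w ^ σ * (((σ - 1) * ((f z).re ^ 2 / w ^ 2) + 1 / (2 * w))
          * ‖f' z‖ ^ 2))) := by gcongr
  · have h3 : nn 1 f 0 = ww f 0 := by
      unfold nn ww
      rw [← Complex.normSq_eq_norm_sq, Complex.normSq_apply, h0]; ring
    simp only [ofReal_re]
    rw [h3]
    have h4 : 0 < ww f 0 ^ σ := Real.rpow_pos_of_pos (ww_pos f 0) _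
    have h5 : 1 ≤ 1 / (σ - 1 / 2) := by
      rw [le_div_iff₀ hK]; linarith
    nlinarith

lemma prod_split {σ η n w : ℝ} (hσ : 1 ≤ σ) (hη : 0 < η) (hn : 0 < n) (hw : 0 < w) :
    n ^ (σ - 1) * w ≤ η * n ^ σ + η ^ (1 - σ) * w ^ σ := by
  rcases le_or_gt w (η * n) with h | h
  · have h1 : n ^ (σ - 1) * w ≤ η * n ^ σ := by
      calc n ^ (σ - 1) * w ≤ n ^ (σ - 1) * (η * n) := by gcongr
        _ = η * (n ^ (σ - 1) * n) := by ring
        _ = η * n ^ σ := by rw [← Real.rpow_add_one hn.ne']; congr 2; ring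
    have h2 : 0 ≤ η ^ (1 - σ) * w ^ σ := by positivity
    linarith
  · have h1 : n ≤ w / η := by rw [le_div_iff₀ hη]; linarith
    have h2 : n ^ (σ - 1) ≤ (w / η) ^ (σ - 1) := Real.rpow_le_rpow hn.le h1 (by linarith)
    have h3 : n ^ (σ - 1) * w ≤ η ^ (1 - σ) * w ^ σ := by
      calc n ^ (σ - 1) * w ≤ (w / η) ^ (σ - 1) * w := by gcongr
        _ = η ^ (1 - σ) * (w ^ (σ - 1) * w) := by
          rw [Real.div_rpow hw.le hη.le, show (1 - σ) = -(σ - 1) by ring, Real.rpow_neg hη.le]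
          field_simp
        _ = η ^ (1 - σ) * w ^ σ := by rw [← Real.rpow_add_one hw.ne']; congr 2; ring
    have h4 : 0 ≤ η * n ^ σ := by positivity
    linarith

/-- M. Riesz inequality, exponent `a = 2σ ≥ 2` -/
lemma riesz_high {σ : ℝ} (h1 : 1 ≤ σ) {f f' : ℂ → ℂ} {ϱ : ℝ} (hf : Hol ϱ f f')
    (h0 : (f 0).im = 0) {R : ℝ} (hR0 : 0 ≤ R) (hR : R < ϱ) :
    (cm (fun z => ((nn 1 f z ^ σ : ℝ) : ℂ)) R).re ≤
      4 * σ ^ 2 * (1 / (4 * σ ^ 2)) ^ (1 - σ) *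
        (cm (fun z => ((ww f z ^ σ : ℝ) : ℂ)) R).re := by
  have hσ : 0 < σ := by linarith
  have w3 := (W2_pow hf zero_lt_one (σ - 1)).mul (W2_ww hf)
  have w1 := W2_pow hf zero_lt_one σ
  have w2 := (W2_ww hf).rpow (ww_pos f) σ
  have hRabs : |R| < ϱ := by rwa [abs_of_nonneg hR0]
  have key := compare w1 w3 (2 * σ ^ 2) ?_ ?_ hR0 hR
  · -- pointwise splitting
    set η := 1 / (4 * σ ^ 2) with hη
    have hη0 : 0 < η := by positivity
    have h2 : (cm (fun z => ((nn 1 f z ^ (σ - 1) : ℝ) : ℂ) * ((ww f z : ℝ) : ℂ)) R).re ≤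
        (cm (fun z => (η:ℂ) * ((nn 1 f z ^ σ : ℝ) : ℂ) +
          ((η ^ (1 - σ) : ℝ) : ℂ) * ((ww f z ^ σ : ℝ) : ℂ)) R).re := by
      apply cm_re_mono w3.fst.cont ((continuousOn_const.mul w1.fst.cont).add
        (continuousOn_const.mul w2.fst.cont)) hRabs
      intro z _
      have := prod_split h1 hη0 (nn_pos zero_lt_one f z) (ww_pos f z)
      simpa [re_ofReal_mul] using this
    rw [cm_add (U := fun z => (η:ℂ) * ((nn 1 f z ^ σ : ℝ) : ℂ))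
      (V := fun z => ((η ^ (1 - σ) : ℝ) : ℂ) * ((ww f z ^ σ : ℝ) : ℂ))
      (continuousOn_const.mul w1.fst.cont) (continuousOn_const.mul w2.fst.cont) hRabs,
      cm_smul, cm_smul, add_re, re_ofReal_mul, re_ofReal_mul] at h2
    set X := (cm (fun z => ((nn 1 f z ^ σ : ℝ) : ℂ)) R).re
    set Y := (cm (fun z => ((ww f z ^ σ : ℝ) : ℂ)) R).re
    have h3 : 2 * σ ^ 2 * (η * X + η ^ (1 - σ) * Y) = X / 2 + 2 * σ ^ 2 * η ^ (1 - σ) * Y := by
      rw [hη]; field_simp; ring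
    have h4 : X ≤ 2 * σ ^ 2 * (η * X + η ^ (1 - σ) * Y) := by
      refine key.trans ?_
      gcongr
    rw [h3] at h4
    have h5 : 4 * σ ^ 2 * η ^ (1 - σ) * Y = 2 * (2 * σ ^ 2 * η ^ (1 - σ) * Y) := by ring
    rw [h5]
    linarith
  · intro z _
    have e1 := E12_re_upper zero_lt_one hσ (f z) (f' z)
    rw [max_eq_left (by nlinarith)] at e1
    have e2 := E12_re_nonneg zero_lt_one (α := σ - 1) (by linarith) (f z) (f' z)
    have hw := ww_pos f z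
    have hn := nn_pos zero_lt_one f z
    have e3 : (E12 (σ - 1) (nn 1 f z) (f z) (f' z) * ((ww f z : ℝ) : ℂ)).re =
        (E12 (σ - 1) (nn 1 f z) (f z) (f' z)).re * ww f z := by
      rw [re_mul_ofReal]
    have e4 : (E1 (σ - 1) (nn 1 f z) (f z) (f' z) * (((f z).re : ℂ) * conj (f' z))).re =
        (σ - 1) * nn 1 f z ^ (σ - 1 - 1) * ‖f' z‖ ^ 2 * (f z).re ^ 2 := by
      have : E1 (σ - 1) (nn 1 f z) (f z) (f' z) * (((f z).re : ℂ) * conj (f' z)) =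
          (((σ - 1) * nn 1 f z ^ (σ - 1 - 1) * (f z).re : ℝ) : ℂ) * ((f' z * conj (f' z)) * conj (f z)) := by
        unfold E1; push_cast; ring
      rw [this, mul_conj_norm, re_ofReal_mul, re_ofReal_mul, conj_re]; ring
    have e5 : (E2 (σ - 1) (nn 1 f z) (f z) (f' z) * (((f z).re : ℂ) * f' z)).re =
        (σ - 1) * nn 1 f z ^ (σ - 1 - 1) * ‖f' z‖ ^ 2 * (f z).re ^ 2 := by
      have : E2 (σ - 1) (nn 1 f z) (f z) (f' z) * (((f z).re : ℂ) * f' z) =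
          (((σ - 1) * nn 1 f z ^ (σ - 1 - 1) * (f z).re : ℝ) : ℂ) * ((f' z * conj (f' z)) * (f z)) := by
        unfold E2; push_cast; ring
      rw [this, mul_conj_norm, re_ofReal_mul, re_ofReal_mul]; ring
    have e6 : (((nn 1 f z ^ (σ - 1) : ℝ) : ℂ) * (1 / 2 * (f' z * conj (f' z)))).re =
        nn 1 f z ^ (σ - 1) * (1 / 2 * ‖f' z‖ ^ 2) := by
      have e7 : (1 / 2 * ((‖f' z‖ ^ 2 : ℝ) : ℂ)) = ((1 / 2 * ‖f' z‖ ^ 2 : ℝ) : ℂ) := by
        push_cast; ring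
      rw [mul_conj_norm, re_ofReal_mul, e7, ofReal_re]
    simp only [add_re]
    rw [e3, e4, e5, e6]
    have e7 : 0 ≤ (E12 (σ - 1) (nn 1 f z) (f z) (f' z)).re * ww f z := mul_nonneg e2 hw.le
    have hs1 : 0 ≤ σ - 1 := by linarith
    have e8 : 0 ≤ (σ - 1) * nn 1 f z ^ (σ - 1 - 1) * ‖f' z‖ ^ 2 * (f z).re ^ 2 := by positivity
    have e9 : (‖f z‖ ^ 2 + 1) ^ σ * (σ ^ 2 * (‖f' z‖ ^ 2 / (‖f z‖ ^ 2 + 1))) =
        2 * σ ^ 2 * (nn 1 f z ^ (σ - 1) * (1 / 2 * ‖f' z‖ ^ 2)) := by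
      rw [rpow_sub_one' hn]
      change nn 1 f z ^ σ * (σ ^ 2 * (‖f' z‖ ^ 2 / nn 1 f z)) = _
      field_simp
    rw [e9] at e1
    refine e1.trans ?_
    apply mul_le_mul_of_nonneg_left _ (by positivity)
    linarith
  · have h3 : nn 1 f 0 = ww f 0 := by
      unfold nn ww
      rw [← Complex.normSq_eq_norm_sq, Complex.normSq_apply, h0]; ring
    rw [re_ofReal_mul, ofReal_re, ofReal_re, ← h3, ← Real.rpow_add_one (nn_pos zero_lt_one f 0).ne']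
    have h4 : 0 < nn 1 f 0 ^ σ := Real.rpow_pos_of_pos (nn_pos zero_lt_one f 0) _
    rw [show σ - 1 + 1 = σ by ring]
    have h5 : 1 ≤ 2 * σ ^ 2 := by nlinarith
    nlinarith

theorem riesz {a : ℝ} (ha : 1 < a) : ∃ C : ℝ, 0 ≤ C ∧ ∀ (ϱ : ℝ) (f f' : ℂ → ℂ) (R : ℝ),
    Hol ϱ f f' → (f 0).im = 0 → 0 ≤ R → R < ϱ →
    (cm (fun z => ((nn 1 f z ^ (a / 2) : ℝ) : ℂ)) R).re ≤
      C * (cm (fun z => ((ww f z ^ (a / 2) : ℝ) : ℂ)) R).re := by
  rcases le_total a 2 with h | h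
  · refine ⟨1 / (a / 2 - 1 / 2), ?_, ?_⟩
    · have : 0 < a / 2 - 1 / 2 := by linarith
      positivity
    · intro ϱ f f' R hf h0 hR0 hR
      exact riesz_low (by linarith) (by linarith) hf h0 hR0 hR
  · refine ⟨4 * (a / 2) ^ 2 * (1 / (4 * (a / 2) ^ 2)) ^ (1 - a / 2), by positivity, ?_⟩
    intro ϱ f f' R hf h0 hR0 hR
    exact riesz_high (by linarith) hf h0 hR0 hR

end Pool.Agent.H959.Ryab
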