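import Pool.Agent.H959.Ryab.Coeff

open Complex MeasureTheory Set Filter Topology Metric
open scoped Real ComplexConjugate

namespace Pool.Agent.H959.Ryab

lemma add_rpow_le {p a b : ℝ} (hp : 0 ≤ p) (ha : 0 ≤ a) (hb : 0 ≤ b) :
    (a + b) ^ p ≤ 2 ^ p * (a ^ p + b ^ p) := by
  rcases le_total a b with h | h
  · calc (a + b) ^ p ≤ (2 * b) ^ p := Real.rpow_le_rpow (by positivity) (by linarith) hp
      _ = 2 ^ p * b ^ p := Real.mul_rpow (by norm_num) hb
      _ ≤ 2 ^ p * (a ^ p + b ^ p) := by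
        have : 0 ≤ a ^ p := by positivity
        gcongr; linarith
  · calc (a + b) ^ p ≤ (2 * a) ^ p := Real.rpow_le_rpow (by positivity) (by linarith) hp
      _ = 2 ^ p * a ^ p := Real.mul_rpow (by norm_num) ha
      _ ≤ 2 ^ p * (a ^ p + b ^ p) := by
        have : 0 ≤ b ^ p := by positivity
        gcongr; linarith

section
variable {μ : Measure ℂ} [IsFiniteMeasure μ] {p : ℝ}

lemma integrable_add_const (hp : 1 < p) {F : ℂ → ℂ} (hFm : AEStronglyMeasurable F μ)
    (hF : Integrable (fun z => ‖F z‖ ^ p) μ) {K : ℝ} (hK : 0 ≤ K) :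
    Integrable (fun z => (‖F z‖ + K) ^ p) μ := by
  refine Integrable.mono' ((hF.add (integrable_const (K ^ p))).const_mul (2 ^ p)) ?_ ?_
  · have : AEStronglyMeasurable (fun z => ‖F z‖ + K) μ := hFm.norm.add_const K
    exact (this.aemeasurable.pow_const p).aestronglyMeasurable
  · refine Eventually.of_forall fun z => ?_
    rw [Real.norm_of_nonneg (by positivity)]
    exact add_rpow_le (by linarith) (norm_nonneg _) hK

omit [IsFiniteMeasure μ] in
lemma integrable_pairing (hp : 1 < p) {F k : ℂ → ℂ} (hFm : AEStronglyMeasurable F μ)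
    (hkm : AEStronglyMeasurable k μ) (hF : Integrable (fun z => ‖F z‖ ^ p) μ)
    (hk : Integrable (fun z => ‖k z‖ ^ (p / (p - 1))) μ) :
    Integrable (fun z => F z * conj (k z)) μ := by
  have hpq : p.HolderConjugate (p / (p - 1)) := Real.HolderConjugate.conjExponent hp
  refine Integrable.mono' ((hF.div_const p).add (hk.div_const (p / (p - 1)))) ?_ ?_
  · exact hFm.mul (continuous_conj.comp_aestronglyMeasurable hkm)
  · refine Eventually.of_forall fun z => ?_
    rw [norm_mul, RCLike.norm_conj]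
    exact Real.young_inequality_of_nonneg (norm_nonneg _) (norm_nonneg _) hpq

lemma bdd_integrable (hp : 1 < p) {h : ℂ → ℂ} (hhm : AEStronglyMeasurable h μ) {K : ℝ}
    (hK : ∀ᵐ z ∂μ, ‖h z‖ ≤ K) : Integrable (fun z => ‖h z‖ ^ p) μ := by
  refine Integrable.mono' (integrable_const (K ^ p)) ?_ ?_
  · exact (hhm.norm.aemeasurable.pow_const p).aestronglyMeasurable
  · refine hK.mono fun z hz => ?_
    rw [Real.norm_of_nonneg (by positivity)]
    exact Real.rpow_le_rpow (norm_nonneg _) hz (by linarith)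

/-- derivative of `t ↦ ∫ |F + t h|^p`. -/
lemma deriv_norm (hp : 1 < p) {F h : ℂ → ℂ} (hFm : AEStronglyMeasurable F μ)
    (hF : Integrable (fun z => ‖F z‖ ^ p) μ)
    (hhm : AEStronglyMeasurable h μ) {K : ℝ} (hK0 : 0 ≤ K) (hK : ∀ᵐ z ∂μ, ‖h z‖ ≤ K) :
    HasDerivAt (fun t : ℝ => ∫ z, ‖F z + (t:ℂ) * h z‖ ^ p ∂μ)
      (∫ z, p * ‖F z‖ ^ (p - 2) * (conj (F z) * h z).re ∂μ) 0 := by
  have hmeas : ∀ t : ℝ, AEStronglyMeasurable (fun z => F z + (t:ℂ) * h z) μ := fun t =>
    hFm.add (hhm.const_mul _)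
  have key := hasDerivAt_integral_of_dominated_loc_of_deriv_le (μ := μ) (𝕜 := ℝ)
    (F := fun (t : ℝ) z => ‖F z + (t:ℂ) * h z‖ ^ p)
    (F' := fun (t : ℝ) z => p * ‖F z + (t:ℂ) * h z‖ ^ (p - 2) *
      (conj (F z + (t:ℂ) * h z) * h z).re)
    (x₀ := 0) (s := ball 0 1) (bound := fun z => p * ((‖F z‖ + (K + 1)) ^ p * K))
    (ball_mem_nhds 0 one_pos) ?_ ?_ ?_ ?_ ?_ ?_
  · have := key.2
    simpa using this
  · refine Eventually.of_forall fun t => ?_
    exact ((hmeas t).norm.aemeasurable.pow_const p).aestronglyMeasurable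
  · simpa using hF
  · have h1 : AEStronglyMeasurable (fun z => ‖F z + ((0:ℝ):ℂ) * h z‖ ^ (p - 2)) μ :=
      ((hmeas 0).norm.aemeasurable.pow_const (p - 2)).aestronglyMeasurable
    have h2 : AEStronglyMeasurable (fun z => (conj (F z + ((0:ℝ):ℂ) * h z) * h z).re) μ :=
      Complex.continuous_re.comp_aestronglyMeasurable
        ((continuous_conj.comp_aestronglyMeasurable (hmeas 0)).mul hhm)
    exact (h1.const_mul p).mul h2
  · refine hK.mono fun z hz t ht => ?_
    rw [mem_ball_zero_iff, Real.norm_eq_abs] at ht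
    set x := F z + (t:ℂ) * h z with hx
    have hx1 : ‖x‖ ≤ ‖F z‖ + K := by
      refine (norm_add_le _ _).trans ?_
      rw [norm_mul, Complex.norm_real, Real.norm_eq_abs]
      have : |t| * ‖h z‖ ≤ 1 * K := by gcongr
      linarith
    have hp0 : 0 < p := by linarith
    rw [norm_mul, norm_mul, Real.norm_of_nonneg hp0.le, Real.norm_of_nonneg (by positivity),
      mul_assoc]
    have h2 : ‖(conj x * h z).re‖ ≤ ‖x‖ * ‖h z‖ := by
      rw [Real.norm_eq_abs]
      refine (Complex.abs_re_le_norm _).trans ?_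
      rw [norm_mul, RCLike.norm_conj]
    have h3 : ‖x‖ ^ (p - 2) * ‖x‖ ≤ (‖F z‖ + (K + 1)) ^ p := by
      rw [← Real.rpow_add_one' (norm_nonneg _) (by linarith)]
      calc ‖x‖ ^ (p - 2 + 1) ≤ (‖F z‖ + (K + 1)) ^ (p - 2 + 1) :=
            Real.rpow_le_rpow (norm_nonneg _) (by linarith) (by linarith)
        _ ≤ (‖F z‖ + (K + 1)) ^ p := by
          apply Real.rpow_le_rpow_of_exponent_le _ (by linarith)
          linarith [norm_nonneg (F z)]
    apply mul_le_mul_of_nonneg_left _ hp0.le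
    calc ‖x‖ ^ (p - 2) * ‖(conj x * h z).re‖ ≤ ‖x‖ ^ (p - 2) * (‖x‖ * ‖h z‖) := by gcongr
      _ = (‖x‖ ^ (p - 2) * ‖x‖) * ‖h z‖ := by ring
      _ ≤ (‖F z‖ + (K + 1)) ^ p * K := by gcongr
  · exact (((integrable_add_const hp hFm hF (by linarith)).mul_const K).const_mul p)
  · refine Eventually.of_forall fun z t _ => ?_
    have h1 := hasFDerivAt_norm_rpow (F z + (t:ℂ) * h z) hp
    have h2 : HasDerivAt (fun t : ℝ => F z + (t:ℂ) * h z) (h z) t := by
      have := ((Complex.ofRealCLM.hasDerivAt (x := t)).mul_const (h z)).const_add (F z)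
      simpa using this
    have h3 := h1.comp_hasDerivAt t h2
    refine h3.congr_deriv ?_
    simp [Complex.inner]
    ring

/-- the variational identity (real part) -/
lemma variation_re (hp : 1 < p) {F k h : ℂ → ℂ} (hFm : AEStronglyMeasurable F μ)
    (hkm : AEStronglyMeasurable k μ)
    (hF : Integrable (fun z => ‖F z‖ ^ p) μ)
    (hk : Integrable (fun z => ‖k z‖ ^ (p / (p - 1))) μ)
    (hhm : AEStronglyMeasurable h μ) {K : ℝ} (hK0 : 0 ≤ K) (hK : ∀ᵐ z ∂μ, ‖h z‖ ≤ K)
    (hF1 : ∫ z, ‖F z‖ ^ p ∂μ = 1)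
    (hc : 0 ≤ (∫ z, F z * conj (k z) ∂μ).re)
    (hext : ∀ t s : ℝ, ∫ z, ‖(s:ℂ) * (F z + (t:ℂ) * h z)‖ ^ p ∂μ = 1 →
      (∫ z, (s:ℂ) * (F z + (t:ℂ) * h z) * conj (k z) ∂μ).re ≤ (∫ z, F z * conj (k z) ∂μ).re) :
    (∫ z, h z * conj (k z) ∂μ).re = (∫ z, F z * conj (k z) ∂μ).re *
      ∫ z, ‖F z‖ ^ (p - 2) * (conj (F z) * h z).re ∂μ := by
  set c := (∫ z, F z * conj (k z) ∂μ).re with hcdef
  set w := (∫ z, h z * conj (k z) ∂μ).re with hw
  have hh := bdd_integrable hp hhm hK
  have iF := integrable_pairing hp hFm hkm hF hk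
  have ih := integrable_pairing hp hhm hkm hh hk
  have hp0 : 0 < p := by linarith
  have hmeas : ∀ t : ℝ, AEStronglyMeasurable (fun z => F z + (t:ℂ) * h z) μ := fun t =>
    hFm.add (hhm.const_mul _)
  -- linear functional
  have hlin : ∀ t s : ℝ, (∫ z, (s:ℂ) * (F z + (t:ℂ) * h z) * conj (k z) ∂μ).re =
      s * (c + t * w) := by
    intro t s
    have e1 : ∫ z, (s:ℂ) * (F z + (t:ℂ) * h z) * conj (k z) ∂μ =
        (s:ℂ) * (∫ z, F z * conj (k z) ∂μ + (t:ℂ) * ∫ z, h z * conj (k z) ∂μ) := by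
      rw [← integral_const_mul, ← integral_add iF (ih.const_mul _), ← integral_const_mul]
      congr 1
      funext z
      ring
    rw [e1, re_ofReal_mul, add_re, re_ofReal_mul]
  -- integrability of |F + t h|^p
  have hI : ∀ t : ℝ, Integrable (fun z => ‖F z + (t:ℂ) * h z‖ ^ p) μ := by
    intro t
    refine Integrable.mono' (integrable_add_const hp hFm hF
      (K := |t| * K) (by positivity)) ?_ ?_
    · exact ((hmeas t).norm.aemeasurable.pow_const p).aestronglyMeasurable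
    · refine hK.mono fun z hz => ?_
      rw [Real.norm_of_nonneg (by positivity)]
      apply Real.rpow_le_rpow (norm_nonneg _) _ hp0.le
      refine (norm_add_le _ _).trans ?_
      rw [norm_mul, Complex.norm_real, Real.norm_eq_abs]
      gcongr
  set J : ℝ → ℝ := fun t => ∫ z, ‖F z + (t:ℂ) * h z‖ ^ p ∂μ with hJ
  have hJ0 : ∀ t, 0 ≤ J t := fun t => integral_nonneg fun z => by positivity
  have hJ00 : J 0 = 1 := by rw [hJ]; simpa using hF1
  have main : ∀ t : ℝ, c + t * w ≤ c * J t ^ (1 / p) := by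
    intro t
    rcases (hJ0 t).eq_or_lt with h0 | h0
    · -- degenerate
      have hz : (fun z => ‖F z + (t:ℂ) * h z‖ ^ p) =ᵐ[μ] 0 := by
        rw [← integral_eq_zero_iff_of_nonneg (fun z => by positivity) (hI t)]
        exact h0.symm
      have h1 := hlin t 1
      rw [one_mul] at h1
      have h2 : ∫ z, ((1:ℝ):ℂ) * (F z + (t:ℂ) * h z) * conj (k z) ∂μ = 0 := by
        apply integral_eq_zero_of_ae
        refine hz.mono fun z hz' => ?_
        have h3 : ‖F z + (t:ℂ) * h z‖ ^ p = 0 := hz'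
        have h4 : F z + (t:ℂ) * h z = 0 := by
          rw [Real.rpow_eq_zero (norm_nonneg _) hp0.ne'] at h3
          exact norm_eq_zero.mp h3
        simp [h4]
      rw [h2, zero_re] at h1
      rw [← h0, Real.zero_rpow (by positivity), mul_zero, ← h1]
    · set s := (J t) ^ (-(1 / p)) with hs
      have hs0 : 0 < s := by positivity
      have h1 : ∫ z, ‖(s:ℂ) * (F z + (t:ℂ) * h z)‖ ^ p ∂μ = 1 := by
        have e : (fun z => ‖(s:ℂ) * (F z + (t:ℂ) * h z)‖ ^ p) =
            fun z => s ^ p * ‖F z + (t:ℂ) * h z‖ ^ p := by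
          funext z
          rw [norm_mul, Complex.norm_real, Real.norm_of_nonneg hs0.le,
            Real.mul_rpow hs0.le (norm_nonneg _)]
        rw [e, integral_const_mul]
        change s ^ p * J t = 1
        rw [hs, ← Real.rpow_mul h0.le, show -(1 / p) * p = -1 by field_simp,
          Real.rpow_neg_one, inv_mul_cancel₀ h0.ne']
      have h2 := hext t s h1
      rw [hlin] at h2
      have h3 : s * J t ^ (1 / p) = 1 := by
        rw [hs, ← Real.rpow_add h0]; simp
      have h4 : 0 < J t ^ (1 / p) := by positivity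
      calc c + t * w = (s * J t ^ (1 / p)) * (c + t * w) := by rw [h3, one_mul]
        _ = J t ^ (1 / p) * (s * (c + t * w)) := by ring
        _ ≤ J t ^ (1 / p) * c := by gcongr
        _ = c * J t ^ (1 / p) := by ring
  have bern : ∀ t : ℝ, J t ^ (1 / p) ≤ 1 + 1 / p * (J t - 1) := by
    intro t
    have := rpow_one_add_le_one_add_mul_self (s := J t - 1) (by linarith [hJ0 t])
      (p := 1 / p) (by positivity) (by rw [div_le_one hp0]; exact hp.le)
    simpa using this
  -- function with a minimum at 0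
  have hd := deriv_norm hp hFm hF hhm hK0 hK
  have hmin : IsLocalMin (fun t : ℝ => c * (1 / p) * (J t - 1) - t * w) 0 := by
    refine Eventually.of_forall fun t => ?_
    simp only [hJ00, sub_self, mul_zero, zero_mul]
    have h1 := main t
    have h2 := mul_le_mul_of_nonneg_left (bern t) hc
    nlinarith
  have hd2 : HasDerivAt (fun t : ℝ => c * (1 / p) * (J t - 1) - t * w)
      (c * (1 / p) * (∫ z, p * ‖F z‖ ^ (p - 2) * (conj (F z) * h z).re ∂μ) - 1 * w) 0 :=
    (((hd.sub_const 1).const_mul (c * (1 / p)))).sub ((hasDerivAt_id (0:ℝ)).mul_const w)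
  have h0 := hmin.hasDerivAt_eq_zero hd2
  have e3 : ∫ z, p * ‖F z‖ ^ (p - 2) * (conj (F z) * h z).re ∂μ =
      p * ∫ z, ‖F z‖ ^ (p - 2) * (conj (F z) * h z).re ∂μ := by
    rw [← integral_const_mul]
    congr 1
    funext z
    ring
  rw [e3] at h0
  have : c * (1 / p) * (p * ∫ z, ‖F z‖ ^ (p - 2) * (conj (F z) * h z).re ∂μ) =
      c * ∫ z, ‖F z‖ ^ (p - 2) * (conj (F z) * h z).re ∂μ := by
    field_simp
  rw [this] at h0
  linarith

lemma H0_eq (hp : 1 < p) (F : ℂ → ℂ) (z : ℂ) :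
    H0 ((p - 2) / 2) F z = conj (F z) * ((‖F z‖ ^ (p - 2) : ℝ) : ℂ) := by
  unfold H0
  congr 4
  ring

lemma H0_integrable (hp : 1 < p) {F h : ℂ → ℂ} (hFm : AEStronglyMeasurable F μ)
    (hF : Integrable (fun z => ‖F z‖ ^ p) μ)
    (hhm : AEStronglyMeasurable h μ) {K : ℝ} (hK0 : 0 ≤ K) (hK : ∀ᵐ z ∂μ, ‖h z‖ ≤ K) :
    Integrable (fun z => H0 ((p - 2) / 2) F z * h z) μ := by
  refine Integrable.mono' ((integrable_add_const hp hFm hF (K := 1) zero_le_one).mul_const K) ?_ ?_
  · refine AEStronglyMeasurable.mul ?_ hhm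
    unfold H0
    refine (continuous_conj.comp_aestronglyMeasurable hFm).mul ?_
    exact continuous_ofReal.comp_aestronglyMeasurable
      ((hFm.norm.aemeasurable.pow_const _).aestronglyMeasurable)
  · refine hK.mono fun z hz => ?_
    rw [norm_mul]
    have h1 : ‖H0 ((p - 2) / 2) F z‖ ≤ (‖F z‖ + 1) ^ p := by
      rw [H0_eq hp, norm_mul, RCLike.norm_conj, Complex.norm_real,
        Real.norm_of_nonneg (by positivity), mul_comm,
        ← Real.rpow_add_one' (norm_nonneg _) (by linarith)]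
      calc ‖F z‖ ^ (p - 2 + 1) ≤ (‖F z‖ + 1) ^ (p - 2 + 1) :=
            Real.rpow_le_rpow (norm_nonneg _) (by linarith) (by linarith)
        _ ≤ (‖F z‖ + 1) ^ p := by
          apply Real.rpow_le_rpow_of_exponent_le _ (by linarith)
          linarith [norm_nonneg (F z)]
    gcongr

/-- the variational identity -/
lemma variation (hp : 1 < p) {F k h : ℂ → ℂ} (hFm : AEStronglyMeasurable F μ)
    (hkm : AEStronglyMeasurable k μ)
    (hF : Integrable (fun z => ‖F z‖ ^ p) μ)
    (hk : Integrable (fun z => ‖k z‖ ^ (p / (p - 1))) μ)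
    (hhm : AEStronglyMeasurable h μ) {K : ℝ} (hK0 : 0 ≤ K) (hK : ∀ᵐ z ∂μ, ‖h z‖ ≤ K)
    (hF1 : ∫ z, ‖F z‖ ^ p ∂μ = 1)
    (hc : 0 ≤ (∫ z, F z * conj (k z) ∂μ).re)
    (hext : ∀ v s : ℂ, ∫ z, ‖s * (F z + v * h z)‖ ^ p ∂μ = 1 →
      (∫ z, s * (F z + v * h z) * conj (k z) ∂μ).re ≤ (∫ z, F z * conj (k z) ∂μ).re) :
    ∫ z, h z * conj (k z) ∂μ = (((∫ z, F z * conj (k z) ∂μ).re : ℝ) : ℂ) *
      ∫ z, H0 ((p - 2) / 2) F z * h z ∂μ := by
  have iH := H0_integrable hp hFm hF hhm hK0 hK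
  have hh := bdd_integrable hp hhm hK
  have ih := integrable_pairing hp hhm hkm hh hk
  have hre : ∀ v : ℂ, ‖v‖ ≤ 1 → (v * ∫ z, h z * conj (k z) ∂μ).re =
      (∫ z, F z * conj (k z) ∂μ).re * (v * ∫ z, H0 ((p - 2) / 2) F z * h z ∂μ).re := by
    intro v hv
    have h1 := variation_re hp hFm hkm hF hk (h := fun z => v * h z) (hhm.const_mul v) hK0 ?_
      hF1 hc ?_
    · have e1 : ∫ z, v * h z * conj (k z) ∂μ = v * ∫ z, h z * conj (k z) ∂μ := by
        rw [← integral_const_mul]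
        congr 1
        funext z
        ring
      rw [e1] at h1
      rw [h1]
      congr 1
      have e2 := Complex.reCLM.integral_comp_comm (iH.const_mul v)
      have e3 : v * ∫ z, H0 ((p - 2) / 2) F z * h z ∂μ =
          ∫ z, v * (H0 ((p - 2) / 2) F z * h z) ∂μ := by
        rw [integral_const_mul]
      rw [e3]
      have e4 : (∫ z, v * (H0 ((p - 2) / 2) F z * h z) ∂μ).re =
          Complex.reCLM (∫ z, v * (H0 ((p - 2) / 2) F z * h z) ∂μ) := rfl
      rw [e4, ← e2]
      congr 1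
      funext z
      rw [H0_eq hp, reCLM_apply]
      have : v * (conj (F z) * ((‖F z‖ ^ (p - 2) : ℝ) : ℂ) * h z) =
          ((‖F z‖ ^ (p - 2) : ℝ) : ℂ) * (conj (F z) * (v * h z)) := by ring
      rw [this, re_ofReal_mul]
    · refine hK.mono fun z hz => ?_
      rw [norm_mul]
      calc ‖v‖ * ‖h z‖ ≤ 1 * K := by gcongr
        _ = K := one_mul K
    · intro t s hts
      have := hext ((t:ℂ) * v) (s:ℂ)
      simp only [← mul_assoc] at this hts ⊢
      exact this hts
  apply Complex.ext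
  · have := hre 1 (by simp)
    rw [one_mul, one_mul] at this
    rw [re_ofReal_mul, this]
  · have := hre Complex.I (by simp)
    rw [Complex.I_mul_re, Complex.I_mul_re] at this
    rw [im_ofReal_mul]
    linarith

end

end Pool.Agent.H959.Ryab
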