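import Mathlib

open Complex MeasureTheory Set Filter Topology Metric
open scoped Real ComplexConjugate

namespace Pool.Agent.H959.Ryab

/-- the real-linear map `v ↦ a v + b conj v` -/
noncomputable def wMap (a b : ℂ) : ℂ →L[ℝ] ℂ :=
  a • (ContinuousLinearMap.id ℝ ℂ) + b • (Complex.conjCLE : ℂ →L[ℝ] ℂ)

@[simp] lemma wMap_apply (a b v : ℂ) : wMap a b v = a * v + b * conj v := by
  simp [wMap]

/-- `U` has Wirtinger derivatives `a`, `b` at `z`. -/
def HasW (U : ℂ → ℂ) (a b z : ℂ) : Prop := HasFDerivAt U (wMap a b) z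

lemma HasW.congr_derivs {U : ℂ → ℂ} {a b a' b' z : ℂ} (h : HasW U a b z) (ha : a = a')
    (hb : b = b') : HasW U a' b' z := by
  subst ha; subst hb; exact h

lemma HasW.of_hasDerivAt {F : ℂ → ℂ} {F' z : ℂ} (h : HasDerivAt F F' z) : HasW F F' 0 z := by
  have h1 := h.hasFDerivAt.restrictScalars ℝ
  refine HasFDerivAt.congr_fderiv h1 ?_
  apply ContinuousLinearMap.ext
  intro v
  simp [mul_comm]

lemma HasW.const (c z : ℂ) : HasW (fun _ => c) 0 0 z :=
  HasW.of_hasDerivAt (hasDerivAt_const z c)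

lemma HasW.conj {U : ℂ → ℂ} {a b z : ℂ} (h : HasW U a b z) :
    HasW (fun z => conj (U z)) (conj b) (conj a) z := by
  have h1 := (Complex.conjCLE : ℂ →L[ℝ] ℂ).hasFDerivAt.comp z h
  refine HasFDerivAt.congr_fderiv h1 ?_
  apply ContinuousLinearMap.ext
  intro v
  simp
  ring

lemma HasW.add {U V : ℂ → ℂ} {a b c d z : ℂ} (h : HasW U a b z) (h' : HasW V c d z) :
    HasW (fun z => U z + V z) (a + c) (b + d) z := by
  have h1 := HasFDerivAt.add h h'
  refine HasFDerivAt.congr_fderiv h1 ?_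
  apply ContinuousLinearMap.ext
  intro v
  simp
  ring

lemma HasW.mul {U V : ℂ → ℂ} {a b c d z : ℂ} (h : HasW U a b z) (h' : HasW V c d z) :
    HasW (fun z => U z * V z) (a * V z + U z * c) (b * V z + U z * d) z := by
  have h1 := HasFDerivAt.mul h h'
  refine HasFDerivAt.congr_fderiv h1 ?_
  apply ContinuousLinearMap.ext
  intro v
  simp
  ring

lemma HasW.comp {U φ : ℂ → ℂ} {a b c z : ℂ} (h : HasW U a b z) (h' : HasDerivAt φ c (U z)) :
    HasW (fun z => φ (U z)) (c * a) (c * b) z := by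
  have h1 := (h'.hasFDerivAt.restrictScalars ℝ).comp z h
  refine HasFDerivAt.congr_fderiv h1 ?_
  apply ContinuousLinearMap.ext
  intro v
  simp
  ring

lemma HasW.rpow {n : ℂ → ℝ} {a b z : ℂ} (h : HasW (fun z => (n z : ℂ)) a b z)
    (hn : ∀ z, 0 < n z) (α : ℝ) :
    HasW (fun z => ((n z ^ α : ℝ) : ℂ)) (α * (n z ^ (α - 1) : ℝ) * a)
      (α * (n z ^ (α - 1) : ℝ) * b) z := by
  have h1 : HasDerivAt (fun w : ℂ => w ^ (α : ℂ)) ((α : ℂ) * (n z : ℂ) ^ ((α : ℂ) - 1)) (n z : ℂ) := by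
    have := (hasDerivAt_id (n z : ℂ)).cpow_const (c := (α : ℂ)) (by
      left; simpa using hn z)
    simpa using this
  have h2 := h.comp h1
  have h3 : (fun z => ((n z ^ α : ℝ) : ℂ)) = fun z => (n z : ℂ) ^ (α : ℂ) := by
    funext z
    rw [Complex.ofReal_cpow (hn z).le]
  rw [h3]
  refine h2.congr_derivs ?_ ?_
  · rw [Complex.ofReal_cpow (hn z).le]; push_cast; rfl
  · rw [Complex.ofReal_cpow (hn z).le]; push_cast; rfl

/-- continuously differentiable with the given Wirtinger derivatives on the ball of radius `ϱ` -/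
structure C1W (ϱ : ℝ) (U U1 U2 : ℂ → ℂ) : Prop where
  has : ∀ z ∈ ball (0:ℂ) ϱ, HasW U (U1 z) (U2 z) z
  c1 : ContinuousOn U1 (ball (0:ℂ) ϱ)
  c2 : ContinuousOn U2 (ball (0:ℂ) ϱ)

lemma C1W.cont {ϱ : ℝ} {U U1 U2 : ℂ → ℂ} (h : C1W ϱ U U1 U2) : ContinuousOn U (ball (0:ℂ) ϱ) :=
  fun z hz => ((h.has z hz).continuousAt).continuousWithinAt

lemma C1W.congr {ϱ : ℝ} {U U1 U2 V V1 V2 : ℂ → ℂ} (h : C1W ϱ U U1 U2)
    (h0 : ∀ z, V z = U z) (h1 : ∀ z, V1 z = U1 z) (h2 : ∀ z, V2 z = U2 z) : C1W ϱ V V1 V2 := by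
  have e0 : V = U := funext h0
  have e1 : V1 = U1 := funext h1
  have e2 : V2 = U2 := funext h2
  subst e0 e1 e2
  exact h

lemma C1W.const (ϱ : ℝ) (c : ℂ) : C1W ϱ (fun _ => c) (fun _ => 0) (fun _ => 0) :=
  ⟨fun z _ => HasW.const c z, continuousOn_const, continuousOn_const⟩

lemma C1W.hol {ϱ : ℝ} {F F' : ℂ → ℂ} (h : ∀ z ∈ ball (0:ℂ) ϱ, HasDerivAt F (F' z) z)
    (h' : ContinuousOn F' (ball (0:ℂ) ϱ)) : C1W ϱ F F' (fun _ => 0) :=
  ⟨fun z hz => HasW.of_hasDerivAt (h z hz), h', continuousOn_const⟩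

lemma C1W.conj {ϱ : ℝ} {U U1 U2 : ℂ → ℂ} (h : C1W ϱ U U1 U2) :
    C1W ϱ (fun z => conj (U z)) (fun z => conj (U2 z)) (fun z => conj (U1 z)) :=
  ⟨fun z hz => (h.has z hz).conj, continuous_conj.comp_continuousOn h.c2,
    continuous_conj.comp_continuousOn h.c1⟩

lemma C1W.add {ϱ : ℝ} {U U1 U2 V V1 V2 : ℂ → ℂ} (h : C1W ϱ U U1 U2) (h' : C1W ϱ V V1 V2) :
    C1W ϱ (fun z => U z + V z) (fun z => U1 z + V1 z) (fun z => U2 z + V2 z) :=
  ⟨fun z hz => (h.has z hz).add (h'.has z hz), h.c1.add h'.c1, h.c2.add h'.c2⟩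

lemma C1W.mul {ϱ : ℝ} {U U1 U2 V V1 V2 : ℂ → ℂ} (h : C1W ϱ U U1 U2) (h' : C1W ϱ V V1 V2) :
    C1W ϱ (fun z => U z * V z) (fun z => U1 z * V z + U z * V1 z)
      (fun z => U2 z * V z + U z * V2 z) :=
  ⟨fun z hz => (h.has z hz).mul (h'.has z hz), (h.c1.mul h'.cont).add (h.cont.mul h'.c1),
    (h.c2.mul h'.cont).add (h.cont.mul h'.c2)⟩

lemma contOn_rpow {s : Set ℂ} {n : ℂ → ℝ} (h : ContinuousOn (fun z => (n z : ℂ)) s)
    (hn : ∀ z, 0 < n z) (α : ℝ) : ContinuousOn (fun z => ((n z ^ α : ℝ) : ℂ)) s := by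
  have h1 : ContinuousOn n s := by
    have := continuous_re.comp_continuousOn h
    simpa [Function.comp_def] using this
  exact continuous_ofReal.comp_continuousOn (h1.rpow_const fun z _ => Or.inl (hn z).ne')

lemma C1W.rpow {ϱ : ℝ} {n : ℂ → ℝ} {n1 n2 : ℂ → ℂ} (h : C1W ϱ (fun z => (n z : ℂ)) n1 n2)
    (hn : ∀ z, 0 < n z) (α : ℝ) :
    C1W ϱ (fun z => ((n z ^ α : ℝ) : ℂ)) (fun z => α * (n z ^ (α - 1) : ℝ) * n1 z)
      (fun z => α * (n z ^ (α - 1) : ℝ) * n2 z) :=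
  ⟨fun z hz => (h.has z hz).rpow hn α,
    (continuousOn_const.mul (contOn_rpow h.cont hn _)).mul h.c1,
    (continuousOn_const.mul (contOn_rpow h.cont hn _)).mul h.c2⟩

/-- twice: `U` has Wirtinger derivatives `U1, U2` and `∂̄ U1 = U12`. -/
structure W2 (ϱ : ℝ) (U U1 U2 U12 : ℂ → ℂ) : Prop where
  fst : C1W ϱ U U1 U2
  snd : ∃ U11, C1W ϱ U1 U11 U12

lemma W2.congr {ϱ : ℝ} {U U1 U2 U12 V V1 V2 V12 : ℂ → ℂ} (h : W2 ϱ U U1 U2 U12)
    (h0 : ∀ z, V z = U z) (h1 : ∀ z, V1 z = U1 z) (h2 : ∀ z, V2 z = U2 z)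
    (h12 : ∀ z, V12 z = U12 z) : W2 ϱ V V1 V2 V12 := by
  have e0 : V = U := funext h0
  have e1 : V1 = U1 := funext h1
  have e2 : V2 = U2 := funext h2
  have e12 : V12 = U12 := funext h12
  subst e0 e1 e2 e12
  exact h

lemma W2.const (ϱ : ℝ) (c : ℂ) : W2 ϱ (fun _ => c) (fun _ => 0) (fun _ => 0) (fun _ => 0) :=
  ⟨C1W.const ϱ c, ⟨_, C1W.const ϱ 0⟩⟩

/-- holomorphic functions -/
lemma W2.hol {ϱ : ℝ} {F F' F'' : ℂ → ℂ} (h : ∀ z ∈ ball (0:ℂ) ϱ, HasDerivAt F (F' z) z)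
    (h' : ∀ z ∈ ball (0:ℂ) ϱ, HasDerivAt F' (F'' z) z)
    (h'' : ContinuousOn F'' (ball (0:ℂ) ϱ)) : W2 ϱ F F' (fun _ => 0) (fun _ => 0) :=
  ⟨C1W.hol h (fun z hz => (h' z hz).continuousAt.continuousWithinAt), ⟨_, C1W.hol h' h''⟩⟩

/-- antiholomorphic functions -/
lemma W2.antihol {ϱ : ℝ} {F F' : ℂ → ℂ} (h : ∀ z ∈ ball (0:ℂ) ϱ, HasDerivAt F (F' z) z)
    (h' : ContinuousOn F' (ball (0:ℂ) ϱ)) :
    W2 ϱ (fun z => conj (F z)) (fun _ => 0) (fun z => conj (F' z)) (fun _ => 0) := by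
  refine ⟨?_, ⟨_, C1W.const ϱ 0⟩⟩
  have := (C1W.hol h h').conj
  simpa using this

lemma W2.add {ϱ : ℝ} {U U1 U2 U12 V V1 V2 V12 : ℂ → ℂ} (h : W2 ϱ U U1 U2 U12)
    (h' : W2 ϱ V V1 V2 V12) :
    W2 ϱ (fun z => U z + V z) (fun z => U1 z + V1 z) (fun z => U2 z + V2 z)
      (fun z => U12 z + V12 z) := by
  obtain ⟨h1, ⟨_, h2⟩⟩ := h
  obtain ⟨h1', ⟨_, h2'⟩⟩ := h'
  exact ⟨h1.add h1', ⟨_, h2.add h2'⟩⟩

lemma W2.mul {ϱ : ℝ} {U U1 U2 U12 V V1 V2 V12 : ℂ → ℂ} (h : W2 ϱ U U1 U2 U12)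
    (h' : W2 ϱ V V1 V2 V12) :
    W2 ϱ (fun z => U z * V z) (fun z => U1 z * V z + U z * V1 z)
      (fun z => U2 z * V z + U z * V2 z)
      (fun z => U12 z * V z + U1 z * V2 z + (U2 z * V1 z + U z * V12 z)) := by
  obtain ⟨h1, ⟨_, h2⟩⟩ := h
  obtain ⟨h1', ⟨_, h2'⟩⟩ := h'
  refine ⟨h1.mul h1', ⟨_, (h2.mul h1').add (h1.mul h2')⟩⟩

lemma W2.smul {ϱ : ℝ} {U U1 U2 U12 : ℂ → ℂ} (h : W2 ϱ U U1 U2 U12) (c : ℂ) :
    W2 ϱ (fun z => c * U z) (fun z => c * U1 z) (fun z => c * U2 z) (fun z => c * U12 z) := by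
  refine ((W2.const ϱ c).mul h).congr ?_ ?_ ?_ ?_ <;> intro z <;> simp

lemma W2.rpow {ϱ : ℝ} {n : ℂ → ℝ} {n1 n2 n12 : ℂ → ℂ} (h : W2 ϱ (fun z => (n z : ℂ)) n1 n2 n12)
    (hn : ∀ z, 0 < n z) (α : ℝ) :
    W2 ϱ (fun z => ((n z ^ α : ℝ) : ℂ)) (fun z => α * (n z ^ (α - 1) : ℝ) * n1 z)
      (fun z => α * (n z ^ (α - 1) : ℝ) * n2 z)
      (fun z => α * (α - 1) * (n z ^ (α - 1 - 1) : ℝ) * (n1 z * n2 z)
        + α * (n z ^ (α - 1) : ℝ) * n12 z) := by
  obtain ⟨h1, ⟨U11, h2⟩⟩ := h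
  have h3 := ((C1W.const ϱ (α:ℂ)).mul (h1.rpow hn (α - 1))).mul h2
  refine ⟨h1.rpow hn α, ⟨_, h3.congr (fun z => rfl) (fun z => rfl) ?_⟩⟩
  intro z
  push_cast
  ring

/-! ### circle integrals -/

/-- the point `r e^{iθ}` -/
noncomputable def pt (r θ : ℝ) : ℂ := (r : ℂ) * cexp (θ * I)

lemma norm_pt (r θ : ℝ) : ‖pt r θ‖ = |r| := by
  simp [pt, Complex.norm_exp_ofReal_mul_I]

lemma continuous_pt : Continuous (fun p : ℝ × ℝ => pt p.1 p.2) := by
  unfold pt; fun_prop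

lemma hasDerivAt_pt_left (r θ : ℝ) : HasDerivAt (fun r => pt r θ) (cexp (θ * I)) r := by
  unfold pt
  have := (Complex.ofRealCLM.hasDerivAt (x := r)).mul_const (cexp (θ * I))
  simpa using this

lemma hasDerivAt_pt_right (r θ : ℝ) : HasDerivAt (fun θ => pt r θ) (I * pt r θ) θ := by
  unfold pt
  have h0 : HasDerivAt (fun θ : ℝ => (θ : ℂ) * I) I θ := by
    have := (Complex.ofRealCLM.hasDerivAt (x := θ)).mul_const I
    simpa using this
  have := (h0.cexp).const_mul (r : ℂ)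
  refine this.congr_deriv ?_
  ring

lemma pt_pi (r : ℝ) : pt r π = pt r (-π) := by
  unfold pt
  congr 1
  push_cast
  rw [neg_mul, Complex.exp_neg, Complex.exp_pi_mul_I]
  norm_num

/-- unnormalised circle integral -/
noncomputable def cm (U : ℂ → ℂ) (r : ℝ) : ℂ := ∫ θ in (-π)..π, U (pt r θ)

lemma cont_circle {ϱ : ℝ} {U : ℂ → ℂ} (hU : ContinuousOn U (ball (0:ℂ) ϱ)) {r : ℝ}
    (hr : |r| < ϱ) : Continuous (fun θ => U (pt r θ)) := by
  refine hU.comp_continuous (continuous_pt.comp (continuous_const.prodMk continuous_id)) ?_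
  intro θ
  simp [norm_pt, hr]

lemma bound_ball {ϱ : ℝ} {U : ℂ → ℂ} (hU : ContinuousOn U (ball (0:ℂ) ϱ)) {r : ℝ}
    (hr : r < ϱ) : ∃ C, ∀ z, ‖z‖ ≤ r → ‖U z‖ ≤ C := by
  have hc : IsCompact (closedBall (0:ℂ) r) := isCompact_closedBall 0 r
  obtain ⟨C, hC⟩ := hc.exists_bound_of_continuousOn
    (hU.mono (closedBall_subset_ball hr))
  exact ⟨C, fun z hz => hC z (by simpa using hz)⟩

lemma cm_continuousAt {ϱ : ℝ} {U : ℂ → ℂ} (hU : ContinuousOn U (ball (0:ℂ) ϱ)) {r : ℝ}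
    (hr : |r| < ϱ) : ContinuousAt (cm U) r := by
  obtain ⟨r1, hr1, hr2⟩ := exists_between hr
  obtain ⟨C, hC⟩ := bound_ball hU hr2
  have hnear : ∀ᶠ x in 𝓝 r, |x| < r1 := by
    have : ContinuousAt (fun x : ℝ => |x|) r := continuous_abs.continuousAt
    exact this.eventually_lt continuousAt_const hr1
  unfold cm
  apply intervalIntegral.continuousAt_of_dominated_interval (bound := fun _ => C)
  · filter_upwards [hnear] with x hx
    exact (cont_circle hU (hx.trans hr2)).aestronglyMeasurable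
  · filter_upwards [hnear] with x hx
    refine Eventually.of_forall fun θ _ => hC _ ?_
    rw [norm_pt]; exact hx.le
  · simp
  · refine Eventually.of_forall fun θ _ => ?_
    have h1 : ContinuousAt U (pt r θ) := hU.continuousAt (isOpen_ball.mem_nhds (by
      simp [norm_pt, hr]))
    have h2 : ContinuousAt (fun r => pt r θ) r := (hasDerivAt_pt_left r θ).continuousAt
    exact ContinuousAt.comp (f := fun r => pt r θ) (g := U) h1 h2

lemma cm_hasDerivAt {ϱ : ℝ} {U U1 U2 : ℂ → ℂ} (hU : C1W ϱ U U1 U2) {r : ℝ}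
    (hr : |r| < ϱ) :
    HasDerivAt (cm U) (∫ θ in (-π)..π, (U1 (pt r θ) * cexp (θ * I) +
      U2 (pt r θ) * conj (cexp (θ * I)))) r := by
  obtain ⟨r1, hr1, hr2⟩ := exists_between hr
  obtain ⟨C1, hC1⟩ := bound_ball hU.c1 hr2
  obtain ⟨C2, hC2⟩ := bound_ball hU.c2 hr2
  have hnear : ∀ᶠ x in 𝓝 r, |x| < r1 := by
    have : ContinuousAt (fun x : ℝ => |x|) r := continuous_abs.continuousAt
    exact this.eventually_lt continuousAt_const hr1
  have hexp : ∀ θ : ℝ, ‖cexp (θ * I)‖ = 1 := fun θ => Complex.norm_exp_ofReal_mul_I θ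
  have key := intervalIntegral.hasDerivAt_integral_of_dominated_loc_of_deriv_le
    (μ := volume) (a := -π) (b := π)
    (F := fun r θ => U (pt r θ))
    (F' := fun r θ => U1 (pt r θ) * cexp (θ * I) + U2 (pt r θ) * conj (cexp (θ * I)))
    (x₀ := r) (s := {x | |x| < r1}) (bound := fun _ => C1 + C2) hnear ?_ ?_ ?_ ?_ ?_ ?_
  · exact key.2
  · filter_upwards [hnear] with x hx
    exact (cont_circle hU.cont (hx.trans hr2)).aestronglyMeasurable
  · exact (cont_circle hU.cont hr).intervalIntegrable _ _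
  · refine Continuous.aestronglyMeasurable ?_
    have e1 := cont_circle hU.c1 hr
    have e2 := cont_circle hU.c2 hr
    have e3 : Continuous (fun θ : ℝ => cexp (θ * I)) := by fun_prop
    exact (e1.mul e3).add (e2.mul (continuous_conj.comp e3))
  · refine Eventually.of_forall fun θ _ x hx => ?_
    refine (norm_add_le _ _).trans ?_
    rw [norm_mul, norm_mul, RCLike.norm_conj, hexp, mul_one, mul_one]
    have hx' : ‖pt x θ‖ ≤ r1 := by rw [norm_pt]; exact le_of_lt hx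
    exact add_le_add (hC1 _ hx') (hC2 _ hx')
  · simp
  · refine Eventually.of_forall fun θ _ x hx => ?_
    have hx' : pt x θ ∈ ball (0:ℂ) ϱ := by
      simp only [mem_ball_zero_iff, norm_pt]
      exact lt_trans hx hr2
    have h0 : HasFDerivAt U (wMap (U1 (pt x θ)) (U2 (pt x θ))) (pt x θ) := hU.has _ hx'
    have h1 := HasFDerivAt.comp_hasDerivAt (f := fun r => pt r θ) x h0 (hasDerivAt_pt_left x θ)
    rw [wMap_apply] at h1
    exact h1

/-- angular derivative integrates to zero -/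
lemma cm_angular {ϱ : ℝ} {U U1 U2 : ℂ → ℂ} (hU : C1W ϱ U U1 U2) {r : ℝ}
    (hr : |r| < ϱ) : cm (fun z => z * U1 z) r = cm (fun z => conj z * U2 z) r := by
  have h1 : ∀ θ : ℝ, HasDerivAt (fun θ => U (pt r θ))
      (U1 (pt r θ) * (I * pt r θ) + U2 (pt r θ) * conj (I * pt r θ)) θ := by
    intro θ
    have hx' : pt r θ ∈ ball (0:ℂ) ϱ := by
      simp only [mem_ball_zero_iff, norm_pt]
      exact hr
    have h0 : HasFDerivAt U (wMap (U1 (pt r θ)) (U2 (pt r θ))) (pt r θ) := hU.has _ hx'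
    have h1 := HasFDerivAt.comp_hasDerivAt (f := fun θ => pt r θ) θ h0 (hasDerivAt_pt_right r θ)
    rw [wMap_apply] at h1
    exact h1
  have e0 : Continuous (fun θ : ℝ => pt r θ) :=
    continuous_pt.comp (continuous_const.prodMk continuous_id)
  have e1 := cont_circle hU.c1 hr
  have e2 := cont_circle hU.c2 hr
  have h2 := intervalIntegral.integral_eq_sub_of_hasDerivAt (a := -π) (b := π)
    (fun θ _ => h1 θ) (by
      apply Continuous.intervalIntegrable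
      exact (e1.mul (continuous_const.mul e0)).add
        (e2.mul (continuous_conj.comp (continuous_const.mul e0))))
  rw [pt_pi, sub_self] at h2
  have h3 : ∫ θ in (-π)..π, (U1 (pt r θ) * (I * pt r θ) + U2 (pt r θ) * conj (I * pt r θ))
      = I * (cm (fun z => z * U1 z) r - cm (fun z => conj z * U2 z) r) := by
    unfold cm
    rw [← intervalIntegral.integral_sub, ← intervalIntegral.integral_const_mul]
    · apply intervalIntegral.integral_congr
      intro θ _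
      simp only [map_mul, conj_I]
      ring
    · exact (e0.mul e1).intervalIntegrable _ _
    · exact ((continuous_conj.comp e0).mul e2).intervalIntegrable _ _
  rw [h3] at h2
  have h4 := (mul_eq_zero.mp h2).resolve_left I_ne_zero
  exact sub_eq_zero.mp h4

lemma cm_deriv_left {ϱ : ℝ} {U U1 U2 : ℂ → ℂ} (hU : C1W ϱ U U1 U2) {r : ℝ} (hr0 : 0 < r)
    (hr : r < ϱ) :
    HasDerivAt (cm U) ((2 / r) * cm (fun z => z * U1 z) r) r := by
  have hr' : |r| < ϱ := by rwa [abs_of_pos hr0]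
  have h := cm_hasDerivAt hU hr'
  convert h using 1
  have e0 : Continuous (fun θ : ℝ => pt r θ) :=
    continuous_pt.comp (continuous_const.prodMk continuous_id)
  have e1 := cont_circle hU.c1 hr'
  have e2 := cont_circle hU.c2 hr'
  have h1 : ((2 : ℂ) / r) * cm (fun z => z * U1 z) r =
      (1 / r) * (cm (fun z => z * U1 z) r + cm (fun z => conj z * U2 z) r) := by
    rw [← cm_angular hU hr']; ring
  rw [h1]
  unfold cm
  rw [← intervalIntegral.integral_add, ← intervalIntegral.integral_const_mul]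
  · apply intervalIntegral.integral_congr
    intro θ _
    have hr0' : (r : ℂ) ≠ 0 := by exact_mod_cast hr0.ne'
    simp only [pt, map_mul, conj_ofReal]
    field_simp
  · exact (e0.mul e1).intervalIntegrable _ _
  · exact ((continuous_conj.comp e0).mul e2).intervalIntegrable _ _

lemma cm_deriv_right {ϱ : ℝ} {U U1 U2 : ℂ → ℂ} (hU : C1W ϱ U U1 U2) {r : ℝ} (hr0 : 0 < r)
    (hr : r < ϱ) :
    HasDerivAt (cm U) ((2 / r) * cm (fun z => conj z * U2 z) r) r := by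
  rw [← cm_angular hU (by rwa [abs_of_pos hr0])]
  exact cm_deriv_left hU hr0 hr

lemma C1W.id (ϱ : ℝ) : C1W ϱ (fun z => z) (fun _ => 1) (fun _ => 0) :=
  C1W.hol (fun z _ => hasDerivAt_id z) continuousOn_const

/-- derivative of `cm (z U1)` -/
lemma cm_second {ϱ : ℝ} {V V1 V2 : ℂ → ℂ} (hV : C1W ϱ V V1 V2) {r : ℝ} (hr0 : 0 < r)
    (hr : r < ϱ) :
    HasDerivAt (cm (fun z => z * V z)) (2 * r * cm V2 r) r := by
  have h := cm_deriv_right ((C1W.id ϱ).mul hV) hr0 hr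
  convert h using 1
  have hr0' : (r : ℂ) ≠ 0 := by exact_mod_cast hr0.ne'
  unfold cm
  rw [← intervalIntegral.integral_const_mul, ← intervalIntegral.integral_const_mul]
  apply intervalIntegral.integral_congr
  intro θ _
  have h2 : conj (pt r θ) * pt r θ = (r:ℂ) ^ 2 := by
    rw [← Complex.normSq_eq_conj_mul_self, Complex.normSq_eq_norm_sq, norm_pt, sq_abs]
    push_cast; ring
  simp only
  have : (2:ℂ) / r * (conj (pt r θ) * (0 * V (pt r θ) + pt r θ * V2 (pt r θ)))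
      = 2 / r * ((conj (pt r θ) * pt r θ) * V2 (pt r θ)) := by ring
  rw [this, h2]
  field_simp

lemma cm_zero_mul (V : ℂ → ℂ) : cm (fun z => z * V z) 0 = 0 := by
  unfold cm pt
  simp

end Pool.Agent.H959.Ryab
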